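/-
MP_e8bc6f_co, almost all simple matroids of rank r are paving (4 ≤ r ≤ 7): basic definitions.
Author helper41 (project R7, see /team-store/h41_R7_README.md).
-/
import Mathlib

set_option autoImplicit false

namespace Pool.Agent.Helper41.R7

open Finset

section Fam
variable {V : Type*} [Fintype V] [DecidableEq V]

/-- A packing of order `r`: blocks of size at least `r`, two different blocks share at most
`r - 2` points. -/
def IsPack (r : ℕ) (B : Finset (Finset V)) : Prop :=
  (∀ b ∈ B, r ≤ b.card) ∧ ∀ b ∈ B, ∀ c ∈ B, b ≠ c → (b ∩ c).card + 2 ≤ r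

/-- No block contains a member of `S`. -/
def Avoids (S B : Finset (Finset V)) : Prop := ∀ e ∈ S, ∀ b ∈ B, ¬ e ⊆ b

open Classical in
/-- The packings of order `r` avoiding `S`. -/
noncomputable def Fam (r : ℕ) (S : Finset (Finset V)) : Finset (Finset (Finset V)) :=
  univ.filter (fun B => IsPack r B ∧ Avoids S B)

/-- The set `t` is covered by a block. -/
def Cov (B : Finset (Finset V)) (t : Finset V) : Prop := ∃ b ∈ B, t ⊆ b

instance (B : Finset (Finset V)) (t : Finset V) : Decidable (Cov B t) :=
  inferInstanceAs (Decidable (∃ b ∈ B, t ⊆ b))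

open Classical in
/-- The block containing `t` (empty if there is none). -/
noncomputable def blk (B : Finset (Finset V)) (t : Finset V) : Finset V :=
  if h : ∃ b ∈ B, t ⊆ b then h.choose else ∅

/-- Remove the point `a` from the block `b` (blocks of size `r` disappear). -/
def strip1 (r : ℕ) (a : V) (b : Finset V) (B : Finset (Finset V)) : Finset (Finset V) :=
  B.erase b ∪ (if r < b.card then {b.erase a} else ∅)

/-- Uncover `t` : remove the point `a` from the block containing `t`, if there is one. -/
noncomputable def rem (r : ℕ) (a : V) (B : Finset (Finset V)) (t : Finset V) :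
    Finset (Finset V) :=
  if Cov B t then strip1 r a (blk B t) B else B

/-- Insert the block `b`; the block `b.erase a` (if there) is deleted. -/
def ins (a : V) (R : Finset (Finset V)) (b : Finset V) : Finset (Finset V) :=
  insert b (R.erase (b.erase a))

open Classical in
/-- The options to cover `t` in `R` (`a ∈ t`): blocks `b ⊇ t` such that `b.erase a` is a block of
`R` or `b` has size `r` and `b.erase a` is not covered, all `(r-1)`-subsets of `b` containing `a`
are not covered, and `b` avoids `S`. -/
noncomputable def Opt (r : ℕ) (S : Finset (Finset V)) (a : V) (t : Finset V)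
    (R : Finset (Finset V)) : Finset (Finset V) :=
  univ.filter (fun b => t ⊆ b ∧ (b.erase a ∈ R ∨ (b.card = r ∧ ¬ Cov R (b.erase a))) ∧
    (∀ u, u ⊆ b → u.card + 1 = r → a ∈ u → ¬ Cov R u) ∧ ∀ e ∈ S, ¬ e ⊆ b)

/-- Number of options for `t` after `t` has been uncovered; `1` if `t` is not covered. -/
noncomputable def zeta (r : ℕ) (S : Finset (Finset V)) (a : V) (B : Finset (Finset V))
    (t : Finset V) : ℕ :=
  if Cov B t then (Opt r S a t (rem r a B t)).card else 1

/-- Number of members of `S` containing `D`. -/
def dg (S : Finset (Finset V)) (D : Finset V) : ℕ := (S.filter (fun e => D ⊆ e)).card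

/-- The `k`-matchings in a set `E` of pairs. -/
def matchings (E : Finset (Finset V)) (k : ℕ) : Finset (Finset (Finset V)) :=
  (E.powersetCard k).filter (fun P => ∀ p ∈ P, ∀ q ∈ P, p ≠ q → Disjoint p q)

/-- Pairs `p` disjoint from `s` such that `s ∪ p` contains no member of `S`. -/
def alw (S : Finset (Finset V)) (s : Finset V) : Finset (Finset V) :=
  univ.filter (fun p => p.card = 2 ∧ Disjoint p s ∧ ∀ e ∈ S, ¬ e ⊆ s ∪ p)

/-- The bound for the size of the blocks. -/
def hh (n : ℕ) : ℕ := Nat.log 2 n + 1

/-- All blocks have at most `H` points. -/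
def Bdd (H : ℕ) (B : Finset (Finset V)) : Prop := ∀ b ∈ B, b.card ≤ H

/-- Uncover all the sets in a list of pairs `(t, a)`. -/
noncomputable def remL (r : ℕ) (ts : List (Finset V × V)) (B : Finset (Finset V)) :
    Finset (Finset V) :=
  ts.foldl (fun R q => rem r q.2 R q.1) B

/-- Triples `T` outside `A` such that `A ∪ T` is contained in a block. -/
def lineT (A : Finset V) (B : Finset (Finset V)) : Finset (Finset V) :=
  univ.filter (fun T => T.card = 3 ∧ Disjoint T A ∧ Cov B (A ∪ T))

/-- `K` triples in different blocks. -/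
def trips (A : Finset V) (B : Finset (Finset V)) (K : ℕ) : Finset (Finset (Finset V)) :=
  ((lineT A B).powersetCard K).filter
    (fun 𝒯 => ∀ T ∈ 𝒯, ∀ T' ∈ 𝒯, T ≠ T' → ¬ Cov B (A ∪ T ∪ T'))

end Fam

/-- The gain property: to avoid one more `(r-2)`-set costs a factor `n^C`, for every `C`. -/
def GainProp (r : ℕ) : Prop :=
  ∀ C : ℕ, ∃ n0 : ℕ, ∀ (V : Type) [Fintype V] [DecidableEq V], n0 ≤ Fintype.card V →
    ∀ S : Finset (Finset V), (∀ e ∈ S, e.card + 2 = r) →
      (∀ D : Finset V, D.card + 3 = r → 1000 * dg S D ≤ Fintype.card V) →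
      ∀ s : Finset V, s.card + 2 = r → s ∉ S →
        (Fam r (insert s S)).card * Fintype.card V ^ C ≤ (Fam r S).card

section Ord
variable {V : Type*} [Fintype V] [LinearOrder V]

/-- `Y` is closed under closures of sets with at most `k` elements. -/
def ClosedK (M : Matroid V) (k : ℕ) (Y : Finset V) : Prop :=
  ∀ X : Finset V, X ⊆ Y → X.card ≤ k → M.closure (X : Set V) ⊆ (Y : Set V)

open Classical in
/-- The closure operator generated by closures of sets with at most `k` elements. -/
noncomputable def clK (M : Matroid V) (k : ℕ) (X : Finset V) : Finset V :=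
  univ.filter (fun v => ∀ Y : Finset V, ClosedK M k Y → X ⊆ Y → v ∈ Y)

/-- The greedy generating set (in decreasing order). -/
noncomputable def greedy (M : Matroid V) (k : ℕ) (F : Finset V) : Finset V :=
  F.filter (fun v => v ∉ clK M k (F.filter (fun w => v < w)))

open Classical in
/-- The flats of rank `k`. -/
noncomputable def flats (M : Matroid V) (k : ℕ) : Finset (Finset V) :=
  univ.filter (fun F => ∃ I : Finset V, I.card = k ∧ M.Indep (I : Set V) ∧
    (F : Set V) = M.closure (I : Set V))

/-- The greedy sets with at least `i + 2` points of the flats of rank `i + 1`. -/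
noncomputable def gfam (M : Matroid V) (i : ℕ) : Finset (Finset V) :=
  ((flats M (i + 1)).image (greedy M i)).filter (fun b => i + 2 ≤ b.card)

/-- `A` is independent and is the greedy (top) basis of its closure. -/
def IsTop (M : Matroid V) (A : Finset V) : Prop :=
  M.Indep (A : Set V) ∧ ∀ v ∈ A, v ∉ M.closure {w | w ∈ M.closure (A : Set V) ∧ v < w}

open Classical in
/-- The `k`-sets which are not top. -/
noncomputable def ntop (M : Matroid V) (k : ℕ) : Finset (Finset V) :=
  univ.filter (fun A => A.card = k ∧ ¬ IsTop M A)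

/-- The encoding of the flats of rank at most `r - 2`. -/
noncomputable def dat (r : ℕ) (M : Matroid V) : Fin r → Finset (Finset V) :=
  fun i => if 1 ≤ (i : ℕ) ∧ (i : ℕ) + 3 ≤ r then gfam M i else ∅

/-- Total size. -/
def cost {r : ℕ} (D : Fin r → Finset (Finset V)) : ℕ := ∑ i, ∑ G ∈ D i, G.card

end Ord

section Mat
variable {V : Type*}

/-- Simple matroids of rank `r` with ground set `V`. -/
def Good (r : ℕ) (M : Matroid V) : Prop :=
  M.E = Set.univ ∧ (∀ I : Set V, I.ncard ≤ 2 → M.Indep I) ∧ ∀ B : Set V, M.IsBase B → B.ncard = r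

/-- Paving (for rank `r`): all sets with less than `r` elements are independent. -/
def Pav (r : ℕ) (M : Matroid V) : Prop := ∀ I : Set V, I.ncard + 1 ≤ r → M.Indep I

end Mat

end Pool.Agent.Helper41.R7
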