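/-
MP_e8bc6f_co, project R7, block R7-ALW (number of allowed pairs).
-/
import Pool.Agent.Helper41.R7.Defs

set_option autoImplicit false

namespace Pool.Agent.Helper41.R7

open Finset

section
variable {V : Type*} [Fintype V] [DecidableEq V]

/-- The pairs which contain the point of `e \ s`, for a set `e ∈ S` containing all but one point
of `s`. -/
private def alwB1 (S : Finset (Finset V)) (s : Finset V) : Finset (Finset V) :=
  s.biUnion (fun y => (S.filter (fun e => s.erase y ⊆ e)).biUnion
    (fun e => univ.image (fun z => insert z (e \ s))))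

/-- The pairs `e \ s`, for a set `e ∈ S` containing all but two points of `s`. -/
private def alwB2 (S : Finset (Finset V)) (s : Finset V) : Finset (Finset V) :=
  (s.powersetCard (s.card - 2)).biUnion (fun D => sᶜ.biUnion
    (fun x => (S.filter (fun e => insert x D ⊆ e)).image (fun e => e \ s)))

private lemma card_alwB1 {r : ℕ} (hr : 4 ≤ r) {S : Finset (Finset V)}
    (hdeg : ∀ D : Finset V, D.card + 3 = r → 1000 * dg S D ≤ Fintype.card V)
    {s : Finset V} (hs : s.card + 2 = r) :
    1000 * (alwB1 S s).card ≤ s.card * Fintype.card V ^ 2 := by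
  have h1 : (alwB1 S s).card ≤ ∑ y ∈ s, dg S (s.erase y) * Fintype.card V := by
    unfold alwB1
    refine card_biUnion_le.trans (Finset.sum_le_sum fun y _ => ?_)
    refine card_biUnion_le.trans ?_
    unfold dg
    rw [← smul_eq_mul]
    refine Finset.sum_le_card_nsmul _ _ _ fun e _ => ?_
    exact card_image_le.trans (by simp)
  calc 1000 * (alwB1 S s).card ≤ 1000 * ∑ y ∈ s, dg S (s.erase y) * Fintype.card V :=
        Nat.mul_le_mul_left _ h1
    _ = ∑ y ∈ s, (1000 * dg S (s.erase y)) * Fintype.card V := by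
        rw [Finset.mul_sum]; exact Finset.sum_congr rfl fun y _ => by ring
    _ ≤ ∑ _y ∈ s, Fintype.card V * Fintype.card V := by
        refine Finset.sum_le_sum fun y hy => Nat.mul_le_mul_right _ (hdeg _ ?_)
        rw [Finset.card_erase_of_mem hy]
        omega
    _ = s.card * Fintype.card V ^ 2 := by
        rw [Finset.sum_const, smul_eq_mul]; ring

private lemma card_alwB2 {r : ℕ} (hr : 4 ≤ r) {S : Finset (Finset V)}
    (hdeg : ∀ D : Finset V, D.card + 3 = r → 1000 * dg S D ≤ Fintype.card V)
    {s : Finset V} (hs : s.card + 2 = r) :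
    1000 * (alwB2 S s).card ≤ s.card.choose 2 * Fintype.card V ^ 2 := by
  have h1 : (alwB2 S s).card ≤
      ∑ D ∈ s.powersetCard (s.card - 2), ∑ x ∈ sᶜ, dg S (insert x D) := by
    unfold alwB2
    refine card_biUnion_le.trans (Finset.sum_le_sum fun D _ => ?_)
    refine card_biUnion_le.trans (Finset.sum_le_sum fun x _ => ?_)
    exact card_image_le
  have h2 : (s.powersetCard (s.card - 2)).card = s.card.choose 2 := by
    rw [Finset.card_powersetCard]
    exact Nat.choose_symm (by omega)
  calc 1000 * (alwB2 S s).card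
      ≤ 1000 * ∑ D ∈ s.powersetCard (s.card - 2), ∑ x ∈ sᶜ, dg S (insert x D) :=
        Nat.mul_le_mul_left _ h1
    _ = ∑ D ∈ s.powersetCard (s.card - 2), ∑ x ∈ sᶜ, 1000 * dg S (insert x D) := by
        rw [Finset.mul_sum]
        exact Finset.sum_congr rfl fun D _ => by rw [Finset.mul_sum]
    _ ≤ ∑ _D ∈ s.powersetCard (s.card - 2), ∑ _x ∈ sᶜ, Fintype.card V := by
        refine Finset.sum_le_sum fun D hD => Finset.sum_le_sum fun x hx => hdeg _ ?_
        rw [Finset.mem_powersetCard] at hD
        have hxD : x ∉ D := fun h => (Finset.mem_compl.1 hx) (hD.1 h)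
        rw [Finset.card_insert_of_notMem hxD, hD.2]
        omega
    _ ≤ ∑ _D ∈ s.powersetCard (s.card - 2), Fintype.card V ^ 2 := by
        refine Finset.sum_le_sum fun D _ => ?_
        rw [Finset.sum_const, smul_eq_mul, sq]
        exact Nat.mul_le_mul_right _ (Finset.card_le_univ _)
    _ = s.card.choose 2 * Fintype.card V ^ 2 := by
        rw [Finset.sum_const, smul_eq_mul, h2]

private lemma bad_sub {r : ℕ} {S : Finset (Finset V)} (hS : ∀ e ∈ S, e.card + 2 = r)
    {s : Finset V} (hs : s.card + 2 = r) (hsS : s ∉ S) {p : Finset V} (hp2 : p.card = 2)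
    (hps : Disjoint p s) (hp : p ∉ alw S s) : p ∈ alwB1 S s ∪ alwB2 S s := by
  unfold alw at hp
  rw [Finset.mem_filter] at hp
  push Not at hp
  obtain ⟨e, heS, hesp⟩ := hp (Finset.mem_univ _) hp2 hps
  have hec : e.card = s.card := by have := hS e heS; omega
  have hq : e \ s ⊆ p := by
    intro x hx
    rw [Finset.mem_sdiff] at hx
    rcases Finset.mem_union.1 (hesp hx.1) with h | h
    · exact absurd h hx.2
    · exact h
  have hqc : (e \ s).card ≤ 2 := hp2 ▸ Finset.card_le_card hq
  have hsum : (e \ s).card + (s ∩ e).card = e.card := by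
    rw [Finset.inter_comm]; exact Finset.card_sdiff_add_card_inter e s
  have hq0 : (e \ s).card ≠ 0 := by
    intro h0
    rw [Finset.card_eq_zero, Finset.sdiff_eq_empty_iff_subset] at h0
    exact hsS (Finset.eq_of_subset_of_card_le h0 hec.ge ▸ heS)
  have hdiff : (s \ e).card + (e ∩ s).card = s.card := by
    rw [Finset.inter_comm]; exact Finset.card_sdiff_add_card_inter s e
  rw [Finset.mem_union]
  by_cases h1 : (e \ s).card = 1
  · left
    obtain ⟨x, hx⟩ := Finset.card_eq_one.1 h1
    have h2 : (s \ e).card = 1 := by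
      rw [Finset.inter_comm] at hdiff; omega
    obtain ⟨y, hy⟩ := Finset.card_eq_one.1 h2
    have hys : y ∈ s := by
      have : y ∈ s \ e := by rw [hy]; exact Finset.mem_singleton_self y
      exact (Finset.mem_sdiff.1 this).1
    have hxp : x ∈ p := hq (by rw [hx]; exact Finset.mem_singleton_self x)
    have h3 : (p.erase x).card = 1 := by rw [Finset.card_erase_of_mem hxp]; omega
    obtain ⟨z, hz⟩ := Finset.card_eq_one.1 h3
    unfold alwB1
    refine Finset.mem_biUnion.2 ⟨y, hys, Finset.mem_biUnion.2 ⟨e, ?_, ?_⟩⟩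
    · refine Finset.mem_filter.2 ⟨heS, fun w hw => ?_⟩
      rw [Finset.mem_erase] at hw
      by_contra hwe
      have : w ∈ s \ e := Finset.mem_sdiff.2 ⟨hw.2, hwe⟩
      rw [hy, Finset.mem_singleton] at this
      exact hw.1 this
    · refine Finset.mem_image.2 ⟨z, Finset.mem_univ _, ?_⟩
      rw [hx, Finset.pair_comm, ← Finset.insert_erase hxp, hz]
  · right
    have h2 : (e \ s).card = 2 := by omega
    have hqp : e \ s = p := Finset.eq_of_subset_of_card_le hq (by rw [h2, hp2])
    have hpn : p.Nonempty := by rw [← Finset.card_pos]; omega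
    obtain ⟨x, hx⟩ := hpn
    have hxq : x ∈ e \ s := by rw [hqp]; exact hx
    unfold alwB2
    refine Finset.mem_biUnion.2 ⟨s ∩ e, ?_, Finset.mem_biUnion.2 ⟨x, ?_, ?_⟩⟩
    · refine Finset.mem_powersetCard.2 ⟨Finset.inter_subset_left, ?_⟩
      omega
    · exact Finset.mem_compl.2 (Finset.mem_sdiff.1 hxq).2
    · refine Finset.mem_image.2 ⟨e, Finset.mem_filter.2 ⟨heS, ?_⟩, hqp⟩
      refine Finset.insert_subset (Finset.mem_sdiff.1 hxq).1 Finset.inter_subset_right

end

/-- Number of allowed pairs.  `m = r - 2 ≤ 5`.  There are `(n - m)(n - m - 1) / 2 ≥ n^2/2 - 5.5 n`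
pairs disjoint from `s`.  If `s ∪ p ⊇ e ∈ S`, then `e ≠ s`, so `|e ∩ p| = 1` or `2`.  If
`e ∩ p = {x}` then `e = s.erase y ∪ {x}`: for each of the `m` points `y ∈ s` there are at most
`n/1000` such `e` (they contain the `(r-3)`-set `s.erase y`), so at most `m n / 1000` points `x` and
at most `m n^2 / 1000` pairs.  If `p ⊆ e` then `e = (s \ {y, y'}) ∪ p`; for each of the
`m (m-1)/2` pairs `y, y'` and each `x`, at most `n/1000` sets `e ∈ S` contain the `(r-3)`-set
`(s \ {y, y'}) ∪ {x}`; each `p` is counted for both its points, so at most `m (m-1) n^2 / 4000`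
pairs.  Altogether at most `n^2 / 100`, and `n^2/2 - 5.5 n - n^2/100 ≥ 19 n^2/40` for
`n ≥ 1000`. -/
theorem card_alw {V : Type*} [Fintype V] [DecidableEq V] {r : ℕ} (hr : 4 ≤ r) (hr7 : r ≤ 7)
    (hn : 1000 ≤ Fintype.card V) {S : Finset (Finset V)} (hS : ∀ e ∈ S, e.card + 2 = r)
    (hdeg : ∀ D : Finset V, D.card + 3 = r → 1000 * dg S D ≤ Fintype.card V)
    {s : Finset V} (hs : s.card + 2 = r) (hsS : s ∉ S) :
    19 * Fintype.card V ^ 2 ≤ 40 * (alw S s).card := by
  have h1 := card_alwB1 hr hdeg hs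
  have h2 := card_alwB2 hr hdeg hs
  have hsub : (sᶜ).powersetCard 2 ⊆ alw S s ∪ (alwB1 S s ∪ alwB2 S s) := by
    intro p hp
    rw [Finset.mem_powersetCard] at hp
    by_cases hpa : p ∈ alw S s
    · exact Finset.mem_union_left _ hpa
    · refine Finset.mem_union_right _ (bad_sub hS hs hsS hp.2 ?_ hpa)
      rw [Finset.disjoint_left]
      intro x hx hxs
      exact (Finset.mem_compl.1 (hp.1 hx)) hxs
  have h3 : (Fintype.card V - s.card).choose 2 ≤
      (alw S s).card + ((alwB1 S s).card + (alwB2 S s).card) := by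
    have := Finset.card_le_card hsub
    rw [Finset.card_powersetCard, Finset.card_compl] at this
    exact this.trans ((Finset.card_union_le _ _).trans
      (Nat.add_le_add_left (Finset.card_union_le _ _) _))
  have hm5 : s.card ≤ 5 := by omega
  have h4 : (Fintype.card V - 5).choose 2 ≤ (Fintype.card V - s.card).choose 2 :=
    Nat.choose_le_choose 2 (by omega)
  have h5 : s.card.choose 2 ≤ 10 := (Nat.choose_le_choose 2 hm5).trans (by decide)
  obtain ⟨k, hk⟩ : ∃ k, Fintype.card V = k + 6 := ⟨Fintype.card V - 6, by omega⟩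
  have h6 : (k + 1) * k = (Fintype.card V - 5).choose 2 * 2 := by
    have h := Nat.add_one_mul_choose_eq k 1
    rw [Nat.choose_one_right] at h
    rw [hk, show k + 6 - 5 = k + 1 from rfl]
    exact h
  have h7 : 1000 * (alwB1 S s).card ≤ 5 * (k + 6) ^ 2 := by
    rw [← hk]; exact h1.trans (Nat.mul_le_mul_right _ hm5)
  have h8 : 1000 * (alwB2 S s).card ≤ 10 * (k + 6) ^ 2 := by
    rw [← hk]; exact h2.trans (Nat.mul_le_mul_right _ h5)
  rw [hk]
  have hk2 : 994 ≤ k := by omega
  nlinarith [h3, h4, h6, h7, h8, hk2]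

end Pool.Agent.Helper41.R7
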