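/-
MP_e8bc6f_co, project R7, block R7-BAS (elementary facts on packings).
-/
import Pool.Agent.Helper41.R7.Defs

set_option autoImplicit false
set_option linter.unusedSectionVars false

namespace Pool.Agent.Helper41.R7

open Finset

variable {V : Type*} [Fintype V] [DecidableEq V]

theorem mem_fam {r : ℕ} {S B : Finset (Finset V)} : B ∈ Fam r S ↔ IsPack r B ∧ Avoids S B := by
  classical
  unfold Fam
  simp

/-- Avoiding more sets. -/
theorem fam_anti {r : ℕ} {S T : Finset (Finset V)} (h : S ⊆ T) : Fam r T ⊆ Fam r S := by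
  intro B hB
  rw [mem_fam] at hB ⊢
  exact ⟨hB.1, fun e he b hb => hB.2 e (h he) b hb⟩

/-- A set with at least `r - 1` points is in at most one block. -/
theorem pack_uniq {r : ℕ} {B : Finset (Finset V)} (hB : IsPack r B) {b c t : Finset V}
    (hb : b ∈ B) (hc : c ∈ B) (ht : r ≤ t.card + 1) (h1 : t ⊆ b) (h2 : t ⊆ c) : b = c := by
  by_contra hne
  have h3 := hB.2 b hb c hc hne
  have h4 := card_le_card (subset_inter h1 h2)
  omega

theorem blk_mem {B : Finset (Finset V)} {t : Finset V} (h : Cov B t) :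
    blk B t ∈ B ∧ t ⊆ blk B t := by
  have h' : ∃ b ∈ B, t ⊆ b := h
  unfold blk
  rw [dif_pos h']
  exact h'.choose_spec

theorem blk_eq {r : ℕ} {B : Finset (Finset V)} (hB : IsPack r B) {b t : Finset V}
    (hb : b ∈ B) (ht : r ≤ t.card + 1) (h : t ⊆ b) : blk B t = b := by
  have h1 := blk_mem (B := B) (t := t) ⟨b, hb, h⟩
  exact pack_uniq hB h1.1 hb ht h1.2 h

theorem mem_strip1 {r : ℕ} {a : V} {b c : Finset V} {B : Finset (Finset V)} :
    c ∈ strip1 r a b B ↔ (c ≠ b ∧ c ∈ B) ∨ (r < b.card ∧ c = b.erase a) := by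
  unfold strip1
  rw [mem_union, mem_erase]
  split_ifs with h
  · simp [h]
  · simp [h]

theorem strip1_mem {r : ℕ} {S B : Finset (Finset V)} (hB : B ∈ Fam r S) (a : V) {b : Finset V}
    (hb : b ∈ B) : strip1 r a b B ∈ Fam r S := by
  rw [mem_fam] at hB ⊢
  obtain ⟨⟨h1, h2⟩, h3⟩ := hB
  refine ⟨⟨?_, ?_⟩, ?_⟩
  · intro c hc
    rcases mem_strip1.1 hc with ⟨_, hc⟩ | ⟨hr, rfl⟩
    · exact h1 c hc
    · have := pred_card_le_card_erase (s := b) (a := a)
      omega
  · intro c hc d hd hcd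
    rcases mem_strip1.1 hc with ⟨hcb, hc⟩ | ⟨hr, rfl⟩
    · rcases mem_strip1.1 hd with ⟨hdb, hd⟩ | ⟨hr, rfl⟩
      · exact h2 c hc d hd hcd
      · have := h2 c hc b hb hcb
        have h4 : (c ∩ b.erase a).card ≤ (c ∩ b).card :=
          card_le_card (inter_subset_inter_left (erase_subset _ _))
        omega
    · rcases mem_strip1.1 hd with ⟨hdb, hd⟩ | ⟨hr', rfl⟩
      · have := h2 b hb d hd (Ne.symm hdb)
        have h4 : (b.erase a ∩ d).card ≤ (b ∩ d).card :=
          card_le_card (inter_subset_inter_right (erase_subset _ _))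
        omega
      · exact absurd rfl hcd
  · intro e he c hc hec
    rcases mem_strip1.1 hc with ⟨_, hc⟩ | ⟨hr, rfl⟩
    · exact h3 e he c hc hec
    · exact h3 e he b hb (hec.trans (erase_subset _ _))

theorem rem_mem {r : ℕ} {S B : Finset (Finset V)} (hB : B ∈ Fam r S) (a : V) (t : Finset V) :
    rem r a B t ∈ Fam r S := by
  unfold rem
  split_ifs with h
  · exact strip1_mem hB a (blk_mem h).1
  · exact hB

theorem rem_bdd {r H : ℕ} {B : Finset (Finset V)} (hB : Bdd H B) (a : V) (t : Finset V) :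
    Bdd H (rem r a B t) := by
  unfold rem
  split_ifs with h
  · intro c hc
    rcases mem_strip1.1 hc with ⟨_, hc⟩ | ⟨hr, rfl⟩
    · exact hB c hc
    · exact (card_le_card (erase_subset _ _)).trans (hB _ (blk_mem h).1)
  · exact hB

/-- Removing does not cover anything new. -/
theorem cov_rem {r : ℕ} {B : Finset (Finset V)} {a : V} {t u : Finset V}
    (h : Cov (rem r a B t) u) : Cov B u := by
  unfold rem at h
  split_ifs at h with h1
  · obtain ⟨c, hc, huc⟩ := h
    rcases mem_strip1.1 hc with ⟨_, hc⟩ | ⟨hr, rfl⟩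
    · exact ⟨c, hc, huc⟩
    · exact ⟨_, (blk_mem h1).1, huc.trans (erase_subset _ _)⟩
  · exact h

theorem rem_unc {r : ℕ} {B : Finset (Finset V)} (hB : IsPack r B) {a : V} {t : Finset V}
    (ht : t.card + 1 = r) (ha : a ∈ t) : ¬ Cov (rem r a B t) t := by
  unfold rem
  split_ifs with h1
  · rintro ⟨c, hc, htc⟩
    rcases mem_strip1.1 hc with ⟨hcb, hc⟩ | ⟨hr, rfl⟩
    · exact hcb (blk_eq hB hc (by omega) htc).symm
    · have := htc ha
      simp at this
  · exact h1

end Pool.Agent.Helper41.R7
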