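/-
MP_e8bc6f_co, project R7, block R7-OPT (options, inserting and removing).
-/
import Pool.Agent.Helper41.R7.BAS

set_option autoImplicit false
set_option linter.unusedSectionVars false
set_option linter.unusedVariables false

namespace Pool.Agent.Helper41.R7

open Finset

variable {V : Type*} [Fintype V] [DecidableEq V]

theorem mem_opt {r : ℕ} {S R : Finset (Finset V)} {a : V} {t b : Finset V} :
    b ∈ Opt r S a t R ↔ t ⊆ b ∧ (b.erase a ∈ R ∨ (b.card = r ∧ ¬ Cov R (b.erase a))) ∧
      (∀ u, u ⊆ b → u.card + 1 = r → a ∈ u → ¬ Cov R u) ∧ ∀ e ∈ S, ¬ e ⊆ b := by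
  classical
  unfold Opt
  simp

/-- The `(r-1)`-set `t` itself is not covered if there is an option. -/
theorem opt_unc {r : ℕ} {S R : Finset (Finset V)} {a : V} {t b : Finset V}
    (ht : t.card + 1 = r) (ha : a ∈ t) (hb : b ∈ Opt r S a t R) : ¬ Cov R t := by
  rw [mem_opt] at hb
  exact hb.2.2.1 t hb.1 ht ha

/-- Inserting an option gives a packing.  If a block `g ≠ b.erase a` of `R` shared `r - 1` points
with `b`, let `u` be `r - 1` of them; if `a ∈ u` then `u` is covered, excluded; if `a ∉ u` then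
`u ⊆ b.erase a`, and `b.erase a` is another block of `R`, or `b.erase a = u` is not covered. -/
theorem ins_mem {r : ℕ} {S R : Finset (Finset V)} (hR : R ∈ Fam r S) {a : V} {t b : Finset V}
    (ht : t.card + 1 = r) (ha : a ∈ t) (hb : b ∈ Opt r S a t R) : ins a R b ∈ Fam r S := by
  rw [mem_fam] at hR ⊢
  obtain ⟨⟨h1, h2⟩, h3⟩ := hR
  rw [mem_opt] at hb
  obtain ⟨htb, hb1, hb2, hb3⟩ := hb
  have hab : a ∈ b := htb ha
  have hcard : (b.erase a).card + 1 = b.card := by
    rw [card_erase_of_mem hab]
    have : 0 < b.card := card_pos.2 ⟨a, hab⟩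
    omega
  have key : ∀ g ∈ R, g ≠ b.erase a → (b ∩ g).card + 2 ≤ r := by
    intro g hg hgb
    by_contra hc
    push Not at hc
    obtain ⟨u, hu1, hu2⟩ := exists_subset_card_eq (show r - 1 ≤ (b ∩ g).card by omega)
    have hub : u ⊆ b := hu1.trans inter_subset_left
    have hug : u ⊆ g := hu1.trans inter_subset_right
    have hur : u.card + 1 = r := by omega
    by_cases hau : a ∈ u
    · exact hb2 u hub hur hau ⟨g, hg, hug⟩
    · have hue : u ⊆ b.erase a := subset_erase.2 ⟨hub, hau⟩
      rcases hb1 with h | ⟨h, h'⟩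
      · have := h2 g hg _ h hgb
        have h4 := card_le_card (subset_inter hug hue)
        omega
      · have h5 : u = b.erase a := eq_of_subset_of_card_le hue (by omega)
        exact h' ⟨g, hg, h5 ▸ hug⟩
  have hmem : ∀ c, c ∈ ins a R b ↔ c = b ∨ (c ≠ b.erase a ∧ c ∈ R) := by
    intro c
    unfold ins
    rw [mem_insert, mem_erase]
  refine ⟨⟨?_, ?_⟩, ?_⟩
  · intro c hc
    rcases (hmem c).1 hc with rfl | ⟨_, hc⟩
    · rcases hb1 with h | ⟨h, _⟩
      · have := h1 _ h
        omega
      · omega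
    · exact h1 c hc
  · intro c hc d hd hcd
    rcases (hmem c).1 hc with hc0 | ⟨hc1, hc2⟩
    · rcases (hmem d).1 hd with hd0 | ⟨hd1, hd2⟩
      · exact absurd (hc0.trans hd0.symm) hcd
      · rw [hc0]
        exact key d hd2 hd1
    · rcases (hmem d).1 hd with hd0 | ⟨hd1, hd2⟩
      · rw [hd0, inter_comm]
        exact key c hc2 hc1
      · exact h2 c hc2 d hd2 hcd
  · intro e he c hc
    rcases (hmem c).1 hc with rfl | ⟨_, hc⟩
    · exact hb3 e he
    · exact h3 e he c hc

theorem ins_bdd {r H : ℕ} {S R : Finset (Finset V)} (hR : Bdd H R) {a : V} {t b : Finset V}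
    (hrH : r ≤ H + 1) (ht : t.card + 1 = r) (ha : a ∈ t) (hb : b ∈ Opt r S a t R) :
    Bdd (H + 1) (ins a R b) := by
  rw [mem_opt] at hb
  obtain ⟨htb, hb1, hb2, hb3⟩ := hb
  have hab : a ∈ b := htb ha
  have hcard : (b.erase a).card + 1 = b.card := by
    rw [card_erase_of_mem hab]
    have : 0 < b.card := card_pos.2 ⟨a, hab⟩
    omega
  intro c hc
  unfold ins at hc
  rw [mem_insert, mem_erase] at hc
  rcases hc with rfl | ⟨_, hc⟩
  · rcases hb1 with h | ⟨h, _⟩
    · have := hR _ h
      omega
    · omega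
  · have := hR c hc
    omega

theorem rem_ins {r : ℕ} {S R : Finset (Finset V)} (hR : R ∈ Fam r S) {a : V} {t b : Finset V}
    (ht : t.card + 1 = r) (ha : a ∈ t) (hb : b ∈ Opt r S a t R) :
    rem r a (ins a R b) t = R ∧ blk (ins a R b) t = b ∧ Cov (ins a R b) t := by
  have hins := ins_mem hR ht ha hb
  have hunc := opt_unc ht ha hb
  have hb' := hb
  rw [mem_opt] at hb
  obtain ⟨htb, hb1, hb2, hb3⟩ := hb
  have hab : a ∈ b := htb ha
  have hbi : b ∈ ins a R b := by
    unfold ins
    exact mem_insert_self _ _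
  have hblk : blk (ins a R b) t = b := blk_eq (mem_fam.1 hins).1 hbi (by omega) htb
  have hcov : Cov (ins a R b) t := ⟨b, hbi, htb⟩
  have hbR : b ∉ R := fun h => hunc ⟨b, h, htb⟩
  have hcard : (b.erase a).card + 1 = b.card := by
    rw [card_erase_of_mem hab]
    have : 0 < b.card := card_pos.2 ⟨a, hab⟩
    omega
  refine ⟨?_, hblk, hcov⟩
  unfold rem
  rw [if_pos hcov, hblk]
  ext c
  rw [mem_strip1]
  unfold ins
  rw [mem_insert, mem_erase]
  constructor
  · rintro (⟨h1, h2 | h2⟩ | ⟨h1, h2⟩)
    · exact absurd h2 h1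
    · exact h2.2
    · rcases hb1 with h | ⟨h, _⟩
      · rw [h2]; exact h
      · omega
  · intro hc
    by_cases hce : c = b.erase a
    · right
      have := (mem_fam.1 hR).1.1 c hc
      rw [hce] at this
      exact ⟨by omega, hce⟩
    · left
      refine ⟨?_, Or.inr ⟨hce, hc⟩⟩
      rintro rfl
      exact hbR hc

/-- Conversely the block containing `t` is an option after its removal, and inserting it gives the
packing back. -/
theorem ins_rem {r : ℕ} {S B : Finset (Finset V)} (hB : B ∈ Fam r S) {a : V} {t : Finset V}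
    (ht : t.card + 1 = r) (ha : a ∈ t) (hc : Cov B t) :
    blk B t ∈ Opt r S a t (rem r a B t) ∧ ins a (rem r a B t) (blk B t) = B := by
  obtain ⟨hP, hA⟩ := mem_fam.1 hB
  obtain ⟨hb, htb⟩ := blk_mem hc
  set b := blk B t with hbdef
  have hab : a ∈ b := htb ha
  have hcard : (b.erase a).card + 1 = b.card := by
    rw [card_erase_of_mem hab]
    have : 0 < b.card := card_pos.2 ⟨a, hab⟩
    omega
  have hrem : ∀ c, c ∈ rem r a B t ↔ (c ≠ b ∧ c ∈ B) ∨ (r < b.card ∧ c = b.erase a) := by
    intro c
    unfold rem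
    rw [if_pos hc, ← hbdef, mem_strip1]
  have hbr := hP.1 b hb
  -- a set of size at least r - 1 inside b is covered after the removal only by `b.erase a`
  have hcov : ∀ u, u ⊆ b → r ≤ u.card + 1 → Cov (rem r a B t) u → r < b.card ∧ a ∉ u := by
    rintro u hub hur ⟨c, hcm, huc⟩
    rcases (hrem c).1 hcm with ⟨h1, h2⟩ | ⟨h1, h2⟩
    · exact absurd (pack_uniq hP h2 hb hur huc hub) h1
    · refine ⟨h1, fun hau => ?_⟩
      have := huc hau
      rw [h2] at this
      simp at this
  have heB : b.erase a ∉ B := by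
    intro h
    have hne : b.erase a ≠ b := fun h' => by
      have := congrArg card h'
      omega
    have := hP.1 _ h
    exact hne (pack_uniq hP h hb (t := b.erase a) (by omega) (Subset.refl _) (erase_subset _ _))
  refine ⟨?_, ?_⟩
  · rw [mem_opt]
    refine ⟨htb, ?_, ?_, fun e he => hA e he b hb⟩
    · by_cases h : r < b.card
      · left
        exact (hrem _).2 (Or.inr ⟨h, rfl⟩)
      · right
        refine ⟨by omega, fun hcv => ?_⟩
        exact h (hcov _ (erase_subset _ _) (by omega) hcv).1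
    · intro u hub hur hau hcv
      exact (hcov u hub (by omega) hcv).2 hau
  · ext c
    unfold ins
    rw [mem_insert, mem_erase, hrem]
    constructor
    · rintro (rfl | ⟨h1, ⟨h2, h3⟩ | ⟨h2, h3⟩⟩)
      · exact hb
      · exact h3
      · exact absurd h3 h1
    · intro hcB
      by_cases hcb : c = b
      · exact Or.inl hcb
      · right
        refine ⟨?_, Or.inl ⟨hcb, hcB⟩⟩
        rintro rfl
        exact heB hcB

/-- An option is determined by one of its points outside `t`: `insert z (t.erase a)` has `r - 1`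
points and is contained in `b.erase a`; if `b.erase a` is a block of `R` it is the unique block
containing this set; if `b.card = r` then `b.erase a` is this set and it is not covered. -/
theorem opt_uniq {r : ℕ} {S R : Finset (Finset V)} (hR : IsPack r R) {a : V} {t b b' : Finset V}
    (ht : t.card + 1 = r) (ha : a ∈ t) (hb : b ∈ Opt r S a t R) (hb' : b' ∈ Opt r S a t R)
    {z : V} (hz : z ∈ b) (hz' : z ∈ b') (hzt : z ∉ t) : b = b' := by
  rw [mem_opt] at hb hb'
  have hza : z ≠ a := fun h => hzt (h ▸ ha)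
  have htc : (t.erase a).card + 1 = t.card := by
    rw [card_erase_of_mem ha]
    have : 0 < t.card := card_pos.2 ⟨a, ha⟩
    omega
  set u := insert z (t.erase a) with hu
  have huc : u.card + 1 = r := by
    rw [hu, card_insert_of_notMem (fun h => hzt (mem_of_mem_erase h))]
    omega
  have hsub : ∀ c : Finset V, t ⊆ c → z ∈ c → u ⊆ c.erase a := by
    intro c htc hzc
    rw [hu]
    apply insert_subset
    · exact mem_erase.2 ⟨hza, hzc⟩
    · exact erase_subset_erase a htc
  have hins : ∀ c : Finset V, a ∈ c → insert a (c.erase a) = c := fun c hc => insert_erase hc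
  have hab : a ∈ b := hb.1 ha
  have hab' : a ∈ b' := hb'.1 ha
  have hcc : ∀ c : Finset V, a ∈ c → (c.erase a).card + 1 = c.card := by
    intro c hc
    rw [card_erase_of_mem hc]
    have : 0 < c.card := card_pos.2 ⟨a, hc⟩
    omega
  have h1 := hsub b hb.1 hz
  have h2 := hsub b' hb'.1 hz'
  have hsmall : ∀ c : Finset V, a ∈ c → u ⊆ c.erase a → c.card = r → c.erase a = u := by
    intro c hc hcu hcr
    have := hcc c hc
    exact (eq_of_subset_of_card_le hcu (by omega)).symm
  have herase : b.erase a = b'.erase a := by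
    rcases hb.2.1 with h3 | ⟨h3, h3'⟩
    · rcases hb'.2.1 with h4 | ⟨h4, h4'⟩
      · exact pack_uniq hR h3 h4 (by omega) h1 h2
      · exact absurd ⟨_, h3, by rw [hsmall b' hab' h2 h4]; exact h1⟩ h4'
    · rcases hb'.2.1 with h4 | ⟨h4, h4'⟩
      · exact absurd ⟨_, h4, by rw [hsmall b hab h1 h3]; exact h2⟩ h3'
      · rw [hsmall b hab h1 h3, hsmall b' hab' h2 h4]
  rw [← hins b hab, ← hins b' hab', herase]

/-- At most `|X \ t|` options meet `X` outside `t`. -/
theorem opt_inter_le {r : ℕ} {S R : Finset (Finset V)} (hR : IsPack r R) {a : V} {t : Finset V}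
    (ht : t.card + 1 = r) (ha : a ∈ t) (X : Finset V) :
    ((Opt r S a t R).filter (fun b => ¬ b ∩ X ⊆ t)).card ≤ (X \ t).card := by
  classical
  have : Nonempty V := ⟨a⟩
  have hex : ∀ b ∈ (Opt r S a t R).filter (fun b => ¬ b ∩ X ⊆ t), ∃ z, z ∈ b ∧ z ∈ X ∧ z ∉ t := by
    intro b hb
    obtain ⟨_, hb2⟩ := mem_filter.1 hb
    rw [not_subset] at hb2
    obtain ⟨z, hz, hzt⟩ := hb2
    rw [mem_inter] at hz
    exact ⟨z, hz.1, hz.2, hzt⟩
  choose! f hf using hex
  refine card_le_card_of_injOn f ?_ ?_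
  · intro b hb
    have := hf b hb
    rw [mem_coe, mem_sdiff]
    exact this.2
  · intro b hb b' hb' h
    have h1 := hf b hb
    have h2 := hf b' hb'
    have h3 := (mem_filter.1 (mem_coe.1 hb)).1
    have h4 := (mem_filter.1 (mem_coe.1 hb')).1
    exact opt_uniq hR ht ha h3 h4 h1.1 (by rw [h]; exact h2.1) h1.2.2

theorem opt_card_le {r : ℕ} {S R : Finset (Finset V)} (hR : IsPack r R) {a : V} {t : Finset V}
    (ht : t.card + 1 = r) (ha : a ∈ t) : (Opt r S a t R).card ≤ Fintype.card V := by
  classical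
  have h1 := opt_inter_le (S := S) hR ht ha (univ : Finset V)
  have h2 : (Opt r S a t R).filter (fun b => ¬ b ∩ univ ⊆ t) = Opt r S a t R := by
    apply filter_true_of_mem
    intro b hb hsub
    rw [inter_univ] at hsub
    rw [mem_opt] at hb
    have hbt : b = t := Subset.antisymm hsub hb.1
    rcases hb.2.1 with h | ⟨h, _⟩
    · have h3 := hR.1 _ h
      have h4 := card_le_card (erase_subset a b)
      rw [hbt] at h3 h4
      omega
    · rw [hbt] at h
      omega
  rw [h2] at h1
  exact h1.trans ((card_le_card sdiff_subset).trans (le_of_eq card_univ))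

theorem one_le_zeta {r : ℕ} {S B : Finset (Finset V)} (hB : B ∈ Fam r S) {a : V} {t : Finset V}
    (ht : t.card + 1 = r) (ha : a ∈ t) : 1 ≤ zeta r S a B t := by
  unfold zeta
  split_ifs with h
  · exact card_pos.2 ⟨_, (ins_rem hB ht ha h).1⟩
  · exact le_refl 1

theorem zeta_le {r : ℕ} {S B : Finset (Finset V)} (hB : B ∈ Fam r S) {a : V} {t : Finset V}
    (ht : t.card + 1 = r) (ha : a ∈ t) : zeta r S a B t ≤ Fintype.card V := by
  unfold zeta
  split_ifs with h
  · exact opt_card_le (mem_fam.1 (rem_mem hB a t)).1 ht ha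
  · exact Fintype.card_pos_iff.2 ⟨a⟩

end Pool.Agent.Helper41.R7
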