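/-
MP_e8bc6f_co, project R7, block R7-AVG1 (weights of the triples on lines).
-/
import Pool.Agent.Helper41.R7.OPT

set_option autoImplicit false

namespace Pool.Agent.Helper41.R7

open Finset

variable {V : Type*} [Fintype V] [DecidableEq V]

/-- The weight of a triple: `1 / (|L| - 2)` where `L` is its line, the block containing `A ∪ T`
without `A`. -/
noncomputable def wt (r : ℕ) (A : Finset V) (B : Finset (Finset V)) (T : Finset V) : ℝ :=
  1 / (((blk B (A ∪ T)).card : ℝ) + 1 - r)

/-- The product of the numbers of options of the three pairs. -/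
noncomputable def FT (r : ℕ) (S : Finset (Finset V)) (A : Finset V) (a : V)
    (B : Finset (Finset V)) (T : Finset V) : ℝ :=
  ∏ p ∈ T.powersetCard 2, (zeta r S a B (A ∪ p) : ℝ)

theorem wt_nonneg {r : ℕ} {S B : Finset (Finset V)} (hB : B ∈ Fam r S) {A T : Finset V}
    (hT : T ∈ lineT A B) : 0 ≤ wt r A B T ∧ wt r A B T ≤ 1 := by
  unfold lineT at hT
  rw [mem_filter] at hT
  obtain ⟨_, _, _, hcov⟩ := hT
  have h1 := (mem_fam.1 hB).1.1 _ (blk_mem hcov).1
  have h2 : (r : ℝ) ≤ ((blk B (A ∪ T)).card : ℝ) := by exact_mod_cast h1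
  have h3 : (1 : ℝ) ≤ ((blk B (A ∪ T)).card : ℝ) + 1 - r := by linarith
  unfold wt
  exact ⟨by positivity, by rw [div_le_one (by linarith)]; exact h3⟩

private theorem line_filter11 {r : ℕ} {S B : Finset (Finset V)} (hB : B ∈ Fam r S) {A p : Finset V}
    (hA : A.card + 3 = r) (hp : p.card = 2) (hpA : Disjoint p A) (hc : Cov B (A ∪ p)) :
    (lineT A B).filter (fun T => p ⊆ T) =
      (blk B (A ∪ p) \ (A ∪ p)).image (fun x => insert x p) := by
  have hpack := (mem_fam.1 hB).1
  have hcardAp : (A ∪ p).card + 1 = r := by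
    rw [card_union_of_disjoint hpA.symm, hp]; omega
  ext T
  rw [mem_filter, mem_image]
  constructor
  · rintro ⟨hT, hpT⟩
    unfold lineT at hT
    rw [mem_filter] at hT
    obtain ⟨_, hT3, hTA, hcov⟩ := hT
    have h1 : (T \ p).card = 1 := by
      rw [card_sdiff_of_subset hpT, hT3, hp]
    obtain ⟨x, hx⟩ := card_eq_one.1 h1
    have hxT : x ∈ T \ p := by rw [hx]; exact mem_singleton_self x
    rw [mem_sdiff] at hxT
    have hblk : blk B (A ∪ p) = blk B (A ∪ T) :=
      blk_eq hpack (blk_mem hcov).1 (by omega)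
        ((union_subset_union_right hpT).trans (blk_mem hcov).2)
    refine ⟨x, ?_, ?_⟩
    · rw [mem_sdiff, mem_union, not_or]
      refine ⟨?_, fun h => disjoint_left.1 hTA hxT.1 h, hxT.2⟩
      rw [hblk]
      exact (blk_mem hcov).2 (mem_union_right _ hxT.1)
    · have h2 : T = (T \ p) ∪ p := (sdiff_union_of_subset hpT).symm
      rw [h2, hx, insert_eq]
  · rintro ⟨x, hx, rfl⟩
    rw [mem_sdiff, mem_union, not_or] at hx
    obtain ⟨hxb, hxA, hxp⟩ := hx
    refine ⟨?_, subset_insert _ _⟩
    unfold lineT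
    rw [mem_filter]
    refine ⟨mem_univ _, by rw [card_insert_of_notMem hxp, hp], ?_, ?_⟩
    · rw [disjoint_insert_left]
      exact ⟨hxA, hpA⟩
    · refine ⟨blk B (A ∪ p), (blk_mem hc).1, ?_⟩
      intro y hy
      rw [mem_union, mem_insert] at hy
      rcases hy with hy | rfl | hy
      · exact (blk_mem hc).2 (mem_union_left _ hy)
      · exact hxb
      · exact (blk_mem hc).2 (mem_union_right _ hy)

private theorem sum_one11 {r : ℕ} {S B : Finset (Finset V)} (hB : B ∈ Fam r S) {A p : Finset V}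
    (hA : A.card + 3 = r) (hp : p.card = 2) (hpA : Disjoint p A) (hc : Cov B (A ∪ p)) :
    ∑ T ∈ (lineT A B).filter (fun T => p ⊆ T), wt r A B T = 1 := by
  have hpack := (mem_fam.1 hB).1
  have hcardAp : (A ∪ p).card + 1 = r := by
    rw [card_union_of_disjoint hpA.symm, hp]; omega
  rw [line_filter11 hB hA hp hpA hc, sum_image]
  · have h1 : ∀ x ∈ blk B (A ∪ p) \ (A ∪ p), wt r A B (insert x p) =
        1 / (((blk B (A ∪ p)).card : ℝ) + 1 - r) := by
      intro x hx
      rw [mem_sdiff, mem_union, not_or] at hx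
      obtain ⟨hxb, hxA, hxp⟩ := hx
      have h2 : blk B (A ∪ insert x p) = blk B (A ∪ p) := by
        refine blk_eq hpack (blk_mem hc).1 ?_ ?_
        · have h3 : (A ∪ p).card ≤ (A ∪ insert x p).card :=
            card_le_card (union_subset_union_right (subset_insert _ _))
          omega
        · intro y hy
          rw [mem_union, mem_insert] at hy
          rcases hy with hy | rfl | hy
          · exact (blk_mem hc).2 (mem_union_left _ hy)
          · exact hxb
          · exact (blk_mem hc).2 (mem_union_right _ hy)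
      unfold wt
      rw [h2]
    rw [sum_congr rfl h1, sum_const, nsmul_eq_mul, card_sdiff_of_subset (blk_mem hc).2]
    have h4 := hpack.1 _ (blk_mem hc).1
    have h5 : (r : ℝ) ≤ ((blk B (A ∪ p)).card : ℝ) := by exact_mod_cast h4
    have h6 : ((((blk B (A ∪ p)).card - (A ∪ p).card : ℕ)) : ℝ) =
        ((blk B (A ∪ p)).card : ℝ) + 1 - r := by
      rw [Nat.cast_sub (by omega)]
      have h7 : (((A ∪ p).card : ℕ) : ℝ) + 1 = r := by exact_mod_cast hcardAp
      linarith
    rw [h6, mul_one_div_cancel]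
    have : (0 : ℝ) < ((blk B (A ∪ p)).card : ℝ) + 1 - r := by linarith
    exact this.ne'
  · intro x hx y hy hxy
    have hx := mem_coe.1 hx
    rw [mem_sdiff, mem_union, not_or] at hx
    have h1 : x ∈ insert y p := by
      have h2 : insert x p = insert y p := hxy
      rw [← h2]
      exact mem_insert_self _ _
    rcases mem_insert.1 h1 with h | h
    · exact h
    · exact absurd h hx.2.2

/-- A pair `p` outside `A` with `A ∪ p` covered by the block `β` is contained in exactly
`|β| + 1 - r` triples of `lineT A B` (all of them in `β`), which have weight `1 / (|β| + 1 - r)`; an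
uncovered pair is in none.  So `∑_T w T ∑_{p ⊆ T} g p = ∑_{p covered} g p` for every `g`. -/
theorem sum_wt {r : ℕ} {S B : Finset (Finset V)} (hB : B ∈ Fam r S) {A : Finset V}
    (hA : A.card + 3 = r) (g : Finset V → ℝ) :
    ∑ T ∈ lineT A B, wt r A B T * ∑ p ∈ T.powersetCard 2, g p =
      ∑ p ∈ ((univ \ A).powersetCard 2).filter (fun p => Cov B (A ∪ p)), g p := by
  have h1 : ∀ T ∈ lineT A B, wt r A B T * ∑ p ∈ T.powersetCard 2, g p =
      ∑ p ∈ T.powersetCard 2, wt r A B T * g p := fun T _ => mul_sum _ _ _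
  rw [sum_congr rfl h1, sum_comm' (t' := ((univ \ A).powersetCard 2).filter (fun p => Cov B (A ∪ p)))
    (s' := fun p => (lineT A B).filter (fun T => p ⊆ T))]
  · refine sum_congr rfl fun p hp => ?_
    rw [mem_filter, mem_powersetCard] at hp
    obtain ⟨⟨hpA, hp2⟩, hc⟩ := hp
    have hd : Disjoint p A := by
      rw [disjoint_left]
      intro x hx hxA
      exact (mem_sdiff.1 (hpA hx)).2 hxA
    rw [← sum_mul, sum_one11 hB hA hp2 hd hc, one_mul]
  · intro T p
    rw [mem_filter, mem_filter, mem_powersetCard, mem_powersetCard]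
    constructor
    · rintro ⟨hT, hpT, hp2⟩
      refine ⟨⟨hT, hpT⟩, ⟨?_, hp2⟩, ?_⟩
      · intro x hx
        unfold lineT at hT
        rw [mem_filter] at hT
        exact mem_sdiff.2 ⟨mem_univ _, fun hxA => disjoint_left.1 hT.2.2.1 (hpT hx) hxA⟩
      · unfold lineT at hT
        rw [mem_filter] at hT
        obtain ⟨b, hb, hbT⟩ := hT.2.2.2
        exact ⟨b, hb, (union_subset_union_right hpT).trans hbT⟩
    · rintro ⟨⟨hT, hpT⟩, ⟨_, hp2⟩, _⟩
      exact ⟨hT, hpT, hp2⟩

end Pool.Agent.Helper41.R7
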