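/-
MP_e8bc6f_co, project R7, block R7-AVG2 (Jensen over the triples on lines).
-/
import Pool.Agent.Helper41.R7.AVG1

set_option autoImplicit false

namespace Pool.Agent.Helper41.R7

open Finset

variable {V : Type*} [Fintype V] [DecidableEq V]

/-- Jensen.  With `g p = log zeta` and `g = 1` in `sum_wt`: `∑_p log zeta = ∑_T w T log (FT T)` (for
uncovered `p` the logarithm is `0`) and `W = ∑_T w T = (number of covered pairs) / 3 ≤ n^2 / 6`.  By
concavity of the logarithm in the form `log x ≤ log y + x / y - 1` with `y = 6 Z' / n^2` the sum is at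
most `W (log y - 1) + n^2 / 6 ≤ n^2 / 6 log y` since `log y ≥ log 6 ≥ 1`. -/
theorem log_sum_le {r : ℕ} {S B : Finset (Finset V)} (hB : B ∈ Fam r S) {A : Finset V}
    (hA : A.card + 3 = r) {a : V} (ha : a ∈ A) (Z' : ℝ)
    (h1 : ∑ T ∈ lineT A B, wt r A B T * FT r S A a B T ≤ Z')
    (h2 : (Fintype.card V : ℝ) ^ 2 ≤ Z') :
    ∑ p ∈ (univ \ A).powersetCard 2, Real.log (zeta r S a B (A ∪ p)) ≤
      (Fintype.card V : ℝ) ^ 2 / 6 * Real.log (6 * Z' / (Fintype.card V : ℝ) ^ 2) := by
  have hn : 0 < Fintype.card V := Fintype.card_pos_iff.2 ⟨a⟩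
  have hn' : (0 : ℝ) < (Fintype.card V : ℝ) ^ 2 := by positivity
  obtain ⟨y, hy⟩ : ∃ y : ℝ, y = 6 * Z' / (Fintype.card V : ℝ) ^ 2 := ⟨_, rfl⟩
  have hy6 : 6 ≤ y := by
    rw [hy, le_div_iff₀ hn']
    linarith
  have hy0 : 0 < y := by linarith
  have hlogy : 1 ≤ Real.log y := by
    rw [Real.le_log_iff_exp_le hy0]
    have := Real.exp_one_lt_d9
    linarith
  rw [← hy]
  -- zeta of the pairs
  have hz : ∀ p : Finset V, p.card = 2 → Disjoint p A → 1 ≤ zeta r S a B (A ∪ p) := by
    intro p hp hd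
    apply one_le_zeta hB _ (mem_union_left _ ha)
    rw [card_union_of_disjoint hd.symm, hp]
    omega
  -- first identity
  have e1 : ∑ p ∈ (univ \ A).powersetCard 2, Real.log (zeta r S a B (A ∪ p)) =
      ∑ p ∈ ((univ \ A).powersetCard 2).filter (fun p => Cov B (A ∪ p)),
        Real.log (zeta r S a B (A ∪ p)) := by
    rw [sum_filter]
    apply sum_congr rfl
    intro p _
    split_ifs with h
    · rfl
    · unfold zeta
      rw [if_neg h]
      simp
  have e2 := sum_wt hB hA (fun p => Real.log (zeta r S a B (A ∪ p)))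
  have e3 : ∀ T ∈ lineT A B, ∑ p ∈ T.powersetCard 2, Real.log (zeta r S a B (A ∪ p)) =
      Real.log (FT r S A a B T) ∧ 0 < FT r S A a B T := by
    intro T hT
    unfold lineT at hT
    rw [mem_filter] at hT
    obtain ⟨_, hT3, hTA, _⟩ := hT
    have h3 : ∀ p ∈ T.powersetCard 2, (0 : ℝ) < (zeta r S a B (A ∪ p) : ℝ) := by
      intro p hp
      rw [mem_powersetCard] at hp
      have := hz p hp.2 (hTA.mono_left hp.1)
      exact_mod_cast this
    constructor
    · unfold FT
      rw [Real.log_prod fun p hp => (h3 p hp).ne']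
    · unfold FT
      exact prod_pos h3
  have e4 : ∑ p ∈ (univ \ A).powersetCard 2, Real.log (zeta r S a B (A ∪ p)) =
      ∑ T ∈ lineT A B, wt r A B T * Real.log (FT r S A a B T) := by
    rw [e1, ← e2]
    apply sum_congr rfl
    intro T hT
    rw [(e3 T hT).1]
  -- the total weight
  have hW : ∑ T ∈ lineT A B, wt r A B T ≤ (Fintype.card V : ℝ) ^ 2 / 6 := by
    have f1 := sum_wt hB hA (fun _ => (1 : ℝ))
    have f2 : ∑ T ∈ lineT A B, wt r A B T * ∑ _p ∈ T.powersetCard 2, (1 : ℝ) =
        3 * ∑ T ∈ lineT A B, wt r A B T := by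
      rw [mul_sum]
      apply sum_congr rfl
      intro T hT
      unfold lineT at hT
      rw [mem_filter] at hT
      rw [sum_const, card_powersetCard, hT.2.1]
      have : Nat.choose 3 2 = 3 := by decide
      rw [this]
      simp
      ring
    rw [f2, sum_const, nsmul_eq_mul, mul_one] at f1
    have f3 : (((univ \ A).powersetCard 2).filter (fun p => Cov B (A ∪ p))).card ≤
        (Fintype.card V).choose 2 := by
      refine (card_filter_le _ _).trans ?_
      rw [card_powersetCard]
      exact Nat.choose_le_choose 2 (card_le_univ _)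
    have f4 : ((Fintype.card V).choose 2 : ℝ) ≤ (Fintype.card V : ℝ) ^ 2 / 2 := by
      rw [Nat.cast_choose_two]
      have : (0 : ℝ) < (Fintype.card V : ℝ) := by exact_mod_cast hn
      nlinarith
    have f5 : ((((univ \ A).powersetCard 2).filter (fun p => Cov B (A ∪ p))).card : ℝ) ≤
        ((Fintype.card V).choose 2 : ℝ) := by exact_mod_cast f3
    linarith
  rw [e4]
  have hj : ∀ T ∈ lineT A B, wt r A B T * Real.log (FT r S A a B T) ≤
      wt r A B T * (Real.log y - 1) + (wt r A B T * FT r S A a B T) / y := by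
    intro T hT
    have g1 := (e3 T hT).2
    have g2 : Real.log (FT r S A a B T) ≤ Real.log y + (FT r S A a B T / y - 1) := by
      have := Real.log_le_sub_one_of_pos (div_pos g1 hy0)
      rw [Real.log_div g1.ne' hy0.ne'] at this
      linarith
    have g3 := mul_le_mul_of_nonneg_left g2 (wt_nonneg hB hT).1
    calc _ ≤ _ := g3
      _ = _ := by ring
  have hs := sum_le_sum hj
  rw [sum_add_distrib, ← sum_mul, ← sum_div] at hs
  have h3 : (∑ T ∈ lineT A B, wt r A B T * FT r S A a B T) / y ≤ (Fintype.card V : ℝ) ^ 2 / 6 := by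
    rw [div_le_iff₀ hy0, hy]
    have : (Fintype.card V : ℝ) ^ 2 / 6 * (6 * Z' / (Fintype.card V : ℝ) ^ 2) = Z' := by
      field_simp
    rw [this]
    exact h1
  have h4 : (∑ T ∈ lineT A B, wt r A B T) * (Real.log y - 1) ≤
      (Fintype.card V : ℝ) ^ 2 / 6 * (Real.log y - 1) :=
    mul_le_mul_of_nonneg_right hW (by linarith)
  linarith

end Pool.Agent.Helper41.R7
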