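/-
MP_e8bc6f_co, project R7, block R7-IND (weighted independent sets in a sparse conflict graph).
-/
import Mathlib

set_option autoImplicit false

namespace Pool.Agent.Helper41.R7

open Finset

/-- one step -/
private theorem indep_step {ι : Type*} [DecidableEq ι] (E : Finset ι) (R : ι → ι → Prop)
    [DecidableRel R] (hsymm : ∀ i j, R i j → R j i) (hrefl : ∀ i ∈ E, R i i)
    (f : ι → ℝ) (hf : ∀ i ∈ E, 0 ≤ f i) (z : ℝ)
    (hz : ∀ i ∈ E, ∑ j ∈ E.filter (fun j => R i j), f j ≤ z) (k : ℕ) :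
    (∑ i ∈ E, f i - k * z) *
      ∑ T ∈ (E.powersetCard k).filter (fun T => ∀ i ∈ T, ∀ j ∈ T, i ≠ j → ¬ R i j),
        ∏ i ∈ T, f i ≤ (k + 1) *
      ∑ T ∈ (E.powersetCard (k + 1)).filter (fun T => ∀ i ∈ T, ∀ j ∈ T, i ≠ j → ¬ R i j),
        ∏ i ∈ T, f i := by
  have h1 : (k + 1 : ℝ) *
      ∑ T ∈ (E.powersetCard (k + 1)).filter (fun T => ∀ i ∈ T, ∀ j ∈ T, i ≠ j → ¬ R i j),
        ∏ i ∈ T, f i =
      ∑ T ∈ (E.powersetCard (k + 1)).filter (fun T => ∀ i ∈ T, ∀ j ∈ T, i ≠ j → ¬ R i j),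
        ∑ _i ∈ T, ∏ i ∈ T, f i := by
    rw [mul_sum]
    apply sum_congr rfl
    intro T hT
    rw [mem_filter, mem_powersetCard] at hT
    rw [sum_const, hT.1.2, nsmul_eq_mul]
    push_cast
    ring
  have h2 : ∑ T ∈ (E.powersetCard (k + 1)).filter (fun T => ∀ i ∈ T, ∀ j ∈ T, i ≠ j → ¬ R i j),
        ∑ _i ∈ T, ∏ i ∈ T, f i =
      ∑ T ∈ (E.powersetCard k).filter (fun T => ∀ i ∈ T, ∀ j ∈ T, i ≠ j → ¬ R i j),
        ∑ i ∈ E.filter (fun i => ∀ j ∈ T, ¬ R i j), f i * ∏ i ∈ T, f i := by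
    rw [sum_sigma', sum_sigma']
    refine sum_bij' (fun p _ => ⟨p.1.erase p.2, p.2⟩) (fun p _ => ⟨insert p.2 p.1, p.2⟩)
      ?_ ?_ ?_ ?_ ?_
    · rintro ⟨T, i⟩ hp
      rw [mem_sigma, mem_filter, mem_powersetCard] at hp
      obtain ⟨⟨⟨hT1, hT2⟩, hT3⟩, hi⟩ := hp
      simp only at hT1 hT2 hT3 hi
      rw [mem_sigma, mem_filter, mem_powersetCard, mem_filter]
      refine ⟨⟨⟨(erase_subset _ _).trans hT1, ?_⟩, ?_⟩, hT1 hi, ?_⟩
      · simp only
        rw [card_erase_of_mem hi, hT2, Nat.add_sub_cancel]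
      · intro a ha b hb hab
        exact hT3 a (mem_of_mem_erase ha) b (mem_of_mem_erase hb) hab
      · intro j hj
        exact hT3 i hi j (mem_of_mem_erase hj) (ne_of_mem_erase hj).symm
    · rintro ⟨T, i⟩ hp
      rw [mem_sigma, mem_filter, mem_powersetCard, mem_filter] at hp
      obtain ⟨⟨⟨hT1, hT2⟩, hT3⟩, hi, hi2⟩ := hp
      simp only at hT1 hT2 hT3 hi hi2
      have hiT : i ∉ T := fun h => hi2 i h (hrefl i hi)
      rw [mem_sigma, mem_filter, mem_powersetCard]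
      refine ⟨⟨⟨insert_subset hi hT1, ?_⟩, ?_⟩, mem_insert_self _ _⟩
      · simp only
        rw [card_insert_of_notMem hiT, hT2]
      · intro a ha b hb hab
        simp only [mem_insert] at ha hb
        rcases ha with rfl | ha
        · rcases hb with rfl | hb
          · exact absurd rfl hab
          · exact hi2 b hb
        · rcases hb with rfl | hb
          · exact fun h => hi2 a ha (hsymm _ _ h)
          · exact hT3 a ha b hb hab
    · rintro ⟨T, i⟩ hp
      rw [mem_sigma] at hp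
      simp only
      rw [insert_erase hp.2]
    · rintro ⟨T, i⟩ hp
      rw [mem_sigma, mem_filter, mem_powersetCard, mem_filter] at hp
      obtain ⟨⟨⟨hT1, hT2⟩, hT3⟩, hi, hi2⟩ := hp
      simp only at hT1 hT2 hT3 hi hi2
      have hiT : i ∉ T := fun h => hi2 i h (hrefl i hi)
      simp only
      rw [erase_insert hiT]
    · rintro ⟨T, i⟩ hp
      rw [mem_sigma] at hp
      simp only
      rw [mul_prod_erase T f hp.2]
  rw [h1, h2, mul_sum]
  apply sum_le_sum
  intro T hT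
  rw [mem_filter, mem_powersetCard] at hT
  obtain ⟨⟨hT1, hT2⟩, hT3⟩ := hT
  rw [← sum_mul]
  apply mul_le_mul_of_nonneg_right _ (prod_nonneg fun i hi => hf i (hT1 hi))
  have h3 : ∑ i ∈ E.filter (fun i => ¬ ∀ j ∈ T, ¬ R i j), f i ≤ k * z := by
    calc ∑ i ∈ E.filter (fun i => ¬ ∀ j ∈ T, ¬ R i j), f i
        ≤ ∑ i ∈ E.filter (fun i => ¬ ∀ j ∈ T, ¬ R i j), ∑ j ∈ T.filter (fun j => R j i), f i := by
          apply sum_le_sum
          intro i hi
          rw [mem_filter] at hi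
          obtain ⟨hi1, hi2⟩ := hi
          push Not at hi2
          obtain ⟨j, hj, hij⟩ := hi2
          exact single_le_sum (f := fun _ => f i) (fun _ _ => hf i hi1)
            (mem_filter.2 ⟨hj, hsymm _ _ hij⟩)
      _ ≤ ∑ i ∈ E, ∑ j ∈ T.filter (fun j => R j i), f i :=
          sum_le_sum_of_subset_of_nonneg (filter_subset _ _)
            fun i hi _ => sum_nonneg fun _ _ => hf i hi
      _ = ∑ j ∈ T, ∑ i ∈ E.filter (fun i => R j i), f i := by
          simp only [sum_filter]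
          rw [sum_comm]
      _ ≤ ∑ j ∈ T, z := sum_le_sum fun j hj => hz j (hT1 hj)
      _ = k * z := by rw [sum_const, hT2, nsmul_eq_mul]
  have h4 := sum_filter_add_sum_filter_not E (fun i => ∀ j ∈ T, ¬ R i j) f
  linarith

/-- Let `e k` be the weighted number of conflict free `k`-subsets of `E`.  Then
`(k + 1) e (k+1) = ∑_{𝒯, |𝒯| = k} ∏_{𝒯} f * ∑_{i conflicting with no member of 𝒯} f i
≥ (Z - k z) e k` (a member of `𝒯` conflicts with elements of total weight at most `z`, itself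
included).  So `k! e k ≥ ∏_{j<k} (Z - j z) ≥ (Z - k z)^k`. -/
theorem indep_sum {ι : Type*} [DecidableEq ι] (E : Finset ι) (R : ι → ι → Prop)
    [DecidableRel R] (hsymm : ∀ i j, R i j → R j i) (hrefl : ∀ i ∈ E, R i i)
    (f : ι → ℝ) (hf : ∀ i ∈ E, 0 ≤ f i) (z : ℝ) (hz0 : 0 ≤ z)
    (hz : ∀ i ∈ E, ∑ j ∈ E.filter (fun j => R i j), f j ≤ z) (k : ℕ)
    (hk : k * z ≤ ∑ i ∈ E, f i) :
    (∑ i ∈ E, f i - k * z) ^ k ≤ k.factorial *
      ∑ T ∈ (E.powersetCard k).filter (fun T => ∀ i ∈ T, ∀ j ∈ T, i ≠ j → ¬ R i j),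
        ∏ i ∈ T, f i := by
  have key : ∀ m : ℕ, m ≤ k → (∑ i ∈ E, f i - k * z) ^ m ≤ m.factorial *
      ∑ T ∈ (E.powersetCard m).filter (fun T => ∀ i ∈ T, ∀ j ∈ T, i ≠ j → ¬ R i j),
        ∏ i ∈ T, f i := by
    intro m
    induction m with
    | zero =>
      intro _
      have e1 : (E.powersetCard 0).filter (fun T => ∀ i ∈ T, ∀ j ∈ T, i ≠ j → ¬ R i j) = {∅} := by
        rw [powersetCard_zero]
        ext T
        simp only [mem_filter, mem_singleton]
        constructor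
        · exact fun h => h.1
        · rintro rfl
          exact ⟨rfl, by simp⟩
      rw [e1]
      simp
    | succ m ih =>
      intro hm
      have h1 := ih (by omega)
      have h2 := indep_step E R hsymm hrefl f hf z hz m
      have h3 : (m : ℝ) * z ≤ k * z := mul_le_mul_of_nonneg_right (by exact_mod_cast (by omega : m ≤ k)) hz0
      have h4 : 0 ≤ ∑ i ∈ E, f i - k * z := by linarith
      have h5 : 0 ≤ ∑ T ∈ (E.powersetCard m).filter (fun T => ∀ i ∈ T, ∀ j ∈ T, i ≠ j → ¬ R i j),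
          ∏ i ∈ T, f i := by
        apply sum_nonneg
        intro T hT
        rw [mem_filter, mem_powersetCard] at hT
        exact prod_nonneg fun i hi => hf i (hT.1.1 hi)
      calc (∑ i ∈ E, f i - k * z) ^ (m + 1) =
          (∑ i ∈ E, f i - k * z) * (∑ i ∈ E, f i - k * z) ^ m := by rw [pow_succ, mul_comm]
        _ ≤ (∑ i ∈ E, f i - k * z) * (m.factorial *
          ∑ T ∈ (E.powersetCard m).filter (fun T => ∀ i ∈ T, ∀ j ∈ T, i ≠ j → ¬ R i j),
            ∏ i ∈ T, f i) := mul_le_mul_of_nonneg_left h1 h4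
        _ = m.factorial * ((∑ i ∈ E, f i - k * z) *
          ∑ T ∈ (E.powersetCard m).filter (fun T => ∀ i ∈ T, ∀ j ∈ T, i ≠ j → ¬ R i j),
            ∏ i ∈ T, f i) := by ring
        _ ≤ m.factorial * ((∑ i ∈ E, f i - m * z) *
          ∑ T ∈ (E.powersetCard m).filter (fun T => ∀ i ∈ T, ∀ j ∈ T, i ≠ j → ¬ R i j),
            ∏ i ∈ T, f i) := by
            apply mul_le_mul_of_nonneg_left _ (by positivity)
            exact mul_le_mul_of_nonneg_right (by linarith) h5
        _ ≤ m.factorial * ((m + 1) *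
          ∑ T ∈ (E.powersetCard (m + 1)).filter (fun T => ∀ i ∈ T, ∀ j ∈ T, i ≠ j → ¬ R i j),
            ∏ i ∈ T, f i) := mul_le_mul_of_nonneg_left h2 (by positivity)
        _ = _ := by
            rw [Nat.factorial_succ]
            push_cast
            ring
  exact key k le_rfl

end Pool.Agent.Helper41.R7
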