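/-
MP_e8bc6f_co, project R7, block R7-INS1 (options after an insertion).
-/
import Pool.Agent.Helper41.R7.OPT

set_option autoImplicit false

namespace Pool.Agent.Helper41.R7

open Finset

variable {V : Type*} [Fintype V] [DecidableEq V]

/-- Inserting an option `b` for another set: the options for `t` lose at most `|b|` members.

Let `R' = ins a R b`, where `t ⊄ b`, and let `b'` be an option for `t` in `R` which is not an option
in `R'`.  `b'.erase a = b.erase a` is impossible (it gives `b' = b ⊇ t`).  So `b'.card = r` and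
`b'.erase a` is covered in `R'`, not in `R`, hence `b'.erase a ⊆ b`; or some `(r-1)`-set `u ⊆ b'`,
`a ∈ u`, is covered in `R'` and not in `R`, hence `u ⊆ b`.  As `t ⊄ b`, `b' ∩ b` is not contained in
`t` (it has at least `r - 1` points); by `opt_inter_le` there are at most `|b|` such `b'`. -/
theorem opt_ins {r : ℕ} {S R : Finset (Finset V)} (hR : R ∈ Fam r S) {a : V}
    {t t1 b : Finset V} (ht : t.card + 1 = r) (ha : a ∈ t) (ht1 : t1.card + 1 = r)
    (ha1 : a ∈ t1) (hb : b ∈ Opt r S a t1 R) (htb : ¬ t ⊆ b) (hu : ¬ Cov R t) :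
    (Opt r S a t R).card ≤ (Opt r S a t (ins a R b)).card + b.card ∧ ¬ Cov (ins a R b) t := by
  classical
  have hmem : ∀ c, c ∈ ins a R b ↔ c = b ∨ (c ≠ b.erase a ∧ c ∈ R) := by
    intro c
    unfold ins
    rw [mem_insert, mem_erase]
  have hab : a ∈ b := (mem_opt.1 hb).1 ha1
  have hcov : ∀ u : Finset V, Cov (ins a R b) u → ¬ Cov R u → u ⊆ b := by
    rintro u ⟨c, hc, huc⟩ hn
    rcases (hmem c).1 hc with rfl | ⟨_, hc⟩
    · exact huc
    · exact absurd ⟨c, hc, huc⟩ hn
  refine ⟨?_, fun h => htb (hcov t h hu)⟩
  have hsub : Opt r S a t R ⊆ Opt r S a t (ins a R b) ∪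
      (Opt r S a t R).filter (fun b' => ¬ b' ∩ b ⊆ t) := by
    intro b' hb'
    rw [mem_union, mem_filter]
    by_cases hbb : b' ∩ b ⊆ t
    · left
      have hb0 := hb'
      rw [mem_opt] at hb' ⊢
      obtain ⟨h1, h2, h3, h4⟩ := hb'
      have hab' : a ∈ b' := h1 ha
      refine ⟨h1, ?_, ?_, h4⟩
      · rcases h2 with h2 | ⟨h2, h2'⟩
        · left
          rw [hmem]
          right
          refine ⟨fun he => htb ?_, h2⟩
          have : b' = b := by rw [← insert_erase hab', he, insert_erase hab]
          rw [← this]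
          exact h1
        · right
          refine ⟨h2, fun hc => htb ?_⟩
          have h5 := hcov _ hc h2'
          refine h1.trans ?_
          rw [← insert_erase hab']
          exact insert_subset hab h5
      · intro u hub huc hau hc
        have h5 := hcov u hc (h3 u hub huc hau)
        have h6 : u ⊆ t := (subset_inter hub h5).trans hbb
        have h7 : u = t := eq_of_subset_of_card_le h6 (by omega)
        exact htb (h7 ▸ h5)
    · exact Or.inr ⟨hb', hbb⟩
  have h1 := card_le_card hsub
  have h2 := card_union_le (Opt r S a t (ins a R b))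
    ((Opt r S a t R).filter (fun b' => ¬ b' ∩ b ⊆ t))
  have h3 := opt_inter_le (S := S) (mem_fam.1 hR).1 ht ha b
  have h4 : (b \ t).card ≤ b.card := card_le_card sdiff_subset
  omega

end Pool.Agent.Helper41.R7
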