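/-
MP_e8bc6f_co, project R7, block R7-INS2 (count of insertions).
-/
import Pool.Agent.Helper41.R7.INS1

set_option autoImplicit false

namespace Pool.Agent.Helper41.R7

open Finset

variable {V : Type*} [Fintype V] [DecidableEq V]

/-- Options containing one of the other sets: at most one for each. -/
private theorem opt_split94 {r : ℕ} {S R : Finset (Finset V)} (hR : IsPack r R) {a : V}
    (t1 : Finset V) (ht1 : t1.card + 1 = r) (ha1 : a ∈ t1) (ts : Finset (Finset V))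
    (hts : ∀ t ∈ ts, t.card + 1 = r) (hne : t1 ∉ ts) :
    (Opt r S a t1 R).card ≤ ((Opt r S a t1 R).filter (fun b => ∀ t ∈ ts, ¬ t ⊆ b)).card + ts.card := by
  classical
  have h1 : ((Opt r S a t1 R).filter (fun b => ¬ ∀ t ∈ ts, ¬ t ⊆ b)).card ≤ ts.card := by
    have hex : ∀ b ∈ (Opt r S a t1 R).filter (fun b => ¬ ∀ t ∈ ts, ¬ t ⊆ b),
        ∃ t, t ∈ ts ∧ t ⊆ b := by
      intro b hb
      have hb2 := (mem_filter.1 hb).2
      push Not at hb2
      exact hb2
    choose! f hf using hex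
    refine card_le_card_of_injOn f (fun b hb => (hf b hb).1) ?_
    intro b hb b' hb' h
    have h1 := hf b hb
    have h2 := hf b' hb'
    have hnot : ¬ f b ⊆ t1 := by
      intro hsub
      have h3 := eq_of_subset_of_card_le hsub (by have := hts _ h1.1; omega)
      exact hne (h3 ▸ h1.1)
    rw [not_subset] at hnot
    obtain ⟨z, hz, hzt⟩ := hnot
    exact opt_uniq hR ht1 ha1 (mem_filter.1 (mem_coe.1 hb)).1 (mem_filter.1 (mem_coe.1 hb')).1
      (h1.2 hz) (h2.2 (h ▸ hz)) hzt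
  have h2 := card_filter_add_card_filter_not (s := Opt r S a t1 R) (fun b => ∀ t ∈ ts, ¬ t ⊆ b)
  omega

/-- Induction on `ts` (all `r ≤ H + 1`).  For `ts = insert t1 ts'` and `R ∈ 𝒮` let `N'` be the number
of `b ∈ Opt t1 R` which contain no `t ∈ ts'`; each `t ∈ ts'` excludes at most one `b` (`opt_uniq` with
a point of `t \ t1`), so `max 1 (|Opt t1 R| - X) ≤ 1 + N'` as `|ts'| ≤ X`.  So the sum is at most
`∑_R ∏_{ts'} max 1 (|Opt t R| - X)`, which is at most `2^|ts'| |Fam|` by induction, plus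
`∑_R ∑_b ∏_{ts'} max 1 (|Opt t R| - X)`.  In the latter, for `R' = ins a R b`,
`|Opt t R| - X ≤ |Opt t R'| - (X - (H + 1))` by `opt_ins` and `ins_bdd`, the map
`(R, b) ↦ R'` is injective (`rem_ins`), and the induction hypothesis applies to the family of all
`R'` with `H + 1`, `X - (H + 1)`: `(|ts| - 1) (H + 1 + |ts| - 1 + 2) ≤ X - (H + 1)`. -/
theorem ins_sum {r : ℕ} {S : Finset (Finset V)} {a : V} (ts : Finset (Finset V))
    (hts : ∀ t ∈ ts, t.card + 1 = r ∧ a ∈ t) (H X : ℕ) (hr : r ≤ H + 1)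
    (hX : ts.card * (H + ts.card + 2) ≤ X) (𝒮 : Finset (Finset (Finset V)))
    (h𝒮 : ∀ R ∈ 𝒮, R ∈ Fam r S ∧ Bdd H R ∧ ∀ t ∈ ts, ¬ Cov R t) :
    ∑ R ∈ 𝒮, ∏ t ∈ ts, max 1 ((Opt r S a t R).card - X) ≤ 2 ^ ts.card * (Fam r S).card := by
  classical
  induction ts using Finset.induction_on generalizing H X 𝒮 with
  | empty =>
    simp only [prod_empty, sum_const, smul_eq_mul, mul_one, card_empty, pow_zero, one_mul]
    exact card_le_card fun R hR => (h𝒮 R hR).1
  | insert t1 ts hne ih =>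
    have ht1 := hts t1 (mem_insert_self _ _)
    have hts' : ∀ t ∈ ts, t.card + 1 = r ∧ a ∈ t := fun t ht => hts t (mem_insert_of_mem ht)
    rw [card_insert_of_notMem hne] at hX ⊢
    set k := ts.card with hk
    have hX1 : k * (H + k + 2) ≤ X := by nlinarith
    have hX2 : k * (H + 1 + k + 2) ≤ X - (H + 1) := by
      have : k * (H + 1 + k + 2) + (H + 1) ≤ X := by nlinarith
      omega
    have hkX : k ≤ X := by nlinarith
    have hHX : H + 1 ≤ X := by nlinarith
    -- the options which contain no other set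
    let O : Finset (Finset V) → Finset (Finset V) :=
      fun R => (Opt r S a t1 R).filter (fun b => ∀ t ∈ ts, ¬ t ⊆ b)
    have hO : ∀ R ∈ 𝒮, max 1 ((Opt r S a t1 R).card - X) ≤ 1 + (O R).card := by
      intro R hR
      have h1 := opt_split94 (S := S) (mem_fam.1 (h𝒮 R hR).1).1 t1 ht1.1 ht1.2 ts
        (fun t ht => (hts' t ht).1) hne
      have h2 : (Opt r S a t1 R).card ≤ (O R).card + k := h1
      omega
    have hstep : ∀ R ∈ 𝒮, ∀ b ∈ O R, ∀ t ∈ ts,
        (Opt r S a t R).card ≤ (Opt r S a t (ins a R b)).card + (H + 1) ∧ ¬ Cov (ins a R b) t := by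
      intro R hR b hb t ht
      obtain ⟨hb1, hb2⟩ := mem_filter.1 hb
      have h1 := opt_ins (h𝒮 R hR).1 (hts' t ht).1 (hts' t ht).2 ht1.1 ht1.2 hb1 (hb2 t ht)
        ((h𝒮 R hR).2.2 t (mem_insert_of_mem ht))
      have h2 := ins_bdd (h𝒮 R hR).2.1 hr ht1.1 ht1.2 hb1
      have h3 : b.card ≤ H + 1 := h2 b (mem_insert_self _ _)
      exact ⟨by omega, h1.2⟩
    let F : Finset (Finset V) → ℕ := fun R' => ∏ t ∈ ts, max 1 ((Opt r S a t R').card - (X - (H + 1)))
    have hmono : ∀ R ∈ 𝒮, ∀ b ∈ O R, ∏ t ∈ ts, max 1 ((Opt r S a t R).card - X) ≤ F (ins a R b) := by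
      intro R hR b hb
      refine prod_le_prod' fun t ht => ?_
      have h1 := (hstep R hR b hb t ht).1
      omega
    let 𝒮' : Finset (Finset (Finset V)) := (𝒮.sigma O).image fun x => ins a x.1 x.2
    have hinj : Set.InjOn (fun x : (_ : Finset (Finset V)) × Finset V => ins a x.1 x.2)
        (𝒮.sigma O : Finset ((_ : Finset (Finset V)) × Finset V)) := by
      rintro ⟨R, b⟩ hx ⟨R', b'⟩ hx' h
      rw [mem_coe, mem_sigma] at hx hx'
      simp only at hx hx' h
      have h1 := rem_ins (h𝒮 R hx.1).1 ht1.1 ht1.2 (mem_filter.1 hx.2).1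
      have h2 := rem_ins (h𝒮 R' hx'.1).1 ht1.1 ht1.2 (mem_filter.1 hx'.2).1
      rw [h] at h1
      have e1 : R = R' := h1.1.symm.trans h2.1
      have e2 : b = b' := h1.2.1.symm.trans h2.2.1
      subst e1
      subst e2
      rfl
    have ih1 := ih hts' H X hr hX1 𝒮 (fun R hR => ⟨(h𝒮 R hR).1, (h𝒮 R hR).2.1,
      fun t ht => (h𝒮 R hR).2.2 t (mem_insert_of_mem ht)⟩)
    have ih2 := ih hts' (H + 1) (X - (H + 1)) (by omega) hX2 𝒮' (by
      intro R' hR'
      obtain ⟨⟨R, b⟩, hx, rfl⟩ := mem_image.1 hR'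
      rw [mem_sigma] at hx
      simp only at hx ⊢
      have hb1 := (mem_filter.1 hx.2).1
      exact ⟨ins_mem (h𝒮 R hx.1).1 ht1.1 ht1.2 hb1, ins_bdd (h𝒮 R hx.1).2.1 hr ht1.1 ht1.2 hb1,
        fun t ht => (hstep R hx.1 b hx.2 t ht).2⟩)
    have e1 : ∑ R' ∈ 𝒮', F R' = ∑ R ∈ 𝒮, ∑ b ∈ O R, F (ins a R b) := by
      rw [sum_image hinj, sum_sigma]
    calc ∑ R ∈ 𝒮, ∏ t ∈ insert t1 ts, max 1 ((Opt r S a t R).card - X)
        ≤ ∑ R ∈ 𝒮, (∏ t ∈ ts, max 1 ((Opt r S a t R).card - X) + ∑ b ∈ O R, F (ins a R b)) := by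
          refine sum_le_sum fun R hR => ?_
          rw [prod_insert hne]
          calc max 1 ((Opt r S a t1 R).card - X) * ∏ t ∈ ts, max 1 ((Opt r S a t R).card - X)
              ≤ (1 + (O R).card) * ∏ t ∈ ts, max 1 ((Opt r S a t R).card - X) :=
                Nat.mul_le_mul_right _ (hO R hR)
            _ = ∏ t ∈ ts, max 1 ((Opt r S a t R).card - X) +
                ∑ b ∈ O R, ∏ t ∈ ts, max 1 ((Opt r S a t R).card - X) := by
                rw [sum_const, smul_eq_mul]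
                ring
            _ ≤ _ := Nat.add_le_add_left (sum_le_sum fun b hb => hmono R hR b hb) _
      _ = ∑ R ∈ 𝒮, ∏ t ∈ ts, max 1 ((Opt r S a t R).card - X) + ∑ R' ∈ 𝒮', F R' := by
          rw [sum_add_distrib, e1]
      _ ≤ 2 ^ k * (Fam r S).card + 2 ^ k * (Fam r S).card := Nat.add_le_add ih1 ih2
      _ = 2 ^ (k + 1) * (Fam r S).card := by ring

end Pool.Agent.Helper41.R7
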