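/-
MP_e8bc6f_co, project R7, block R7-OPEN1 (stripping blocks at an (r-3)-set).
-/
import Pool.Agent.Helper41.R7.OPT

set_option autoImplicit false

namespace Pool.Agent.Helper41.R7

open Finset

variable {V : Type*} [Fintype V] [DecidableEq V]

/-- Remove the point `a` from all the blocks in `𝒳`. -/
def strips (r : ℕ) (a : V) (𝒳 B : Finset (Finset V)) : Finset (Finset V) :=
  (B \ 𝒳) ∪ (𝒳.filter (fun b => r < b.card)).image (fun b => b.erase a)

/-- The blocks containing `A` and a member of `𝒯`. -/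
def hitb (A : Finset V) (𝒯 B : Finset (Finset V)) : Finset (Finset V) :=
  B.filter (fun b => ∃ T ∈ 𝒯, A ∪ T ⊆ b)

private theorem mem_strips {r : ℕ} {a : V} {𝒳 B : Finset (Finset V)} {c : Finset V} :
    c ∈ strips r a 𝒳 B ↔ (c ∈ B ∧ c ∉ 𝒳) ∨ ∃ b ∈ 𝒳, r < b.card ∧ b.erase a = c := by
  unfold strips
  rw [mem_union, mem_sdiff, mem_image]
  constructor
  · rintro (h | ⟨b, hb, rfl⟩)
    · exact Or.inl h
    · rw [mem_filter] at hb
      exact Or.inr ⟨b, hb.1, hb.2, rfl⟩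
  · rintro (h | ⟨b, hb, hr, rfl⟩)
    · exact Or.inl h
    · exact Or.inr ⟨b, mem_filter.2 ⟨hb, hr⟩, rfl⟩

private theorem mem_hitb {A : Finset V} {𝒯 B : Finset (Finset V)} {b : Finset V} :
    b ∈ hitb A 𝒯 B ↔ b ∈ B ∧ ∃ T ∈ 𝒯, A ∪ T ⊆ b := by
  unfold hitb
  rw [mem_filter]

private theorem erase_card_gt {r : ℕ} {a : V} {b : Finset V} (h : r < b.card) :
    r ≤ (b.erase a).card := by
  have := pred_card_le_card_erase (s := b) (a := a)
  omega

theorem strips_mem {r : ℕ} {S B : Finset (Finset V)} (hB : B ∈ Fam r S) {a : V}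
    {𝒳 : Finset (Finset V)} (h : 𝒳 ⊆ B) (ha : ∀ b ∈ 𝒳, a ∈ b) :
    strips r a 𝒳 B ∈ Fam r S := by
  rw [mem_fam] at hB ⊢
  obtain ⟨⟨h1, h2⟩, h3⟩ := hB
  refine ⟨⟨?_, ?_⟩, ?_⟩
  · intro c hc
    rcases mem_strips.1 hc with ⟨hc, _⟩ | ⟨b, hb, hr, rfl⟩
    · exact h1 c hc
    · exact erase_card_gt hr
  · intro c hc d hd hcd
    rcases mem_strips.1 hc with ⟨hc1, hc2⟩ | ⟨b, hb, hr, rfl⟩
    · rcases mem_strips.1 hd with ⟨hd1, hd2⟩ | ⟨b', hb', hr', rfl⟩
      · exact h2 c hc1 d hd1 hcd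
      · have hne : c ≠ b' := fun h' => hc2 (h' ▸ hb')
        have h4 := h2 c hc1 b' (h hb') hne
        have h5 : c ∩ b'.erase a ⊆ c ∩ b' := inter_subset_inter_left (erase_subset _ _)
        have h6 := card_le_card h5
        omega
    · rcases mem_strips.1 hd with ⟨hd1, hd2⟩ | ⟨b', hb', hr', rfl⟩
      · have hne : b ≠ d := fun h' => hd2 (h' ▸ hb)
        have h4 := h2 b (h hb) d hd1 hne
        have h5 : b.erase a ∩ d ⊆ b ∩ d := inter_subset_inter_right (erase_subset _ _)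
        have h6 := card_le_card h5
        omega
      · have hne : b ≠ b' := fun h' => hcd (h' ▸ rfl)
        have h4 := h2 b (h hb) b' (h hb') hne
        have h5 : b.erase a ∩ b'.erase a ⊆ b ∩ b' :=
          inter_subset_inter (erase_subset _ _) (erase_subset _ _)
        have h6 := card_le_card h5
        omega
  · intro e he c hc hec
    rcases mem_strips.1 hc with ⟨hc, _⟩ | ⟨b, hb, hr, rfl⟩
    · exact h3 e he c hc hec
    · exact h3 e he b (h hb) (hec.trans (erase_subset _ _))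

theorem strips_bdd {r H : ℕ} {B : Finset (Finset V)} (hB : Bdd H B) {a : V}
    {𝒳 : Finset (Finset V)} (h : 𝒳 ⊆ B) : Bdd H (strips r a 𝒳 B) := by
  intro c hc
  rcases mem_strips.1 hc with ⟨hc, _⟩ | ⟨b, hb, hr, rfl⟩
  · exact hB c hc
  · exact (card_le_card (erase_subset _ _)).trans (hB b (h hb))

private theorem trips_mem {A : Finset V} {B : Finset (Finset V)} {K : ℕ} {𝒯 : Finset (Finset V)}
    (h𝒯 : 𝒯 ∈ trips A B K) {T : Finset V} (hT : T ∈ 𝒯) :
    T.card = 3 ∧ Disjoint T A ∧ Cov B (A ∪ T) := by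
  classical
  unfold trips at h𝒯
  rw [mem_filter, mem_powersetCard] at h𝒯
  have := h𝒯.1.1 hT
  unfold lineT at this
  rw [mem_filter] at this
  exact this.2

/-- The sets `A ∪ p`, `p ⊆ T ∈ 𝒯`, are not covered after stripping. -/
theorem strips_unc {r : ℕ} {S B : Finset (Finset V)} (hB : B ∈ Fam r S) {A : Finset V}
    (hA : A.card + 3 = r) {a : V} (ha : a ∈ A) {K : ℕ} {𝒯 : Finset (Finset V)}
    (h𝒯 : 𝒯 ∈ trips A B K) {T : Finset V} (hT : T ∈ 𝒯) {p : Finset V} (hp : p ⊆ T)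
    (hp2 : p.card = 2) : ¬ Cov (strips r a (hitb A 𝒯 B) B) (A ∪ p) := by
  obtain ⟨hT3, hTA, β, hβ, hATβ⟩ := trips_mem h𝒯 hT
  have hP := (mem_fam.1 hB).1
  have hcard : (A ∪ p).card + 1 = r := by
    rw [card_union_of_disjoint (disjoint_of_subset_left hp hTA).symm]
    omega
  rintro ⟨c, hc, hsub⟩
  rcases mem_strips.1 hc with ⟨hc1, hc2⟩ | ⟨b, hb, hr, rfl⟩
  · have h1 : A ∪ p ⊆ β := (union_subset_union_right hp).trans hATβ
    have h2 : c = β := pack_uniq hP hc1 hβ (by omega) hsub h1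
    exact hc2 (mem_hitb.2 ⟨hc1, T, hT, h2 ▸ hATβ⟩)
  · have := hsub (mem_union_left p ha)
    simp at this

private noncomputable def rblk (A : Finset V) (a : V) (R : Finset (Finset V)) (T : Finset V) :
    Finset V :=
  if Cov R (A.erase a ∪ T) then insert a (blk R (A.erase a ∪ T)) else A ∪ T

private noncomputable def recov (r : ℕ) (A : Finset V) (a : V) (𝒯 R : Finset (Finset V)) :
    Finset (Finset V) :=
  (R \ ((𝒯.image (rblk A a R)).filter (fun b => r < b.card)).image (fun b => b.erase a)) ∪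
    𝒯.image (rblk A a R)

private theorem rblk_eq {r : ℕ} {S B : Finset (Finset V)} (hB : B ∈ Fam r S) {A : Finset V}
    (hA : A.card + 3 = r) {a : V} (ha : a ∈ A) {K : ℕ} {𝒯 : Finset (Finset V)}
    (h𝒯 : 𝒯 ∈ trips A B K) {T : Finset V} (hT : T ∈ 𝒯) {β : Finset V} (hβ : β ∈ B)
    (hATβ : A ∪ T ⊆ β) : rblk A a (strips r a (hitb A 𝒯 B) B) T = β := by
  obtain ⟨hT3, hTA, -⟩ := trips_mem h𝒯 hT
  have hP := (mem_fam.1 hB).1
  have hSP := (mem_fam.1 (strips_mem hB (a := a) (𝒳 := hitb A 𝒯 B) (filter_subset _ _)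
    (fun b hb => by
      obtain ⟨_, T', _, h⟩ := mem_hitb.1 hb
      exact h (mem_union_left _ ha)))).1
  have haβ : a ∈ β := hATβ (mem_union_left _ ha)
  have haT : a ∉ T := fun h => (Finset.disjoint_left.1 hTA h) ha
  have hAe : (A.erase a).card + 1 = A.card := by
    rw [card_erase_of_mem ha]
    have : 0 < A.card := card_pos.2 ⟨a, ha⟩
    omega
  have hcard : (A.erase a ∪ T).card + 1 = r := by
    rw [card_union_of_disjoint (disjoint_of_subset_right (erase_subset _ _) hTA).symm]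
    omega
  have hsubβ : A.erase a ∪ T ⊆ β := (union_subset_union_left (erase_subset _ _)).trans hATβ
  have hsubβ' : A.erase a ∪ T ⊆ β.erase a := by
    apply subset_erase.2
    refine ⟨hsubβ, ?_⟩
    rw [mem_union]
    rintro (h | h)
    · simp at h
    · exact haT h
  have hβh : β ∈ hitb A 𝒯 B := mem_hitb.2 ⟨hβ, T, hT, hATβ⟩
  have hATc : (A ∪ T).card = r := by
    rw [card_union_of_disjoint hTA.symm]
    omega
  -- the cover
  have key : ∀ c ∈ strips r a (hitb A 𝒯 B) B, A.erase a ∪ T ⊆ c →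
      r < β.card ∧ β.erase a = c := by
    intro c hc hsub
    rcases mem_strips.1 hc with ⟨hc1, hc2⟩ | ⟨b, hb, hr, rfl⟩
    · have h2 : c = β := pack_uniq hP hc1 hβ (by omega) hsub hsubβ
      exact absurd (h2 ▸ hβh) hc2
    · have h2 : b = β := pack_uniq hP (mem_hitb.1 hb).1 hβ (by omega)
        (hsub.trans (erase_subset _ _)) hsubβ
      subst h2
      exact ⟨hr, rfl⟩
  unfold rblk
  by_cases hr : r < β.card
  · have hmem : β.erase a ∈ strips r a (hitb A 𝒯 B) B :=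
      mem_strips.2 (Or.inr ⟨β, hβh, hr, rfl⟩)
    have hcov : Cov (strips r a (hitb A 𝒯 B) B) (A.erase a ∪ T) := ⟨_, hmem, hsubβ'⟩
    rw [if_pos hcov, blk_eq hSP hmem (by omega) hsubβ', insert_erase haβ]
  · have hncov : ¬ Cov (strips r a (hitb A 𝒯 B) B) (A.erase a ∪ T) := by
      rintro ⟨c, hc, hsub⟩
      exact hr (key c hc hsub).1
    rw [if_neg hncov]
    exact eq_of_subset_of_card_le hATβ (by omega)

private theorem recov_eq {r : ℕ} {S B : Finset (Finset V)} (hB : B ∈ Fam r S) {A : Finset V}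
    (hA : A.card + 3 = r) {a : V} (ha : a ∈ A) {K : ℕ} {𝒯 : Finset (Finset V)}
    (h𝒯 : 𝒯 ∈ trips A B K) : recov r A a 𝒯 (strips r a (hitb A 𝒯 B) B) = B := by
  have hP := (mem_fam.1 hB).1
  have himg : 𝒯.image (rblk A a (strips r a (hitb A 𝒯 B) B)) = hitb A 𝒯 B := by
    ext β
    rw [mem_image, mem_hitb]
    constructor
    · rintro ⟨T, hT, rfl⟩
      obtain ⟨_, _, β, hβ, hATβ⟩ := trips_mem h𝒯 hT
      rw [rblk_eq hB hA ha h𝒯 hT hβ hATβ]
      exact ⟨hβ, T, hT, hATβ⟩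
    · rintro ⟨hβ, T, hT, hATβ⟩
      exact ⟨T, hT, rblk_eq hB hA ha h𝒯 hT hβ hATβ⟩
  unfold recov
  rw [himg]
  ext c
  rw [mem_union, mem_sdiff, mem_strips, mem_image]
  constructor
  · rintro (⟨h1 | ⟨b, hb, hr, rfl⟩, h2⟩ | h)
    · exact h1.1
    · exact absurd ⟨b, mem_filter.2 ⟨hb, hr⟩, rfl⟩ h2
    · exact (mem_hitb.1 h).1
  · intro hc
    by_cases hch : c ∈ hitb A 𝒯 B
    · exact Or.inr hch
    · left
      refine ⟨Or.inl ⟨hc, hch⟩, ?_⟩
      rintro ⟨b, hb, rfl⟩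
      obtain ⟨hb1, hb2⟩ := mem_filter.1 hb
      have hbB := (mem_hitb.1 hb1).1
      have h1 := hP.1 _ hc
      have h2 : b.erase a = b := pack_uniq hP hc hbB (t := b.erase a) (by omega)
        (Subset.refl _) (erase_subset _ _)
      exact hch (h2.symm ▸ hb1)

/-- Given `𝒯`, the packing `B` is determined by the stripped packing `R`: the block of `B`
containing `A ∪ T` is `insert a g` if `A.erase a ∪ T` (which has `r - 1` points) is contained in the
block `g` of `R`, and `A ∪ T` if it is not covered in `R`. -/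
theorem strips_inj {r : ℕ} {S B B' : Finset (Finset V)} (hB : B ∈ Fam r S) (hB' : B' ∈ Fam r S)
    {A : Finset V} (hA : A.card + 3 = r) {a : V} (ha : a ∈ A) {K : ℕ} {𝒯 : Finset (Finset V)}
    (h𝒯 : 𝒯 ∈ trips A B K) (h𝒯' : 𝒯 ∈ trips A B' K)
    (h : strips r a (hitb A 𝒯 B) B = strips r a (hitb A 𝒯 B') B') : B = B' := by
  rw [← recov_eq hB hA ha h𝒯, ← recov_eq hB' hA ha h𝒯', h]

/-- Options persist when more blocks are stripped: here `A ∪ p` is covered in `B` by the block `β`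
containing `A ∪ T`; `rem r a B (A ∪ p) = strips r a {β} B`; a set covered after stripping
`hitb A 𝒯 B` is covered after stripping `{β}` only, and blocks not containing `a` are not
changed. -/
theorem zeta_le_strips {r : ℕ} {S B : Finset (Finset V)} (hB : B ∈ Fam r S) {A : Finset V}
    (hA : A.card + 3 = r) {a : V} (ha : a ∈ A) {K : ℕ} {𝒯 : Finset (Finset V)}
    (h𝒯 : 𝒯 ∈ trips A B K) {T : Finset V} (hT : T ∈ 𝒯) {p : Finset V} (hp : p ⊆ T)
    (hp2 : p.card = 2) :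
    zeta r S a B (A ∪ p) ≤ (Opt r S a (A ∪ p) (strips r a (hitb A 𝒯 B) B)).card := by
  obtain ⟨hT3, hTA, β, hβ, hATβ⟩ := trips_mem h𝒯 hT
  have hP := (mem_fam.1 hB).1
  have hcard : (A ∪ p).card + 1 = r := by
    rw [card_union_of_disjoint (disjoint_of_subset_left hp hTA).symm]
    omega
  have hβh : β ∈ hitb A 𝒯 B := mem_hitb.2 ⟨hβ, T, hT, hATβ⟩
  have h1 : A ∪ p ⊆ β := (union_subset_union_right hp).trans hATβ
  have hcov : Cov B (A ∪ p) := ⟨β, hβ, h1⟩
  have hblk : blk B (A ∪ p) = β := blk_eq hP hβ (by omega) h1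
  have hrem : ∀ c, c ∈ rem r a B (A ∪ p) ↔ (c ≠ β ∧ c ∈ B) ∨ (r < β.card ∧ c = β.erase a) := by
    intro c
    unfold rem
    rw [if_pos hcov, hblk, mem_strip1]
  have hcc : ∀ u, Cov (strips r a (hitb A 𝒯 B) B) u → Cov (rem r a B (A ∪ p)) u := by
    rintro u ⟨c, hc, huc⟩
    rcases mem_strips.1 hc with ⟨hc1, hc2⟩ | ⟨b, hb, hr, rfl⟩
    · exact ⟨c, (hrem c).2 (Or.inl ⟨fun h => hc2 (h ▸ hβh), hc1⟩), huc⟩
    · by_cases hbβ : b = β
      · subst hbβ
        exact ⟨_, (hrem _).2 (Or.inr ⟨hr, rfl⟩), huc⟩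
      · exact ⟨b, (hrem b).2 (Or.inl ⟨hbβ, (mem_hitb.1 hb).1⟩), huc.trans (erase_subset _ _)⟩
  unfold zeta
  rw [if_pos hcov]
  apply card_le_card
  intro b hb
  rw [mem_opt] at hb ⊢
  obtain ⟨hb0, hb1, hb2, hb3⟩ := hb
  refine ⟨hb0, ?_, fun u hu hur hau h => hb2 u hu hur hau (hcc u h), hb3⟩
  rcases hb1 with h | ⟨h, h'⟩
  · left
    rcases (hrem _).1 h with ⟨h2, h3⟩ | ⟨h2, h3⟩
    · refine mem_strips.2 (Or.inl ⟨h3, fun h4 => ?_⟩)
      obtain ⟨_, T', _, h5⟩ := mem_hitb.1 h4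
      have := h5 (mem_union_left T' ha)
      simp at this
    · exact mem_strips.2 (Or.inr ⟨β, hβh, h2, h3.symm⟩)
  · right
    exact ⟨h, fun h2 => h' (hcc _ h2)⟩

end Pool.Agent.Helper41.R7
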