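/-
MP_e8bc6f_co, project R7, block R7-OPEN2 (opening moves at an (r-3)-set).
-/
import Pool.Agent.Helper41.R7.OPEN1
import Pool.Agent.Helper41.R7.INS2

set_option autoImplicit false

namespace Pool.Agent.Helper41.R7

open Finset

variable {V : Type*} [Fintype V] [DecidableEq V]

private theorem op_trips_mem {A : Finset V} {B : Finset (Finset V)} {K : ℕ}
    {𝒯 : Finset (Finset V)} (h : 𝒯 ∈ trips A B K) :
    𝒯.card = K ∧ (∀ T ∈ 𝒯, T.card = 3 ∧ Disjoint T A ∧ Cov B (A ∪ T)) ∧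
      ∀ T ∈ 𝒯, ∀ T' ∈ 𝒯, T ≠ T' → ¬ Cov B (A ∪ T ∪ T') := by
  unfold trips at h
  rw [mem_filter, mem_powersetCard] at h
  refine ⟨h.1.2, fun T hT => ?_, h.2⟩
  have h1 := h.1.1 hT
  unfold lineT at h1
  rw [mem_filter] at h1
  exact h1.2

private theorem op_inter {r : ℕ} {S B : Finset (Finset V)} (hB : B ∈ Fam r S) {A : Finset V}
    (hA : A.card + 3 = r) {K : ℕ} {𝒯 : Finset (Finset V)} (h𝒯 : 𝒯 ∈ trips A B K) {T T' : Finset V}
    (hT : T ∈ 𝒯) (hT' : T' ∈ 𝒯) (hne : T ≠ T') : (T ∩ T').card ≤ 1 := by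
  classical
  obtain ⟨-, h1, h2⟩ := op_trips_mem h𝒯
  obtain ⟨-, hd, b, hb, hbT⟩ := h1 T hT
  obtain ⟨-, hd', b', hb', hbT'⟩ := h1 T' hT'
  have hbb : b ≠ b' := by
    rintro rfl
    apply h2 T hT T' hT' hne
    refine ⟨b, hb, union_subset hbT (subset_union_right.trans hbT')⟩
  have hP : IsPack r B := by
    unfold Fam at hB
    exact (mem_filter.1 hB).2.1
  have h3 := hP.2 b hb b' hb' hbb
  have h4 : A ∪ (T ∩ T') ⊆ b ∩ b' := by
    refine union_subset (subset_inter (subset_union_left.trans hbT) (subset_union_left.trans hbT')) ?_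
    refine subset_inter ?_ ?_
    · exact inter_subset_left.trans (subset_union_right.trans hbT)
    · exact inter_subset_right.trans (subset_union_right.trans hbT')
  have h5 : (A ∪ (T ∩ T')).card = A.card + (T ∩ T').card := by
    refine card_union_of_disjoint ?_
    exact (hd.mono_left inter_subset_left).symm
  have h6 := card_le_card h4
  omega

private theorem op_bound (X m : ℕ) : m ≤ (X + 1) * max 1 (m - X) := by
  rcases le_or_gt m X with h | h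
  · rw [Nat.sub_eq_zero_of_le h]
    simp
    omega
  · have h1 : max 1 (m - X) = m - X := max_eq_right (by omega)
    rw [h1]
    obtain ⟨d, rfl⟩ : ∃ d, m = X + (d + 1) := ⟨m - X - 1, by omega⟩
    rw [Nat.add_sub_cancel_left]
    nlinarith

private theorem op_fixed {r : ℕ} {S : Finset (Finset V)} {A : Finset V}
    (hA : A.card + 3 = r) {a : V} (ha : a ∈ A) (K H : ℕ) (hH : r ≤ H + 1)
    (𝒯 : Finset (Finset V))
    (𝒟 : Finset (Finset (Finset V))) (h𝒟 : ∀ B ∈ 𝒟, B ∈ Fam r S ∧ Bdd H B ∧ 𝒯 ∈ trips A B K) :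
    ∑ B ∈ 𝒟, ∏ T ∈ 𝒯, ∏ p ∈ T.powersetCard 2, zeta r S a B (A ∪ p) ≤
      (2 * (3 * K * (H + 3 * K + 2) + 1)) ^ (3 * K) * (Fam r S).card := by
  classical
  rcases 𝒟.eq_empty_or_nonempty with rfl | ⟨B₀, hB₀⟩
  · simp
  set X := 3 * K * (H + 3 * K + 2) with hX
  obtain ⟨hB₀F, -, hB₀T⟩ := h𝒟 B₀ hB₀
  obtain ⟨hK, h1, -⟩ := op_trips_mem hB₀T
  set sg := 𝒯.sigma (fun T => T.powersetCard 2) with hsg
  have hinj : Set.InjOn (fun x : (_ : Finset V) × Finset V => A ∪ x.2) (sg : Set ((_ : Finset V) × Finset V)) := by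
    rintro ⟨T, p⟩ hx ⟨T', p'⟩ hx' hxx
    rw [mem_coe, hsg, mem_sigma, mem_powersetCard] at hx hx'
    have hd : Disjoint p A := (h1 T hx.1).2.1.mono_left hx.2.1
    have hd' : Disjoint p' A := (h1 T' hx'.1).2.1.mono_left hx'.2.1
    have hpp : p = p' := by
      have e1 : (A ∪ p) \ A = p := by
        rw [union_sdiff_left]
        exact sdiff_eq_self_of_disjoint hd
      have e2 : (A ∪ p') \ A = p' := by
        rw [union_sdiff_left]
        exact sdiff_eq_self_of_disjoint hd'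
      rw [← e1, ← e2]
      exact congrArg (fun s => s \ A) hxx
    subst hpp
    have hTT : T = T' := by
      by_contra hne
      have h2 := op_inter hB₀F hA hB₀T hx.1 hx'.1 hne
      have h3 := card_le_card (subset_inter hx.2.1 hx'.2.1)
      rw [hx.2.2] at h3
      omega
    subst hTT
    rfl
  set ts := sg.image (fun x : (_ : Finset V) × Finset V => A ∪ x.2) with hts
  have hcard : ts.card = 3 * K := by
    rw [hts, card_image_of_injOn hinj, hsg, card_sigma]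
    have h2 : ∀ T ∈ 𝒯, (T.powersetCard 2).card = 3 := by
      intro T hT
      rw [card_powersetCard, (h1 T hT).1]
      rfl
    rw [sum_congr rfl h2, sum_const, hK, smul_eq_mul, mul_comm]
  have hmem : ∀ t ∈ ts, ∃ T ∈ 𝒯, ∃ p, p ⊆ T ∧ p.card = 2 ∧ t = A ∪ p := by
    intro t ht
    rw [hts, mem_image] at ht
    obtain ⟨⟨T, p⟩, hx, rfl⟩ := ht
    rw [hsg, mem_sigma, mem_powersetCard] at hx
    exact ⟨T, hx.1, p, hx.2.1, hx.2.2, rfl⟩
  have hprod : ∀ g : Finset V → ℕ, ∏ T ∈ 𝒯, ∏ p ∈ T.powersetCard 2, g (A ∪ p) = ∏ t ∈ ts, g t := by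
    intro g
    rw [hts, prod_image hinj, hsg, prod_sigma]
  let R : Finset (Finset V) → Finset (Finset V) := fun B => strips r a (hitb A 𝒯 B) B
  have hsub : ∀ B : Finset (Finset V), hitb A 𝒯 B ⊆ B := fun B => filter_subset _ _
  have hahit : ∀ B : Finset (Finset V), ∀ b ∈ hitb A 𝒯 B, a ∈ b := by
    intro B b hb
    unfold hitb at hb
    obtain ⟨-, T, -, hTb⟩ := mem_filter.1 hb
    exact hTb (mem_union_left _ ha)
  have hstep : ∀ B ∈ 𝒟, ∏ T ∈ 𝒯, ∏ p ∈ T.powersetCard 2, zeta r S a B (A ∪ p) ≤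
      (X + 1) ^ (3 * K) * ∏ t ∈ ts, max 1 ((Opt r S a t (R B)).card - X) := by
    intro B hB
    obtain ⟨hBF, -, hBT⟩ := h𝒟 B hB
    have h2 : ∏ T ∈ 𝒯, ∏ p ∈ T.powersetCard 2, zeta r S a B (A ∪ p) ≤
        ∏ T ∈ 𝒯, ∏ p ∈ T.powersetCard 2, (Opt r S a (A ∪ p) (R B)).card := by
      refine prod_le_prod' fun T hT => prod_le_prod' fun p hp => ?_
      rw [mem_powersetCard] at hp
      exact zeta_le_strips hBF hA ha hBT hT hp.1 hp.2
    refine h2.trans ?_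
    rw [hprod (fun t => (Opt r S a t (R B)).card), ← hcard, ← prod_const, ← prod_mul_distrib]
    exact prod_le_prod' fun t _ => op_bound X _
  have hRinj : Set.InjOn R (𝒟 : Set (Finset (Finset V))) := by
    intro B hB B' hB' h
    obtain ⟨hBF, -, hBT⟩ := h𝒟 B hB
    obtain ⟨hBF', -, hBT'⟩ := h𝒟 B' hB'
    exact strips_inj hBF hBF' hA ha hBT hBT' h
  have hins := ins_sum (S := S) (r := r) (a := a) ts (by
      intro t ht
      obtain ⟨T, hT, p, hp, hp2, rfl⟩ := hmem t ht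
      refine ⟨?_, mem_union_left _ ha⟩
      rw [card_union_of_disjoint ((h1 T hT).2.1.mono_left hp).symm, hp2]
      omega) H X hH (by rw [hcard]) (𝒟.image R) (by
      intro R' hR'
      obtain ⟨B, hB, rfl⟩ := mem_image.1 hR'
      obtain ⟨hBF, hBH, hBT⟩ := h𝒟 B hB
      refine ⟨strips_mem hBF (hsub B) (hahit B), strips_bdd hBH (hsub B), fun t ht => ?_⟩
      obtain ⟨T, hT, p, hp, hp2, rfl⟩ := hmem t ht
      exact strips_unc hBF hA ha hBT hT hp hp2)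
  rw [sum_image hRinj, hcard] at hins
  calc ∑ B ∈ 𝒟, ∏ T ∈ 𝒯, ∏ p ∈ T.powersetCard 2, zeta r S a B (A ∪ p)
      ≤ ∑ B ∈ 𝒟, (X + 1) ^ (3 * K) * ∏ t ∈ ts, max 1 ((Opt r S a t (R B)).card - X) :=
        sum_le_sum hstep
    _ = (X + 1) ^ (3 * K) * ∑ B ∈ 𝒟, ∏ t ∈ ts, max 1 ((Opt r S a t (R B)).card - X) := by
        rw [mul_sum]
    _ ≤ (X + 1) ^ (3 * K) * (2 ^ (3 * K) * (Fam r S).card) := Nat.mul_le_mul_left _ hins
    _ = (2 * (X + 1)) ^ (3 * K) * (Fam r S).card := by rw [mul_pow]; ring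

/-- Opening.  Fix `𝒯` (there are at most `(n^3)^K` sets of `K` triples) and let
`ts = {A ∪ p : p ⊆ T ∈ 𝒯, |p| = 2}`, `3 K` sets (for `B ∈ 𝒟` with `𝒯 ∈ trips A B K` two different
`T, T' ∈ 𝒯` lie in different blocks, so they share at most one point and the `A ∪ p` are different).
With `R = strips ...` and `X = 3 K (H + 3 K + 2)`,
`zeta B (A ∪ p) ≤ |Opt R| ≤ (X + 1) max 1 (|Opt R| - X)`, and the `R` are different for different `B`
(`strips_inj`); so by `ins_sum` the sum over the `B` with `𝒯 ∈ trips A B K` is at most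
`(X + 1)^(3K) 2^(3K) |Fam|`. -/
theorem open_sum {r : ℕ} (hr : 4 ≤ r) {S : Finset (Finset V)} {A : Finset V}
    (hA : A.card + 3 = r) {a : V} (ha : a ∈ A) (K H : ℕ) (hH : r ≤ H + 1)
    (𝒟 : Finset (Finset (Finset V))) (h𝒟 : ∀ B ∈ 𝒟, B ∈ Fam r S ∧ Bdd H B) :
    ∑ B ∈ 𝒟, ∑ 𝒯 ∈ trips A B K, ∏ T ∈ 𝒯, ∏ p ∈ T.powersetCard 2, zeta r S a B (A ∪ p) ≤
      (2 * (3 * K * (H + 3 * K + 2) + 1)) ^ (3 * K) * (Fintype.card V ^ 3) ^ K *
        (Fam r S).card := by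
  classical
  let 𝒰 := ((univ : Finset V).powersetCard 3).powersetCard K
  have hswap : ∑ B ∈ 𝒟, ∑ 𝒯 ∈ trips A B K, ∏ T ∈ 𝒯, ∏ p ∈ T.powersetCard 2, zeta r S a B (A ∪ p) =
      ∑ 𝒯 ∈ 𝒰, ∑ B ∈ 𝒟.filter (fun B => 𝒯 ∈ trips A B K),
        ∏ T ∈ 𝒯, ∏ p ∈ T.powersetCard 2, zeta r S a B (A ∪ p) := by
    refine sum_comm' fun B 𝒯 => ?_
    rw [mem_filter]
    refine ⟨fun h => ⟨⟨h.1, h.2⟩, ?_⟩, fun h => h.1⟩
    obtain ⟨hK, h1, -⟩ := op_trips_mem h.2
    rw [mem_powersetCard]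
    refine ⟨fun T hT => ?_, hK⟩
    rw [mem_powersetCard]
    exact ⟨subset_univ _, (h1 T hT).1⟩
  rw [hswap]
  have hU : 𝒰.card ≤ (Fintype.card V ^ 3) ^ K := by
    rw [card_powersetCard, card_powersetCard, card_univ]
    exact (Nat.choose_le_pow _ _).trans (Nat.pow_le_pow_left (Nat.choose_le_pow _ _) K)
  calc ∑ 𝒯 ∈ 𝒰, ∑ B ∈ 𝒟.filter (fun B => 𝒯 ∈ trips A B K),
        ∏ T ∈ 𝒯, ∏ p ∈ T.powersetCard 2, zeta r S a B (A ∪ p)
      ≤ ∑ 𝒯 ∈ 𝒰, (2 * (3 * K * (H + 3 * K + 2) + 1)) ^ (3 * K) * (Fam r S).card := by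
        refine sum_le_sum fun 𝒯 _ => op_fixed hA ha K H hH 𝒯 _ fun B hB => ?_
        rw [mem_filter] at hB
        exact ⟨(h𝒟 B hB.1).1, (h𝒟 B hB.1).2, hB.2⟩
    _ = 𝒰.card * ((2 * (3 * K * (H + 3 * K + 2) + 1)) ^ (3 * K) * (Fam r S).card) := by
        rw [sum_const, smul_eq_mul]
    _ ≤ (Fintype.card V ^ 3) ^ K * ((2 * (3 * K * (H + 3 * K + 2) + 1)) ^ (3 * K) *
          (Fam r S).card) := Nat.mul_le_mul_right _ hU
    _ = _ := by ring

end Pool.Agent.Helper41.R7
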