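/-
MP_e8bc6f_co, project R7, block R7-AVG3 (few packings with many options on average).
-/
import Pool.Agent.Helper41.R7.OPEN2
import Pool.Agent.Helper41.R7.IND
import Pool.Agent.Helper41.R7.AVG2

set_option autoImplicit false

namespace Pool.Agent.Helper41.R7

open Finset

variable {V : Type*} [Fintype V] [DecidableEq V]

private theorem av3_FT_le {r : ℕ} {S B : Finset (Finset V)} (hB : B ∈ Fam r S) {A : Finset V}
    (hA : A.card + 3 = r) {a : V} (ha : a ∈ A) {T : Finset V} (hT : T ∈ lineT A B) :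
    0 ≤ FT r S A a B T ∧ FT r S A a B T ≤ (Fintype.card V : ℝ) ^ 3 := by
  unfold lineT at hT
  rw [mem_filter] at hT
  obtain ⟨-, hT3, hd, -⟩ := hT
  unfold FT
  refine ⟨prod_nonneg fun p _ => Nat.cast_nonneg _, ?_⟩
  have h1 : ∏ p ∈ T.powersetCard 2, (zeta r S a B (A ∪ p) : ℝ) ≤
      ∏ _p ∈ T.powersetCard 2, (Fintype.card V : ℝ) := by
    refine prod_le_prod (fun p _ => Nat.cast_nonneg _) fun p hp => ?_
    rw [mem_powersetCard] at hp
    have h2 : (A ∪ p).card + 1 = r := by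
      rw [card_union_of_disjoint (hd.mono_left hp.1).symm, hp.2]
      omega
    exact_mod_cast zeta_le hB h2 (mem_union_left _ ha)
  refine h1.trans (le_of_eq ?_)
  rw [prod_const, card_powersetCard, hT3]
  rfl

private theorem av3_conf {r : ℕ} {S B : Finset (Finset V)} (hB : B ∈ Fam r S) {A : Finset V}
    (hA : A.card + 3 = r) {H : ℕ} (hbd : Bdd H B) {T : Finset V} (hT : T ∈ lineT A B) :
    ((lineT A B).filter (fun T' => Cov B (A ∪ T ∪ T'))).card ≤ H ^ 3 := by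
  have hT' := hT
  unfold lineT at hT'
  rw [mem_filter] at hT'
  obtain ⟨-, hT3, hd, hcov⟩ := hT'
  have hP := (mem_fam.1 hB).1
  have hblk := blk_mem hcov
  have hc : (A ∪ T).card = r := by
    rw [card_union_of_disjoint hd.symm, hT3]
    exact hA
  have hsub : (lineT A B).filter (fun T' => Cov B (A ∪ T ∪ T')) ⊆
      (blk B (A ∪ T)).powersetCard 3 := by
    intro T' hT''
    rw [mem_filter] at hT''
    obtain ⟨h1, b, hb, hbT⟩ := hT''
    unfold lineT at h1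
    rw [mem_filter] at h1
    rw [mem_powersetCard]
    refine ⟨?_, h1.2.1⟩
    have h2 : blk B (A ∪ T) = b :=
      blk_eq hP hb (by omega) (subset_union_left.trans hbT)
    rw [h2]
    exact subset_union_right.trans hbT
  refine (card_le_card hsub).trans ?_
  rw [card_powersetCard]
  exact (Nat.choose_le_pow _ _).trans (Nat.pow_le_pow_left (hbd _ hblk.1) 3)

private theorem av3_one {r : ℕ} {S B : Finset (Finset V)} (hB : B ∈ Fam r S) {A : Finset V}
    (hA : A.card + 3 = r) {a : V} (ha : a ∈ A) (K H : ℕ) (hbd : Bdd H B) (Z' : ℝ)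
    (h1 : (Fintype.card V : ℝ) ^ 2 ≤ Z')
    (h2 : 2 * K * (H : ℝ) ^ 3 * (Fintype.card V : ℝ) ^ 3 ≤ Z')
    (hlt : (Fintype.card V : ℝ) ^ 2 / 6 * Real.log (6 * Z' / (Fintype.card V : ℝ) ^ 2) <
        ∑ p ∈ (univ \ A).powersetCard 2, Real.log (zeta r S a B (A ∪ p))) :
    (Z' / 2) ^ K ≤ K.factorial *
      ((∑ 𝒯 ∈ trips A B K, ∏ T ∈ 𝒯, ∏ p ∈ T.powersetCard 2, zeta r S a B (A ∪ p) : ℕ) : ℝ) := by
  have hZ0 : 0 ≤ Z' := (sq_nonneg _).trans h1
  have hZ : Z' < ∑ T ∈ lineT A B, wt r A B T * FT r S A a B T := by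
    by_contra hcon
    exact absurd (log_sum_le hB hA ha Z' (not_lt.mp hcon) h1) (not_le.mpr hlt)
  have hf0 : ∀ T ∈ lineT A B, 0 ≤ wt r A B T * FT r S A a B T := fun T hT =>
    mul_nonneg (wt_nonneg hB hT).1 (av3_FT_le hB hA ha hT).1
  have hf1 : ∀ T ∈ lineT A B, wt r A B T * FT r S A a B T ≤ (Fintype.card V : ℝ) ^ 3 := by
    intro T hT
    obtain ⟨w0, w1⟩ := wt_nonneg hB hT
    obtain ⟨f0, f1⟩ := av3_FT_le hB hA ha hT
    calc wt r A B T * FT r S A a B T ≤ 1 * FT r S A a B T := mul_le_mul_of_nonneg_right w1 f0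
      _ ≤ (Fintype.card V : ℝ) ^ 3 := by rw [one_mul]; exact f1
  have key := indep_sum (lineT A B) (fun T T' => Cov B (A ∪ T ∪ T')) (by
    intro T T' h
    rwa [union_assoc, union_comm T' T, ← union_assoc]) (by
    intro T hT
    unfold lineT at hT
    rw [mem_filter] at hT
    rw [union_assoc, union_idempotent]
    exact hT.2.2.2) (fun T => wt r A B T * FT r S A a B T) hf0
    ((H : ℝ) ^ 3 * (Fintype.card V : ℝ) ^ 3) (by positivity) (by
    intro T hT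
    calc ∑ T' ∈ (lineT A B).filter (fun T' => Cov B (A ∪ T ∪ T')), wt r A B T' * FT r S A a B T'
        ≤ ∑ _T' ∈ (lineT A B).filter (fun T' => Cov B (A ∪ T ∪ T')), (Fintype.card V : ℝ) ^ 3 :=
          sum_le_sum fun T' hT' => hf1 T' (mem_filter.1 hT').1
      _ = (((lineT A B).filter (fun T' => Cov B (A ∪ T ∪ T'))).card : ℝ) *
          (Fintype.card V : ℝ) ^ 3 := by rw [sum_const, nsmul_eq_mul]
      _ ≤ (H : ℝ) ^ 3 * (Fintype.card V : ℝ) ^ 3 := by
          refine mul_le_mul_of_nonneg_right ?_ (by positivity)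
          exact_mod_cast av3_conf hB hA hbd hT) K (by linarith)
  have h3 : (Z' / 2) ^ K ≤ (∑ T ∈ lineT A B, wt r A B T * FT r S A a B T -
      K * ((H : ℝ) ^ 3 * (Fintype.card V : ℝ) ^ 3)) ^ K :=
    pow_le_pow_left₀ (by linarith) (by linarith) K
  refine h3.trans (key.trans ?_)
  refine mul_le_mul_of_nonneg_left ?_ (by positivity)
  push_cast
  refine (le_of_eq (sum_congr (s₂ := trips A B K) ?_ fun _ _ => rfl)).trans ?_
  · unfold trips
    congr!
  refine sum_le_sum fun 𝒯 h𝒯 => prod_le_prod (fun T hT => ?_) fun T hT => ?_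
  all_goals
    have hTl : T ∈ lineT A B := by
      unfold trips at h𝒯
      rw [mem_filter, mem_powersetCard] at h𝒯
      exact h𝒯.1.1 hT
  · exact hf0 T hTl
  · have w1 := (wt_nonneg hB hTl).2
    have f0 := (av3_FT_le hB hA ha hTl).1
    calc wt r A B T * FT r S A a B T ≤ 1 * FT r S A a B T := mul_le_mul_of_nonneg_right w1 f0
      _ = _ := by rw [one_mul]; rfl

open Classical in
/-- Let `𝒟` be the set of the `B` counted on the left; by `log_sum_le`,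
`∑_T w T F T > Z'` for `B ∈ 𝒟`.  In `indep_sum` let `E = lineT A B`, `f = w F`, `R T T'` if
`Cov B (A ∪ T ∪ T')`, `z = H^3 n^3` (the block containing `A ∪ T` has at most `H^3` subsets with 3
elements, `F ≤ n^3` by `zeta_le` and `w ≤ 1`); as `K z ≤ Z' / 2`,
`(Z'/2)^K ≤ K! ∑_{𝒯 ∈ trips A B K} ∏ w F ≤ K! ∑_{𝒯 ∈ trips A B K} ∏ F`.  Sum over `B ∈ 𝒟` and use
`open_sum`. -/
theorem avg_param {r : ℕ} (hr : 4 ≤ r) {S : Finset (Finset V)} {A : Finset V}
    (hA : A.card + 3 = r) {a : V} (ha : a ∈ A) (K H : ℕ) (hH : r ≤ H + 1) (Z' : ℝ)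
    (h1 : (Fintype.card V : ℝ) ^ 2 ≤ Z')
    (h2 : 2 * K * (H : ℝ) ^ 3 * (Fintype.card V : ℝ) ^ 3 ≤ Z') :
    (((Fam r S).filter (fun B => Bdd H B ∧
      (Fintype.card V : ℝ) ^ 2 / 6 * Real.log (6 * Z' / (Fintype.card V : ℝ) ^ 2) <
        ∑ p ∈ (univ \ A).powersetCard 2, Real.log (zeta r S a B (A ∪ p)))).card : ℝ) *
      (Z' / 2) ^ K ≤ K.factorial * ((2 * (3 * K * (H + 3 * K + 2) + 1) : ℝ) ^ (3 * K) *
        ((Fintype.card V : ℝ) ^ 3) ^ K * (Fam r S).card) := by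
  set 𝒟 := (Fam r S).filter (fun B => Bdd H B ∧
      (Fintype.card V : ℝ) ^ 2 / 6 * Real.log (6 * Z' / (Fintype.card V : ℝ) ^ 2) <
        ∑ p ∈ (univ \ A).powersetCard 2, Real.log (zeta r S a B (A ∪ p))) with h𝒟
  have h3 := open_sum hr hA ha K H hH 𝒟 (fun B hB => by
    rw [h𝒟, mem_filter] at hB
    exact ⟨hB.1, hB.2.1⟩)
  have h4 : (𝒟.card : ℝ) * (Z' / 2) ^ K ≤ K.factorial *
      ((∑ B ∈ 𝒟, ∑ 𝒯 ∈ trips A B K, ∏ T ∈ 𝒯, ∏ p ∈ T.powersetCard 2,
        zeta r S a B (A ∪ p) : ℕ) : ℝ) := by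
    rw [Nat.cast_sum, mul_sum, ← nsmul_eq_mul, ← sum_const]
    refine sum_le_sum fun B hB => ?_
    rw [h𝒟, mem_filter] at hB
    exact av3_one hB.1 hA ha K H hB.2.1 Z' h1 h2 hB.2.2
  refine h4.trans (mul_le_mul_of_nonneg_left ?_ (by positivity))
  calc ((∑ B ∈ 𝒟, ∑ 𝒯 ∈ trips A B K, ∏ T ∈ 𝒯, ∏ p ∈ T.powersetCard 2,
        zeta r S a B (A ∪ p) : ℕ) : ℝ)
      ≤ (((2 * (3 * K * (H + 3 * K + 2) + 1)) ^ (3 * K) * (Fintype.card V ^ 3) ^ K *
        (Fam r S).card : ℕ) : ℝ) := by exact_mod_cast h3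
    _ = _ := by push_cast; ring

end Pool.Agent.Helper41.R7
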