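/-
MP_e8bc6f_co, project R7, block R7-AVG4 (the numbers of options are at most n^(1/3) on average).
-/
import Pool.Agent.Helper41.R7.AVG3

set_option autoImplicit false

namespace Pool.Agent.Helper41.R7

open Finset

private theorem polylog (c d : ℝ) (hc : 0 ≤ c) (hd : 0 ≤ d) (m : ℕ) {b : ℝ} (hb : 0 < b) :
    ∀ᶠ x : ℝ in Filter.atTop, c * (d * (Real.log x + 1)) ^ m ≤ x ^ b := by
  have h1 := isLittleO_log_rpow_rpow_atTop (m : ℝ) hb
  have h2 : (0 : ℝ) < 1 / (c * (2 * d) ^ m + 1) := by positivity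
  filter_upwards [h1.bound h2, Filter.eventually_ge_atTop (Real.exp 1)] with x hx hx1
  have hx0 : 0 < x := (Real.exp_pos 1).trans_le hx1
  have hl : 1 ≤ Real.log x := (Real.le_log_iff_exp_le hx0).2 hx1
  have hxb : 0 < x ^ b := Real.rpow_pos_of_pos hx0 b
  rw [Real.rpow_natCast, Real.norm_eq_abs, Real.norm_eq_abs, abs_of_nonneg (by positivity),
    abs_of_pos hxb] at hx
  have h3 : d * (Real.log x + 1) ≤ 2 * d * Real.log x := by nlinarith
  have h4 : (d * (Real.log x + 1)) ^ m ≤ (2 * d * Real.log x) ^ m :=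
    pow_le_pow_left₀ (by positivity) h3 m
  rw [mul_pow (2 * d)] at h4
  have h5 : 0 ≤ c * (2 * d) ^ m := by positivity
  calc c * (d * (Real.log x + 1)) ^ m ≤ c * ((2 * d) ^ m * Real.log x ^ m) :=
        mul_le_mul_of_nonneg_left h4 hc
    _ = c * (2 * d) ^ m * Real.log x ^ m := by ring
    _ ≤ c * (2 * d) ^ m * (1 / (c * (2 * d) ^ m + 1) * x ^ b) := mul_le_mul_of_nonneg_left hx h5
    _ = c * (2 * d) ^ m / (c * (2 * d) ^ m + 1) * x ^ b := by ring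
    _ ≤ 1 * x ^ b := by
        apply mul_le_mul_of_nonneg_right _ hxb.le
        rw [div_le_one (by positivity)]
        linarith
    _ = x ^ b := one_mul _

private theorem hh_le {n : ℕ} (hn : 1 ≤ n) : (hh n : ℝ) ≤ 2 * (Real.log n + 1) := by
  have h1 : (2 : ℝ) ^ Nat.log 2 n ≤ n := by exact_mod_cast Nat.pow_log_le_self 2 (by omega)
  have h2 : (Nat.log 2 n : ℝ) * Real.log 2 ≤ Real.log n := by
    rw [← Real.log_pow]
    exact Real.log_le_log (by positivity) h1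
  have h3 := Real.log_two_gt_d9
  have h4 : (0 : ℝ) ≤ Nat.log 2 n := Nat.cast_nonneg _
  unfold hh
  push_cast
  nlinarith

open Classical in
/-- Average of the logarithms of the numbers of options at an `(r-3)`-set.

Apply `avg_param` with `H = hh n`, `K = 40 (C + 2)`, `Z' = n^(3 + 1/40)`.  For large `n`
`2 K H^3 n^3 ≤ Z'`, `n^2/6 log (6 Z'/n^2) = n^2/6 (log 6 + (1 + 1/40) log n) ≤ 7/40 n^2 log n`
(`(1 + 1/40)/6 < 7/40`), and `K! (2 (3 K (H + 3 K + 2) + 1))^(3K) n^(3K) n^C ≤ (Z'/2)^K` as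
`(Z'/2)^K = n^(3K) n^(C + 2) / 2^K` and `H` is logarithmic. -/
theorem avg_bound (r : ℕ) (hr : 4 ≤ r) (C : ℕ) : ∃ n0 : ℕ, ∀ (V : Type) [Fintype V]
    [DecidableEq V], n0 ≤ Fintype.card V → ∀ (S : Finset (Finset V)) (A : Finset V) (a : V),
    A.card + 3 = r → a ∈ A →
    ((Fam r S).filter (fun B => Bdd (hh (Fintype.card V)) B ∧
      (7 / 40 : ℝ) * (Fintype.card V : ℝ) ^ 2 * Real.log (Fintype.card V) <
        ∑ p ∈ (univ \ A).powersetCard 2, Real.log (zeta r S a B (A ∪ p)))).card *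
      Fintype.card V ^ C ≤ (Fam r S).card := by
  obtain ⟨K, hK⟩ : ∃ K : ℕ, K = 40 * (C + 2) := ⟨_, rfl⟩
  obtain ⟨D, hD⟩ : ∃ D : ℝ, D = 2 * (3 * K * (3 * K + 4) + 1) := ⟨_, rfl⟩
  have hD0 : 0 ≤ D := by rw [hD]; positivity
  have ev1 := polylog (2 * K) 2 (by positivity) (by norm_num) 3 (b := 1 / 40) (by norm_num)
  have ev2 := polylog (K.factorial * 2 ^ K) D (by positivity) hD0 (3 * K) (b := 2) (by norm_num)
  have ev3 := ((ev1.and ev2).and (Filter.eventually_ge_atTop ((6 : ℝ) ^ 40)))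
  have ev4 := (tendsto_natCast_atTop_atTop (R := ℝ)).eventually ev3
  obtain ⟨n0, hn0⟩ := Filter.eventually_atTop.1 ev4
  refine ⟨max n0 (2 ^ r), fun V _ _ hV S A a hA ha => ?_⟩
  obtain ⟨n, hn⟩ : ∃ n, n = Fintype.card V := ⟨_, rfl⟩
  obtain ⟨⟨h1, h2⟩, h3⟩ := hn0 (Fintype.card V) ((le_max_left _ _).trans hV)
  have hV2 : 2 ^ r ≤ Fintype.card V := (le_max_right _ _).trans hV
  have hlin : r ≤ hh (Fintype.card V) + 1 := by
    have := Nat.le_log_of_pow_le (b := 2) (by norm_num) hV2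
    unfold hh
    omega
  rw [← hn] at h1 h2 h3 hlin ⊢
  have hn1 : 1 ≤ n := by
    rw [hn]
    exact Fintype.card_pos_iff.2 ⟨a⟩
  have hnR : (0 : ℝ) < n := by exact_mod_cast hn1
  have hn1R : (1 : ℝ) ≤ n := by exact_mod_cast hn1
  have hlog : 0 ≤ Real.log n := Real.log_nonneg hn1R
  have hH := hh_le hn1
  have hH0 : (0 : ℝ) ≤ hh n := Nat.cast_nonneg _
  obtain ⟨q, hq⟩ : ∃ q : ℝ, q = (n : ℝ) ^ (1 / 40 : ℝ) := ⟨_, rfl⟩
  have hq0 : 0 < q := by rw [hq]; positivity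
  have hq1 : 1 ≤ q := by rw [hq]; exact Real.one_le_rpow hn1R (by norm_num)
  have hq40 : q ^ 40 = n := by
    rw [hq, ← Real.rpow_natCast, ← Real.rpow_mul hnR.le]
    norm_num
  have hlq : Real.log q = 1 / 40 * Real.log n := by
    rw [hq, Real.log_rpow hnR]
  -- the parameters
  have p1 : (n : ℝ) ^ 2 ≤ (n : ℝ) ^ 3 * q := by
    have : (n : ℝ) ^ 2 * 1 ≤ (n : ℝ) ^ 2 * (n * q) :=
      mul_le_mul_of_nonneg_left (by nlinarith) (by positivity)
    linarith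
  have p2 : 2 * (K : ℝ) * (hh n : ℝ) ^ 3 * (n : ℝ) ^ 3 ≤ (n : ℝ) ^ 3 * q := by
    have e1 : (hh n : ℝ) ^ 3 ≤ (2 * (Real.log n + 1)) ^ 3 := pow_le_pow_left₀ hH0 hH 3
    have e2 : 2 * (K : ℝ) * (hh n : ℝ) ^ 3 ≤ 2 * K * (2 * (Real.log n + 1)) ^ 3 :=
      mul_le_mul_of_nonneg_left e1 (by positivity)
    have e3 : 2 * (K : ℝ) * (hh n : ℝ) ^ 3 ≤ q := by
      rw [hq]
      exact e2.trans h1
    have e4 := mul_le_mul_of_nonneg_right e3 (show (0 : ℝ) ≤ (n : ℝ) ^ 3 by positivity)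
    linarith
  have main := avg_param hr (S := S) hA ha K (hh n) hlin ((n : ℝ) ^ 3 * q)
    (by rw [← hn]; exact p1) (by rw [← hn]; exact p2)
  rw [← hn] at main
  -- comparison of the sets
  have hll : (n : ℝ) ^ 2 / 6 * Real.log (6 * ((n : ℝ) ^ 3 * q) / (n : ℝ) ^ 2) ≤
      (7 / 40 : ℝ) * (n : ℝ) ^ 2 * Real.log n := by
    have e1 : 6 * ((n : ℝ) ^ 3 * q) / (n : ℝ) ^ 2 = 6 * (n * q) := by
      field_simp
    rw [e1, Real.log_mul (by norm_num) (by positivity), Real.log_mul hnR.ne' hq0.ne', hlq]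
    have e2 : 40 * Real.log 6 ≤ Real.log n := by
      have : Real.log ((6 : ℝ) ^ 40) ≤ Real.log n := Real.log_le_log (by positivity) h3
      rw [Real.log_pow] at this
      push_cast at this
      exact this
    have e3 : 0 < (n : ℝ) ^ 2 := by positivity
    nlinarith
  obtain ⟨Y, hY⟩ : ∃ Y : Finset (Finset (Finset V)), Y = (Fam r S).filter (fun B => Bdd (hh n) B ∧
      (n : ℝ) ^ 2 / 6 * Real.log (6 * ((n : ℝ) ^ 3 * q) / (n : ℝ) ^ 2) <
        ∑ p ∈ (univ \ A).powersetCard 2, Real.log (zeta r S a B (A ∪ p))) := ⟨_, rfl⟩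
  rw [← hY] at main
  have hsub : (Fam r S).filter (fun B => Bdd (hh n) B ∧
      (7 / 40 : ℝ) * (n : ℝ) ^ 2 * Real.log n <
        ∑ p ∈ (univ \ A).powersetCard 2, Real.log (zeta r S a B (A ∪ p))) ⊆ Y := by
    intro B hB
    rw [hY, mem_filter]
    rw [mem_filter] at hB
    exact ⟨hB.1, hB.2.1, hll.trans_lt hB.2.2⟩
  refine (Nat.mul_le_mul_right _ (card_le_card hsub)).trans ?_
  -- the numbers
  obtain ⟨X, hX⟩ : ∃ X : ℝ, X = K.factorial * ((2 * (3 * K * (hh n + 3 * K + 2) + 1) : ℝ) ^ (3 * K) *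
      ((n : ℝ) ^ 3) ^ K) := ⟨_, rfl⟩
  have hX0 : 0 < X := by rw [hX]; positivity
  have main2 : (Y.card : ℝ) * ((n : ℝ) ^ 3 * q / 2) ^ K ≤ X * (Fam r S).card := by
    rw [hX]
    calc _ ≤ _ := main
      _ = _ := by ring
  have hqK : q ^ K = (n : ℝ) ^ (C + 2) := by
    rw [hK, pow_mul, hq40]
  have hXle : X * (n : ℝ) ^ C ≤ ((n : ℝ) ^ 3 * q / 2) ^ K := by
    have e1 : (2 * (3 * K * (hh n + 3 * K + 2) + 1) : ℝ) ≤ D * (Real.log n + 1) := by
      rw [hD]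
      have k0 : (0 : ℝ) ≤ K := Nat.cast_nonneg _
      have k1 : (hh n : ℝ) + 3 * K + 2 ≤ (3 * K + 4) * (Real.log n + 1) := by nlinarith
      have k2 := mul_le_mul_of_nonneg_left k1 (show (0 : ℝ) ≤ 3 * K by positivity)
      nlinarith
    have e2 : (2 * (3 * K * (hh n + 3 * K + 2) + 1) : ℝ) ^ (3 * K) ≤
        (D * (Real.log n + 1)) ^ (3 * K) := pow_le_pow_left₀ (by positivity) e1 _
    have e3 : (K.factorial : ℝ) * 2 ^ K * (2 * (3 * K * (hh n + 3 * K + 2) + 1) : ℝ) ^ (3 * K) ≤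
        (n : ℝ) ^ 2 := by
      refine (mul_le_mul_of_nonneg_left e2 (by positivity)).trans ?_
      have : (n : ℝ) ^ (2 : ℝ) = (n : ℝ) ^ 2 := Real.rpow_natCast _ 2
      rw [← this]
      exact h2
    have e4 : ((n : ℝ) ^ 3 * q / 2) ^ K = ((n : ℝ) ^ 3) ^ K * (n : ℝ) ^ C * (n : ℝ) ^ 2 / 2 ^ K := by
      rw [div_pow, mul_pow, hqK]
      ring
    rw [e4, le_div_iff₀ (by positivity), hX]
    have e5 := mul_le_mul_of_nonneg_left e3
      (show (0 : ℝ) ≤ ((n : ℝ) ^ 3) ^ K * (n : ℝ) ^ C by positivity)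
    calc _ = ((n : ℝ) ^ 3) ^ K * (n : ℝ) ^ C * ((K.factorial : ℝ) * 2 ^ K *
          (2 * (3 * K * (hh n + 3 * K + 2) + 1) : ℝ) ^ (3 * K)) := by ring
      _ ≤ _ := e5
  have hfin : ((Y.card * n ^ C : ℕ) : ℝ) ≤ ((Fam r S).card : ℝ) := by
    push_cast
    have e1 : (Y.card : ℝ) * (X * (n : ℝ) ^ C) ≤ X * (Fam r S).card :=
      (mul_le_mul_of_nonneg_left hXle (Nat.cast_nonneg _)).trans main2
    have e2 : X * ((Y.card : ℝ) * (n : ℝ) ^ C) ≤ X * (Fam r S).card := by linarith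
    exact le_of_mul_le_mul_left e2 hX0
  exact_mod_cast hfin

end Pool.Agent.Helper41.R7
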