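/-
MP_e8bc6f_co, project R7, block R7-BIG1 (packings with a block of given size).
-/
import Pool.Agent.Helper41.R7.BAS

set_option autoImplicit false

namespace Pool.Agent.Helper41.R7

open Finset

variable {V : Type*} [Fintype V] [DecidableEq V]

/-- A large partial Steiner system on a set `b` with `q ≥ 1` points: number the points of `b` by
`0, ..., q-1`; for a residue `c` mod `q` let `𝒟_c` be the set of all `r`-subsets of `b` whose sum is
`c` mod `q`: two different ones share at most `r - 2` points (`r - 1` points determine the last).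
For some `c`, `C(q, r) / q ≤ |𝒟_c|` (pigeonhole). -/
theorem exists_steiner {r : ℕ} (hr : 2 ≤ r) {b : Finset V} (hb : 1 ≤ b.card) :
    ∃ 𝒟 : Finset (Finset V), (∀ x ∈ 𝒟, x ⊆ b ∧ x.card = r) ∧
      (∀ x ∈ 𝒟, ∀ y ∈ 𝒟, x ≠ y → (x ∩ y).card + 2 ≤ r) ∧
      b.card.choose r ≤ b.card * 𝒟.card := by
  classical
  have hq : NeZero b.card := ⟨by omega⟩
  let f : V → ZMod b.card := fun v => if h : v ∈ b then ((b.equivFin ⟨v, h⟩ : ℕ) : ZMod b.card) else 0
  have hf : ∀ u ∈ b, ∀ v ∈ b, f u = f v → u = v := by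
    intro u hu v hv h
    simp only [f, dif_pos hu, dif_pos hv] at h
    rw [ZMod.natCast_eq_natCast_iff'] at h
    rw [Nat.mod_eq_of_lt (b.equivFin ⟨u, hu⟩).2, Nat.mod_eq_of_lt (b.equivFin ⟨v, hv⟩).2] at h
    have h1 := b.equivFin.injective (Fin.ext h)
    exact congrArg Subtype.val h1
  let D : ZMod b.card → Finset (Finset V) := fun c =>
    (b.powersetCard r).filter (fun x => ∑ v ∈ x, f v = c)
  have hD : ∀ c, ∀ x ∈ D c, x ⊆ b ∧ x.card = r ∧ ∑ v ∈ x, f v = c := by
    intro c x hx
    obtain ⟨h1, h2⟩ := mem_filter.1 hx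
    rw [mem_powersetCard] at h1
    exact ⟨h1.1, h1.2, h2⟩
  have hsum : b.card.choose r = ∑ c : ZMod b.card, (D c).card := by
    rw [← card_powersetCard]
    exact card_eq_sum_card_fiberwise (fun x _ => mem_coe.2 (mem_univ _))
  obtain ⟨c, hc⟩ : ∃ c, b.card.choose r ≤ b.card * (D c).card := by
    by_contra hcon
    push Not at hcon
    have h1 : b.card * b.card.choose r < b.card * b.card.choose r := by
      calc b.card * b.card.choose r = ∑ c : ZMod b.card, b.card * (D c).card := by
            rw [← mul_sum, ← hsum]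
        _ < ∑ c : ZMod b.card, b.card.choose r :=
            sum_lt_sum_of_nonempty ⟨0, mem_univ _⟩ fun c _ => hcon c
        _ = b.card * b.card.choose r := by
            rw [sum_const, smul_eq_mul, card_univ, ZMod.card]
    exact lt_irrefl _ h1
  refine ⟨D c, fun x hx => ⟨(hD c x hx).1, (hD c x hx).2.1⟩, ?_, hc⟩
  intro x hx y hy hxy
  obtain ⟨hx1, hx2, hx3⟩ := hD c x hx
  obtain ⟨hy1, hy2, hy3⟩ := hD c y hy
  by_contra hcon
  have h1 : (x ∩ y).card + (x \ y).card = x.card := card_inter_add_card_sdiff x y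
  have h2 : (y ∩ x).card + (y \ x).card = y.card := card_inter_add_card_sdiff y x
  have h3 : (y ∩ x).card = (x ∩ y).card := by rw [inter_comm]
  have h4 : (x \ y).card ≠ 0 := by
    intro h0
    rw [card_eq_zero, sdiff_eq_empty_iff_subset] at h0
    exact hxy (eq_of_subset_of_card_le h0 (by omega))
  have h5 : (x \ y).card = 1 := by omega
  have h6 : (y \ x).card = 1 := by omega
  obtain ⟨u, hu⟩ := card_eq_one.1 h5
  obtain ⟨v, hv⟩ := card_eq_one.1 h6
  have h7 : ∑ w ∈ x ∩ y, f w + ∑ w ∈ x \ y, f w = ∑ w ∈ x, f w := sum_inter_add_sum_sdiff x y f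
  have h8 : ∑ w ∈ y ∩ x, f w + ∑ w ∈ y \ x, f w = ∑ w ∈ y, f w := sum_inter_add_sum_sdiff y x f
  rw [hu, sum_singleton, hx3] at h7
  rw [hv, sum_singleton, hy3, inter_comm] at h8
  have h9 : f u = f v := by
    have := h7.trans h8.symm
    exact add_left_cancel this
  have hux : u ∈ x \ y := by rw [hu]; exact mem_singleton_self _
  have hvy : v ∈ y \ x := by rw [hv]; exact mem_singleton_self _
  rw [mem_sdiff] at hux hvy
  have := hf u (hx1 hux.1) v (hy1 hvy.1) h9
  rw [this] at hux
  exact hux.2 hvy.1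

open Classical in
/-- Replace the block `b` (of size `q`) of a packing `B ∈ Fam r S` by an arbitrary subset of the
family `𝒟` of `exists_steiner`: this gives `2^|𝒟|` different members of `Fam r S` (a member of `𝒟` and
another block of `B` share at most `r - 2` points, as it is contained in `b`), and given `b`, `B` is
recovered by deleting all blocks contained in `b` and adding `b`.  There are at most `n^q` sets
`b`. -/
theorem big_size {r : ℕ} (hr : 4 ≤ r) (S : Finset (Finset V)) (q L : ℕ) (hq : 1 ≤ q)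
    (hL : q * L ≤ q.choose r) :
    ((Fam r S).filter (fun B => ∃ b ∈ B, b.card = q)).card * 2 ^ L ≤
      Fintype.card V ^ q * (Fam r S).card := by
  have hst : ∀ b : Finset V, ∃ 𝒟 : Finset (Finset V), b.card = q →
      (∀ x ∈ 𝒟, x ⊆ b ∧ x.card = r) ∧
      (∀ x ∈ 𝒟, ∀ y ∈ 𝒟, x ≠ y → (x ∩ y).card + 2 ≤ r) ∧ L ≤ 𝒟.card := by
    intro b
    by_cases hb : b.card = q
    · obtain ⟨𝒟, h1, h2, h3⟩ := exists_steiner (r := r) (by omega) (b := b) (by omega)
      refine ⟨𝒟, fun _ => ⟨h1, h2, ?_⟩⟩
      rw [hb] at h3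
      exact Nat.le_of_mul_le_mul_left (hL.trans h3) (by omega)
    · exact ⟨∅, fun h => absurd h hb⟩
  choose 𝒟 h𝒟 using hst
  let F1 := (Fam r S).filter (fun B => ∃ b ∈ B, b.card = q)
  have hbb : ∀ B : Finset (Finset V), ∃ b : Finset V, B ∈ F1 → b ∈ B ∧ b.card = q := by
    intro B
    by_cases hB : B ∈ F1
    · obtain ⟨b, hb⟩ := (mem_filter.1 hB).2
      exact ⟨b, fun _ => hb⟩
    · exact ⟨∅, fun h => absurd h hB⟩
  choose bb hbb using hbb
  have hF1 : ∀ B ∈ F1, IsPack r B ∧ Avoids S B := fun B hB => mem_fam.1 (mem_filter.1 hB).1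
  -- blocks different from `b` are not contained in `b`
  have hnot : ∀ B ∈ F1, ∀ c ∈ B.erase (bb B), ¬ c ⊆ bb B := by
    intro B hB c hc hcb
    obtain ⟨hc1, hc2⟩ := mem_erase.1 hc
    have h1 := (hF1 B hB).1.2 c hc2 (bb B) (hbb B hB).1 hc1
    rw [inter_eq_left.2 hcb] at h1
    have := (hF1 B hB).1.1 c hc2
    omega
  let φ : (Σ _ : Finset (Finset V), Finset (Finset V)) → Finset V × Finset (Finset V) :=
    fun x => (bb x.1, x.1.erase (bb x.1) ∪ x.2)
  have hcard : (F1.sigma (fun B => (𝒟 (bb B)).powerset)).card ≤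
      ((univ : Finset V).powersetCard q ×ˢ Fam r S).card := by
    refine card_le_card_of_injOn φ ?_ ?_
    · rintro ⟨B, E⟩ hBE
      rw [mem_coe, mem_sigma] at hBE
      obtain ⟨hB, hE⟩ := hBE
      simp only at hB hE
      rw [mem_powerset] at hE
      obtain ⟨hb1, hb2⟩ := hbb B hB
      obtain ⟨d1, d2, -⟩ := h𝒟 (bb B) hb2
      obtain ⟨⟨p1, p2⟩, p3⟩ := hF1 B hB
      rw [mem_coe, mem_product]
      refine ⟨mem_powersetCard.2 ⟨subset_univ _, hb2⟩, ?_⟩
      rw [mem_fam]
      have hmix : ∀ c ∈ B.erase (bb B), ∀ e ∈ E, (c ∩ e).card + 2 ≤ r := by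
        intro c hc e he
        obtain ⟨hc1, hc2⟩ := mem_erase.1 hc
        have h1 := p2 c hc2 (bb B) hb1 hc1
        have h2 : (c ∩ e).card ≤ (c ∩ bb B).card :=
          card_le_card (inter_subset_inter_left (d1 e (hE he)).1)
        omega
      refine ⟨⟨?_, ?_⟩, ?_⟩
      · intro c hc
        rcases mem_union.1 hc with hc | hc
        · exact p1 c (mem_erase.1 hc).2
        · exact (d1 c (hE hc)).2.ge
      · intro c hc d hd hcd
        rcases mem_union.1 hc with hc | hc <;> rcases mem_union.1 hd with hd | hd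
        · exact p2 c (mem_erase.1 hc).2 d (mem_erase.1 hd).2 hcd
        · exact hmix c hc d hd
        · rw [inter_comm]
          exact hmix d hd c hc
        · exact d2 c (hE hc) d (hE hd) hcd
      · intro e he c hc hec
        rcases mem_union.1 hc with hc | hc
        · exact p3 e he c (mem_erase.1 hc).2 hec
        · exact p3 e he (bb B) hb1 (hec.trans (d1 c (hE hc)).1)
    · rintro ⟨B, E⟩ hBE ⟨B', E'⟩ hBE' heq
      rw [mem_coe, mem_sigma] at hBE hBE'
      obtain ⟨hB, hE⟩ := hBE
      obtain ⟨hB', hE'⟩ := hBE'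
      simp only at hB hE hB' hE'
      rw [mem_powerset] at hE hE'
      simp only [φ, Prod.mk.injEq] at heq
      obtain ⟨he1, he2⟩ := heq
      have hin : ∀ e ∈ E, e ⊆ bb B := fun e he => ((h𝒟 (bb B) (hbb B hB).2).1 e (hE he)).1
      have hin' : ∀ e ∈ E', e ⊆ bb B' := fun e he =>
        ((h𝒟 (bb B') (hbb B' hB').2).1 e (hE' he)).1
      have hEE : E = E' := by
        ext e
        constructor
        · intro he
          have h1 : e ∈ B'.erase (bb B') ∪ E' := by rw [← he2]; exact mem_union_right _ he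
          rcases mem_union.1 h1 with h1 | h1
          · exact absurd (he1 ▸ hin e he) (hnot B' hB' e h1)
          · exact h1
        · intro he
          have h1 : e ∈ B.erase (bb B) ∪ E := by rw [he2]; exact mem_union_right _ he
          rcases mem_union.1 h1 with h1 | h1
          · exact absurd (he1 ▸ hin' e he) (hnot B hB e h1)
          · exact h1
      have hBB : B.erase (bb B) = B'.erase (bb B') := by
        ext c
        constructor
        · intro hc
          have h1 : c ∈ B'.erase (bb B') ∪ E' := by rw [← he2]; exact mem_union_left _ hc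
          rcases mem_union.1 h1 with h1 | h1
          · exact h1
          · exact absurd (he1 ▸ hin' c h1) (hnot B hB c hc)
        · intro hc
          have h1 : c ∈ B.erase (bb B) ∪ E := by rw [he2]; exact mem_union_left _ hc
          rcases mem_union.1 h1 with h1 | h1
          · exact h1
          · exact absurd (he1 ▸ hin c h1) (hnot B' hB' c hc)
      have hBB' : B = B' := by
        rw [← insert_erase (hbb B hB).1, ← insert_erase (hbb B' hB').1, hBB, he1]
      subst hBB'
      rw [hEE]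
  rw [card_sigma, card_product, card_powersetCard, card_univ] at hcard
  have h1 : F1.card * 2 ^ L ≤ ∑ B ∈ F1, (𝒟 (bb B)).powerset.card := by
    rw [← smul_eq_mul, ← sum_const]
    refine sum_le_sum fun B hB => ?_
    rw [card_powerset]
    exact Nat.pow_le_pow_right (by norm_num) (h𝒟 (bb B) (hbb B hB).2).2.2
  calc F1.card * 2 ^ L ≤ _ := h1
    _ ≤ _ := hcard
    _ ≤ _ := Nat.mul_le_mul (Nat.choose_le_pow _ _) le_rfl

end Pool.Agent.Helper41.R7
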