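/-
MP_e8bc6f_co, project R7, block R7-BIG2 (packings with a large block are rare).
-/
import Pool.Agent.Helper41.R7.BIG1

set_option autoImplicit false

namespace Pool.Agent.Helper41.R7

open Finset

private lemma choose67 {r C q : ℕ} (hr : 4 ≤ r) (hq : 2 * r + C + 1 + 32 * r.factorial ≤ q) :
    q * (q * (q + C + 1)) ≤ q.choose r := by
  have h1 : (q + 1 - r) ^ r ≤ r.factorial * q.choose r := by
    rw [← Nat.descFactorial_eq_factorial_mul_choose]
    exact Nat.pow_sub_le_descFactorial q r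
  have h2 : (q + 1 - r) ^ 4 ≤ (q + 1 - r) ^ r := Nat.pow_le_pow_right (by omega) hr
  have h3 : q ^ 4 ≤ 16 * (q + 1 - r) ^ 4 := by
    have h4 : q ≤ 2 * (q + 1 - r) := by omega
    calc q ^ 4 ≤ (2 * (q + 1 - r)) ^ 4 := Nat.pow_le_pow_left h4 4
      _ = 16 * (q + 1 - r) ^ 4 := by ring
  have h4 : q + C + 1 ≤ 2 * q := by omega
  have h5 : 32 * r.factorial ≤ q := by omega
  have h6 : 16 * r.factorial * (q * (q * (q + C + 1))) ≤ q ^ 4 := by
    calc 16 * r.factorial * (q * (q * (q + C + 1))) ≤ 16 * r.factorial * (q * (q * (2 * q))) := by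
          gcongr
      _ = (32 * r.factorial) * q ^ 3 := by ring
      _ ≤ q * q ^ 3 := Nat.mul_le_mul_right _ h5
      _ = q ^ 4 := by ring
  have h7 : 16 * r.factorial * (q * (q * (q + C + 1))) ≤ 16 * r.factorial * q.choose r := by
    calc 16 * r.factorial * (q * (q * (q + C + 1))) ≤ q ^ 4 := h6
      _ ≤ 16 * (q + 1 - r) ^ 4 := h3
      _ ≤ 16 * (r.factorial * q.choose r) := Nat.mul_le_mul_left _ (h2.trans h1)
      _ = 16 * r.factorial * q.choose r := by ring
  exact Nat.le_of_mul_le_mul_left h7 (by positivity)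

open Classical in
/-- For `q > hh n` apply `big_size` with `L = q (q + C + 1)`: for `q ≥ q0 (r, C)`,
`q^2 (q + C + 1) ≤ C(q, r)` (as `r ≥ 4`: e.g. `C(q, r) ≥ (q - r + 1)^r / r!`,
`Nat.pow_le_choose`), and `n < 2^(hh n) ≤ 2^q` (`Nat.lt_pow_succ_log_self`), so
`n^(q + C + 1) ≤ 2^L` and `N_q n^(C+1) ≤ |Fam r S|`; sum over the at most `n` values of `q`. -/
theorem big_block (r : ℕ) (hr : 4 ≤ r) (C : ℕ) : ∃ n0 : ℕ, ∀ (V : Type) [Fintype V]
    [DecidableEq V], n0 ≤ Fintype.card V → ∀ S : Finset (Finset V),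
    ((Fam r S).filter (fun B => ¬ Bdd (hh (Fintype.card V)) B)).card * Fintype.card V ^ C ≤
      (Fam r S).card := by
  refine ⟨2 ^ (2 * r + C + 1 + 32 * r.factorial), ?_⟩
  intro V _ _ hn S
  set n := Fintype.card V with hndef
  have hnpos : 0 < n := lt_of_lt_of_le (by positivity) hn
  have hlog : 2 * r + C + 1 + 32 * r.factorial ≤ Nat.log 2 n :=
    Nat.le_log_of_pow_le one_lt_two hn
  have hlt : n < 2 ^ hh n := Nat.lt_pow_succ_log_self one_lt_two n
  have hN : ∀ q ∈ Finset.Ioc (hh n) n,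
      ((Fam r S).filter (fun B => ∃ b ∈ B, b.card = q)).card * n ^ (C + 1) ≤ (Fam r S).card := by
    intro q hq
    rw [Finset.mem_Ioc] at hq
    have hq0 : 2 * r + C + 1 + 32 * r.factorial ≤ q := by
      have : hh n = Nat.log 2 n + 1 := rfl
      omega
    have h1 := big_size hr S q (q * (q + C + 1)) (by omega) (choose67 hr hq0)
    have h2 : n ≤ 2 ^ q := hlt.le.trans (Nat.pow_le_pow_right two_pos hq.1.le)
    have h3 : n ^ (q + C + 1) ≤ 2 ^ (q * (q + C + 1)) := by
      rw [pow_mul]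
      exact Nat.pow_le_pow_left h2 _
    have h4 : n ^ q * (((Fam r S).filter (fun B => ∃ b ∈ B, b.card = q)).card * n ^ (C + 1)) ≤
        n ^ q * (Fam r S).card := by
      calc n ^ q * (((Fam r S).filter (fun B => ∃ b ∈ B, b.card = q)).card * n ^ (C + 1))
          = ((Fam r S).filter (fun B => ∃ b ∈ B, b.card = q)).card * n ^ (q + C + 1) := by
            rw [add_assoc q C 1, pow_add n q (C + 1)]
            ring
        _ ≤ ((Fam r S).filter (fun B => ∃ b ∈ B, b.card = q)).card * 2 ^ (q * (q + C + 1)) :=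
            Nat.mul_le_mul_left _ h3
        _ ≤ n ^ q * (Fam r S).card := h1
    exact Nat.le_of_mul_le_mul_left h4 (by positivity)
  have hsub : (Fam r S).filter (fun B => ¬ Bdd (hh n) B) ⊆
      (Finset.Ioc (hh n) n).biUnion fun q =>
        (Fam r S).filter (fun B => ∃ b ∈ B, b.card = q) := by
    intro B hB
    rw [mem_filter] at hB
    obtain ⟨hB1, hB2⟩ := hB
    unfold Bdd at hB2
    push Not at hB2
    obtain ⟨b, hb, hb2⟩ := hB2
    rw [mem_biUnion]
    refine ⟨b.card, ?_, ?_⟩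
    · rw [Finset.mem_Ioc]
      exact ⟨hb2, card_le_univ b⟩
    · rw [mem_filter]
      exact ⟨hB1, b, hb, rfl⟩
  have h1 : ((Fam r S).filter (fun B => ¬ Bdd (hh n) B)).card * n ^ (C + 1) ≤
      n * (Fam r S).card := by
    calc ((Fam r S).filter (fun B => ¬ Bdd (hh n) B)).card * n ^ (C + 1)
        ≤ (∑ q ∈ Finset.Ioc (hh n) n,
            ((Fam r S).filter (fun B => ∃ b ∈ B, b.card = q)).card) * n ^ (C + 1) :=
          Nat.mul_le_mul_right _ ((card_le_card hsub).trans card_biUnion_le)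
      _ = ∑ q ∈ Finset.Ioc (hh n) n,
            ((Fam r S).filter (fun B => ∃ b ∈ B, b.card = q)).card * n ^ (C + 1) := sum_mul _ _ _
      _ ≤ ∑ _q ∈ Finset.Ioc (hh n) n, (Fam r S).card := sum_le_sum hN
      _ = (n - hh n) * (Fam r S).card := by rw [sum_const, Nat.card_Ioc, smul_eq_mul]
      _ ≤ n * (Fam r S).card := Nat.mul_le_mul_right _ (Nat.sub_le _ _)
  have h2 : n * (((Fam r S).filter (fun B => ¬ Bdd (hh n) B)).card * n ^ C) ≤
      n * (Fam r S).card := by
    refine le_trans (le_of_eq ?_) h1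
    rw [pow_succ]
    ring
  exact Nat.le_of_mul_le_mul_left h2 hnpos

end Pool.Agent.Helper41.R7
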