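/-
MP_e8bc6f_co, project R7, block R7-CLOSE1 (adding blocks through an avoided set).
-/
import Pool.Agent.Helper41.R7.BAS

set_option autoImplicit false

namespace Pool.Agent.Helper41.R7

open Finset

variable {V : Type*} [Fintype V] [DecidableEq V]

omit [Fintype V] in
private theorem sdiff_union1 {s p : Finset V} (h : Disjoint p s) : (s ∪ p) \ s = p := by
  rw [union_sdiff_left]
  exact sdiff_eq_self_of_disjoint h

private theorem mem_match1 {S : Finset (Finset V)} {s : Finset V} {P : Finset (Finset V)} {K : ℕ}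
    (hP : P ∈ matchings (alw S s) K) {p : Finset V} (hp : p ∈ P) :
    p.card = 2 ∧ Disjoint p s ∧ ∀ e ∈ S, ¬ e ⊆ s ∪ p := by
  unfold matchings at hP
  rw [mem_filter, mem_powersetCard] at hP
  have h := hP.1.1 hp
  unfold alw at h
  rw [mem_filter] at h
  exact h.2

/-- If `R` avoids `insert s S` and the sets `s.erase x ∪ p` (`x ∈ s`, `p ∈ P`) are not covered then
adding the blocks `s ∪ p` gives a packing avoiding `S`.  An `(r-1)`-subset of `s ∪ p` is
`s.erase x ∪ p` or `s ∪ {v}`, `v ∈ p`; the latter is not covered as `R` avoids `s`.  Two new blocks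
share exactly `s`. -/
theorem add_mem {r : ℕ} {S : Finset (Finset V)} {s : Finset V} (hs : s.card + 2 = r)
    {P : Finset (Finset V)} {K : ℕ} (hP : P ∈ matchings (alw S s) K)
    {R : Finset (Finset V)} (hR : R ∈ Fam r (insert s S))
    (hu : ∀ x ∈ s, ∀ p ∈ P, ¬ Cov R (s.erase x ∪ p)) :
    R ∪ P.image (fun p => s ∪ p) ∈ Fam r S := by
  have hR' := hR
  rw [mem_fam] at hR' ⊢
  obtain ⟨⟨h1, h2⟩, h3⟩ := hR'
  have hdj : ∀ p ∈ P, ∀ q ∈ P, p ≠ q → Disjoint p q := by
    unfold matchings at hP
    rw [mem_filter] at hP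
    exact hP.2
  have hcard : ∀ p ∈ P, (s ∪ p).card = r := by
    intro p hp
    obtain ⟨a1, a2, -⟩ := mem_match1 hP hp
    rw [card_union_of_disjoint a2.symm, a1]
    exact hs
  have hmix : ∀ b ∈ R, ∀ p ∈ P, (b ∩ (s ∪ p)).card + 2 ≤ r := by
    intro b hb p hp
    by_contra hcon
    have hsb : ¬ s ⊆ b := h3 s (mem_insert_self _ _) b hb
    rw [not_subset] at hsb
    obtain ⟨x, hx, hxb⟩ := hsb
    obtain ⟨a1, a2, -⟩ := mem_match1 hP hp
    have hxp : x ∉ p := fun h => (disjoint_left.1 a2) h hx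
    refine hu x hx p hp ⟨b, hb, ?_⟩
    have e1 : (s ∪ p).erase x = s.erase x ∪ p := by
      rw [erase_union_distrib, erase_eq_of_notMem hxp]
    have h4 : b ∩ (s ∪ p) ⊆ (s ∪ p).erase x := by
      intro y hy
      rw [mem_inter] at hy
      rw [mem_erase]
      exact ⟨fun h => hxb (h ▸ hy.1), hy.2⟩
    have h5 : ((s ∪ p).erase x).card = r - 1 := by
      rw [card_erase_of_mem (mem_union_left _ hx), hcard p hp]
    have h6 : b ∩ (s ∪ p) = (s ∪ p).erase x := eq_of_subset_of_card_le h4 (by omega)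
    rw [← e1, ← h6]
    exact inter_subset_left
  refine ⟨⟨?_, ?_⟩, ?_⟩
  · intro b hb
    rcases mem_union.1 hb with hb | hb
    · exact h1 b hb
    · obtain ⟨p, hp, rfl⟩ := mem_image.1 hb
      exact (hcard p hp).ge
  · intro b hb c hc hbc
    rcases mem_union.1 hb with hb | hb
    · rcases mem_union.1 hc with hc | hc
      · exact h2 b hb c hc hbc
      · obtain ⟨p, hp, rfl⟩ := mem_image.1 hc
        exact hmix b hb p hp
    · obtain ⟨p, hp, rfl⟩ := mem_image.1 hb
      rcases mem_union.1 hc with hc | hc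
      · rw [inter_comm]
        exact hmix c hc p hp
      · obtain ⟨q, hq, rfl⟩ := mem_image.1 hc
        have hpq : p ≠ q := fun h => hbc (by rw [h])
        obtain ⟨a1, a2, -⟩ := mem_match1 hP hp
        obtain ⟨b1, b2, -⟩ := mem_match1 hP hq
        have e1 : (s ∪ p) ∩ (s ∪ q) = s := by
          rw [← union_inter_distrib_left, disjoint_iff_inter_eq_empty.1 (hdj p hp q hq hpq), union_empty]
        rw [e1]
        exact hs.le
  · intro e he b hb
    rcases mem_union.1 hb with hb | hb
    · exact h3 e (mem_insert_of_mem he) b hb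
    · obtain ⟨p, hp, rfl⟩ := mem_image.1 hb
      exact (mem_match1 hP hp).2.2 e he

/-- `P` and `R` can be recovered: `P` is the set of all `b \ s`, `b` a block containing `s`. -/
theorem add_inj {r : ℕ} {S : Finset (Finset V)} {s : Finset V}
    {P P' : Finset (Finset V)} {K : ℕ} (hP : P ∈ matchings (alw S s) K)
    (hP' : P' ∈ matchings (alw S s) K)
    {R R' : Finset (Finset V)} (hR : R ∈ Fam r (insert s S)) (hR' : R' ∈ Fam r (insert s S))
    (h : R ∪ P.image (fun p => s ∪ p) = R' ∪ P'.image (fun p => s ∪ p)) :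
    P = P' ∧ R = R' := by
  rw [mem_fam] at hR hR'
  have key : ∀ {Q : Finset (Finset V)} {Y : Finset (Finset V)}, Avoids (insert s S) Y →
      (Y ∪ Q.image (fun p => s ∪ p)).filter (fun b => s ⊆ b) = Q.image (fun p => s ∪ p) ∧
      (Y ∪ Q.image (fun p => s ∪ p)).filter (fun b => ¬ s ⊆ b) = Y := by
    intro Q Y hY
    have hYs : ∀ b ∈ Y, ¬ s ⊆ b := fun b hb => hY s (mem_insert_self _ _) b hb
    have hQs : ∀ b ∈ Q.image (fun p => s ∪ p), s ⊆ b := by
      intro b hb
      obtain ⟨p, hp, rfl⟩ := mem_image.1 hb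
      exact subset_union_left
    constructor
    · rw [filter_union, filter_false_of_mem hYs, filter_true_of_mem hQs, empty_union]
    · rw [filter_union, filter_true_of_mem hYs, filter_false_of_mem fun b hb h => h (hQs b hb), union_empty]
  have k1 := key (Q := P) hR.2
  have k2 := key (Q := P') hR'.2
  rw [h] at k1
  have e1 : P.image (fun p => s ∪ p) = P'.image (fun p => s ∪ p) := k1.1.symm.trans k2.1
  refine ⟨?_, k1.2.symm.trans k2.2⟩
  have hrec : ∀ {Q : Finset (Finset V)}, Q ∈ matchings (alw S s) K →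
      (Q.image (fun p => s ∪ p)).image (fun b => b \ s) = Q := by
    intro Q hQ
    rw [image_image]
    ext p
    rw [mem_image]
    constructor
    · rintro ⟨q, hq, rfl⟩
      rw [Function.comp_apply, sdiff_union1 (mem_match1 hQ hq).2.1]
      exact hq
    · intro hp
      exact ⟨p, hp, by rw [Function.comp_apply, sdiff_union1 (mem_match1 hQ hp).2.1]⟩
  rw [← hrec hP, e1, hrec hP']

end Pool.Agent.Helper41.R7
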