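/-
MP_e8bc6f_co, project R7, block R7-STAB (stability of the number of options under removal).
-/
import Pool.Agent.Helper41.R7.OPT

set_option autoImplicit false
set_option linter.unusedVariables false

namespace Pool.Agent.Helper41.R7

open Finset

variable {V : Type*} [Fintype V] [DecidableEq V]

/-- Uncovering `t'` changes the number of options for `t` by at most the factor `H + 2`.

Proof.  If `t'` is not covered nothing changes.  Let `β' = blk B t'`.  If `t` is not covered in `B`
it is not covered afterwards (`cov_rem`), both numbers are `1`.  Let `β = blk B t`.  If `β = β'` then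
`a' ∈ t` by hypothesis, so `t` is not covered in `R = rem r a' B t'` (its only block is replaced by
`β.erase a'`), and the left side is `1 ≤ zeta` (`one_le_zeta`).  If `β ≠ β'` then `β` is still the
block of `t` in `R`; with `B0 = rem r a B t`, `R0 = rem r a R t`, `R0` is obtained from `B0` by
replacing `β'` by `β'.erase a'` (or deleting it).  Let `b` be an option in `R0` but not in `B0`.
Then (i) `b.erase a` is a block of `R0` and not of `B0`, so `b.erase a = β'.erase a'` and `b` is
`insert a (β'.erase a')`, one possibility; or (ii) `b.card = r` and `b.erase a` is covered in `B0`,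
not in `R0`, so `b.erase a ⊆ β'`; or (iii) some `u ⊆ b` with `r - 1` elements, `a ∈ u`, is covered in
`B0` and not in `R0`, so `u ⊆ β'`.  In (ii), (iii) `b ∩ β'` contains an `(r-1)`-set `u`, and `u ≠ t`
as `t ⊄ β'` (`pack_uniq`), so `b ∩ β'` is not contained in `t`; by `opt_inter_le` (in `R0`, with
`X = β'`) there are at most `|β'| ≤ H` such `b`.  So `zeta R ≤ zeta B + H + 1 ≤ (H + 2) zeta B`. -/
theorem zeta_rem {r H : ℕ} {S B : Finset (Finset V)} (hB : B ∈ Fam r S) (hH : Bdd H B)
    {a a' : V} {t t' : Finset V} (ht : t.card + 1 = r) (ht' : t'.card + 1 = r)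
    (ha : a ∈ t) (ha' : a' ∈ t') (hs : ∀ b ∈ B, t ⊆ b → t' ⊆ b → a' ∈ t) :
    zeta r S a (rem r a' B t') t ≤ (H + 2) * zeta r S a B t := by
  classical
  have hz1 := one_le_zeta (a := a) hB ht ha
  obtain ⟨hP, hA⟩ := mem_fam.1 hB
  by_cases hc' : Cov B t'
  swap
  · have : rem r a' B t' = B := by unfold rem; rw [if_neg hc']
    rw [this]
    nlinarith
  set R := rem r a' B t' with hRdef
  set β' := blk B t' with hβ'
  obtain ⟨hβB', htβ'⟩ := blk_mem hc'
  rw [← hβ'] at hβB' htβ'
  have hR : ∀ c, c ∈ R ↔ (c ≠ β' ∧ c ∈ B) ∨ (r < β'.card ∧ c = β'.erase a') := by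
    intro c
    rw [hRdef]
    unfold rem
    rw [if_pos hc', ← hβ', mem_strip1]
  by_cases hcR : Cov R t
  swap
  · have : zeta r S a R t = 1 := by unfold zeta; rw [if_neg hcR]
    rw [this]
    nlinarith
  have hcB : Cov B t := cov_rem hcR
  set β := blk B t with hβ
  obtain ⟨hβB, htβ⟩ := blk_mem hcB
  rw [← hβ] at hβB htβ
  have hne : β ≠ β' := by
    intro h
    have ha't : a' ∈ t := hs β hβB htβ (by rw [h]; exact htβ')
    obtain ⟨c, hcm, htc⟩ := hcR
    rcases (hR c).1 hcm with ⟨h1, h2⟩ | ⟨h1, h2⟩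
    · exact h1 ((pack_uniq hP h2 hβB (by omega) htc htβ).trans h)
    · have := htc ha't
      rw [h2] at this
      simp at this
  have hRfam : R ∈ Fam r S := rem_mem hB a' t'
  have hRP := (mem_fam.1 hRfam).1
  have hβR : β ∈ R := (hR β).2 (Or.inl ⟨hne, hβB⟩)
  have hblkR : blk R t = β := blk_eq hRP hβR (by omega) htβ
  have hR0 : ∀ c, c ∈ rem r a R t ↔ (c ≠ β ∧ c ∈ R) ∨ (r < β.card ∧ c = β.erase a) := by
    intro c
    unfold rem
    rw [if_pos hcR, hblkR, mem_strip1]
  have hB0 : ∀ c, c ∈ rem r a B t ↔ (c ≠ β ∧ c ∈ B) ∨ (r < β.card ∧ c = β.erase a) := by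
    intro c
    unfold rem
    rw [if_pos hcB, ← hβ, mem_strip1]
  have hRB : ∀ c, c ∈ rem r a R t → c ∈ rem r a B t ∨ c = β'.erase a' := by
    intro c hc
    rcases (hR0 c).1 hc with ⟨h1, h2⟩ | h
    · rcases (hR c).1 h2 with ⟨h3, h4⟩ | ⟨h3, h4⟩
      · exact Or.inl ((hB0 c).2 (Or.inl ⟨h1, h4⟩))
      · exact Or.inr h4
    · exact Or.inl ((hB0 c).2 (Or.inr h))
  have hBR : ∀ c, c ∈ rem r a B t → c ∈ rem r a R t ∨ c = β' := by
    intro c hc
    by_cases hcβ : c = β'
    · exact Or.inr hcβ
    left
    rcases (hB0 c).1 hc with ⟨h1, h2⟩ | h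
    · exact (hR0 c).2 (Or.inl ⟨h1, (hR c).2 (Or.inl ⟨hcβ, h2⟩)⟩)
    · exact (hR0 c).2 (Or.inr h)
  have hsub : Opt r S a t (rem r a R t) ⊆ insert (insert a (β'.erase a'))
      (Opt r S a t (rem r a B t) ∪
        (Opt r S a t (rem r a R t)).filter (fun b => ¬ b ∩ β' ⊆ t)) := by
    intro b hb
    rw [mem_insert, mem_union, mem_filter]
    by_cases h1 : b = insert a (β'.erase a')
    · exact Or.inl h1
    by_cases h2 : b ∩ β' ⊆ t
    swap
    · exact Or.inr (Or.inr ⟨hb, h2⟩)
    right; left
    rw [mem_opt] at hb ⊢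
    obtain ⟨htb, hb1, hb2, hb3⟩ := hb
    have hab : a ∈ b := htb ha
    have hcard : (b.erase a).card + 1 = b.card := by
      rw [card_erase_of_mem hab]
      have : 0 < b.card := card_pos.2 ⟨a, hab⟩
      omega
    refine ⟨htb, ?_, ?_, hb3⟩
    · rcases hb1 with h | ⟨h, h'⟩
      · rcases hRB _ h with h3 | h3
        · exact Or.inl h3
        · exfalso
          apply h1
          rw [← h3, insert_erase hab]
      · right
        refine ⟨h, ?_⟩
        rintro ⟨c, hc, hsubc⟩
        rcases hBR c hc with h3 | h3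
        · exact h' ⟨c, h3, hsubc⟩
        · have h4 : b.erase a ⊆ t := by
            refine (subset_inter (erase_subset _ _) ?_).trans h2
            rw [← h3]; exact hsubc
          have h5 : b.erase a = t := eq_of_subset_of_card_le h4 (by omega)
          rw [← h5] at ha
          simp at ha
    · intro u hub hur hau
      rintro ⟨c, hc, hsubc⟩
      rcases hBR c hc with h3 | h3
      · exact hb2 u hub hur hau ⟨c, h3, hsubc⟩
      · have h4 : u ⊆ t := by
          refine (subset_inter hub ?_).trans h2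
          rw [← h3]; exact hsubc
        have h5 : u = t := eq_of_subset_of_card_le h4 (by omega)
        apply hne
        refine pack_uniq hP hβB hβB' (t := t) (by omega) htβ ?_
        rw [← h5, ← h3]; exact hsubc
  have hR0P : IsPack r (rem r a R t) := (mem_fam.1 (rem_mem hRfam a t)).1
  have h1 := card_le_card hsub
  have h2 := card_insert_le (insert a (β'.erase a')) (Opt r S a t (rem r a B t) ∪
        (Opt r S a t (rem r a R t)).filter (fun b => ¬ b ∩ β' ⊆ t))
  have h3 := card_union_le (Opt r S a t (rem r a B t))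
    ((Opt r S a t (rem r a R t)).filter (fun b => ¬ b ∩ β' ⊆ t))
  have h4 := opt_inter_le (S := S) hR0P ht ha β'
  have h5 : (β' \ t).card ≤ H := (card_le_card sdiff_subset).trans (hH β' hβB')
  have h6 : zeta r S a R t = (Opt r S a t (rem r a R t)).card := by
    unfold zeta; rw [if_pos hcR]
  have h7 : zeta r S a B t = (Opt r S a t (rem r a B t)).card := by
    unfold zeta; rw [if_pos hcB]
  rw [← h7] at h3
  rw [h6]
  have h8 : (Opt r S a t (rem r a R t)).card ≤ zeta r S a B t + H + 1 := by omega
  nlinarith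

end Pool.Agent.Helper41.R7
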