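/-
MP_e8bc6f_co, project R7, block R7-REM (weighted count of removals).
-/
import Pool.Agent.Helper41.R7.STAB

set_option autoImplicit false

namespace Pool.Agent.Helper41.R7

open Finset

variable {V : Type*} [Fintype V] [DecidableEq V]

theorem remL_mem {r : ℕ} {S : Finset (Finset V)} (ts : List (Finset V × V))
    {B : Finset (Finset V)} (hB : B ∈ Fam r S) : remL r ts B ∈ Fam r S := by
  induction ts generalizing B with
  | nil => exact hB
  | cons q ts ih => exact ih (rem_mem hB q.2 q.1)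

theorem cov_remL {r : ℕ} (ts : List (Finset V × V)) {B : Finset (Finset V)} {u : Finset V}
    (h : Cov (remL r ts B) u) : Cov B u := by
  induction ts generalizing B with
  | nil => exact h
  | cons q ts ih => exact cov_rem (ih h)

theorem remL_unc {r : ℕ} {S : Finset (Finset V)} (ts : List (Finset V × V))
    (hts : ∀ q ∈ ts, q.1.card + 1 = r ∧ q.2 ∈ q.1) {B : Finset (Finset V)} (hB : B ∈ Fam r S) :
    ∀ q ∈ ts, ¬ Cov (remL r ts B) q.1 := by
  induction ts generalizing B with
  | nil => intro q hq; exact absurd hq (List.not_mem_nil)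
  | cons q0 ts ih =>
    intro q hq
    rcases List.mem_cons.1 hq with h | h
    · subst h
      intro hc
      have h1 := hts q hq
      exact rem_unc (mem_fam.1 hB).1 h1.1 h1.2 (cov_remL ts hc)
    · exact ih (fun q hq => hts q (List.mem_cons_of_mem _ hq)) (rem_mem hB q0.2 q0.1) q h

/-- Removing one set.  Group the `B ∈ 𝒟` by `R = rem r a B t`.  If `t` is not covered in `B` then
`B = R` and the weight is `1`.  The `B` with `t` covered and `rem r a B t = R` are the `ins a R b`,
`b ∈ Opt r S a t R` (`ins_rem`), and have weight `1 / (Opt r S a t R).card`.  So each `R` has total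
weight at most `2`. -/
theorem rem_sum_one {r : ℕ} {S : Finset (Finset V)} {a : V} {t : Finset V}
    (ht : t.card + 1 = r) (ha : a ∈ t) (𝒟 : Finset (Finset (Finset V)))
    (h𝒟 : ∀ B ∈ 𝒟, B ∈ Fam r S) (w : Finset (Finset V) → ℝ) (hw : ∀ R, 0 ≤ w R) :
    ∑ B ∈ 𝒟, (1 / (zeta r S a B t : ℝ)) * w (rem r a B t) ≤
      2 * ∑ R ∈ 𝒟.image (fun B => rem r a B t), w R := by
  rw [← Finset.sum_fiberwise_of_maps_to (g := fun B => rem r a B t) (t := 𝒟.image (fun B => rem r a B t))
    (fun B hB => mem_image_of_mem _ hB), Finset.mul_sum]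
  refine Finset.sum_le_sum fun R _ => ?_
  have h1 : ∑ B ∈ 𝒟 with rem r a B t = R, (1 / (zeta r S a B t : ℝ)) * w (rem r a B t) =
      (∑ B ∈ 𝒟 with rem r a B t = R, (1 / (zeta r S a B t : ℝ))) * w R := by
    rw [Finset.sum_mul]
    refine Finset.sum_congr rfl fun B hB => ?_
    rw [(mem_filter.1 hB).2]
  rw [h1]
  refine mul_le_mul_of_nonneg_right ?_ (hw R)
  set A := 𝒟.filter (fun B => rem r a B t = R) with hA
  rw [← Finset.sum_filter_add_sum_filter_not A (fun B => Cov B t)]
  have h2 : ∑ B ∈ A.filter (fun B => Cov B t), (1 / (zeta r S a B t : ℝ)) ≤ 1 := by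
    have hcard : (A.filter (fun B => Cov B t)).card ≤ (Opt r S a t R).card := by
      refine Finset.card_le_card_of_injOn (fun B => blk B t) ?_ ?_
      · intro B hB
        obtain ⟨hB1, hB2⟩ := mem_filter.1 (mem_coe.1 hB)
        obtain ⟨hB3, hB4⟩ := mem_filter.1 hB1
        have := (ins_rem (h𝒟 B hB3) ht ha hB2).1
        rw [hB4] at this
        exact mem_coe.2 this
      · intro B hB B' hB' hBB
        obtain ⟨hB1, hB2⟩ := mem_filter.1 (mem_coe.1 hB)
        obtain ⟨hB3, hB4⟩ := mem_filter.1 hB1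
        obtain ⟨hB1', hB2'⟩ := mem_filter.1 (mem_coe.1 hB')
        obtain ⟨hB3', hB4'⟩ := mem_filter.1 hB1'
        have e1 := (ins_rem (h𝒟 B hB3) ht ha hB2).2
        have e2 := (ins_rem (h𝒟 B' hB3') ht ha hB2').2
        simp only at hBB
        rw [hB4] at e1
        rw [hB4'] at e2
        rw [← e1, ← e2, hBB]
    have hz : ∀ B ∈ A.filter (fun B => Cov B t), (1 / (zeta r S a B t : ℝ)) = 1 / ((Opt r S a t R).card : ℝ) := by
      intro B hB
      obtain ⟨hB1, hB2⟩ := mem_filter.1 hB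
      obtain ⟨hB3, hB4⟩ := mem_filter.1 hB1
      unfold zeta
      rw [if_pos hB2, hB4]
    rw [Finset.sum_congr rfl hz, Finset.sum_const, nsmul_eq_mul]
    rcases Nat.eq_zero_or_pos (Opt r S a t R).card with h0 | h0
    · rw [h0] at hcard ⊢
      simp
    · rw [mul_one_div, div_le_one (by exact_mod_cast h0)]
      exact_mod_cast hcard
  have h3 : ∑ B ∈ A.filter (fun B => ¬ Cov B t), (1 / (zeta r S a B t : ℝ)) ≤ 1 := by
    have hsub : A.filter (fun B => ¬ Cov B t) ⊆ {R} := by
      intro B hB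
      obtain ⟨hB1, hB2⟩ := mem_filter.1 hB
      obtain ⟨hB3, hB4⟩ := mem_filter.1 hB1
      rw [mem_singleton, ← hB4]
      unfold rem
      rw [if_neg hB2]
    calc ∑ B ∈ A.filter (fun B => ¬ Cov B t), (1 / (zeta r S a B t : ℝ))
        = ∑ B ∈ A.filter (fun B => ¬ Cov B t), (1 : ℝ) := by
          refine Finset.sum_congr rfl fun B hB => ?_
          unfold zeta
          rw [if_neg (mem_filter.1 hB).2]
          norm_num
      _ = ((A.filter (fun B => ¬ Cov B t)).card : ℝ) := by simp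
      _ ≤ 1 := by
          have := card_le_card hsub
          rw [card_singleton] at this
          exact_mod_cast this
  linarith

private theorem prod_le_61 {α : Type*} (l : List α) (f g : α → ℝ) (c : ℝ) (hc : 0 ≤ c)
    (hf : ∀ x ∈ l, 0 ≤ f x) (hg : ∀ x ∈ l, 0 ≤ g x) (h : ∀ x ∈ l, f x ≤ c * g x) :
    0 ≤ (l.map f).prod ∧ 0 ≤ (l.map g).prod ∧ (l.map f).prod ≤ c ^ l.length * (l.map g).prod := by
  induction l with
  | nil => simp
  | cons x l ih =>
    obtain ⟨h1, h2, h3⟩ := ih (fun y hy => hf y (List.mem_cons_of_mem _ hy))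
      (fun y hy => hg y (List.mem_cons_of_mem _ hy)) (fun y hy => h y (List.mem_cons_of_mem _ hy))
    have k1 := hf x List.mem_cons_self
    have k2 := hg x List.mem_cons_self
    have k3 := h x List.mem_cons_self
    rw [List.map_cons, List.prod_cons, List.map_cons, List.prod_cons, List.length_cons]
    refine ⟨mul_nonneg k1 h1, mul_nonneg k2 h2, ?_⟩
    calc f x * (l.map f).prod ≤ (c * g x) * (c ^ l.length * (l.map g).prod) :=
          mul_le_mul k3 h3 h1 (mul_nonneg hc k2)
      _ = _ := by ring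

/-- Induction on the list: with `R = rem r a B t` for the first pair `(t, a)`,
`zeta R t' ≤ (H + 2) zeta B t'` for the others (`zeta_rem`; the hypothesis `hs` is used for the
blocks of `B`, which avoid `S`), then `rem_sum_one`, then the induction hypothesis for
`𝒟.image (fun B => rem r a B t)` (`rem_mem`, `rem_bdd`), whose image under `remL r ts'` is
`𝒟.image (remL r ts)`. -/
theorem rem_sum {r H : ℕ} {S : Finset (Finset V)} (ts : List (Finset V × V))
    (hts : ∀ q ∈ ts, q.1.card + 1 = r ∧ q.2 ∈ q.1)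
    (hs : ∀ b : Finset V, (∀ e ∈ S, ¬ e ⊆ b) → ∀ q ∈ ts, ∀ q' ∈ ts, q.1 ⊆ b → q'.1 ⊆ b →
      q'.2 ∈ q.1)
    (𝒟 : Finset (Finset (Finset V))) (h𝒟 : ∀ B ∈ 𝒟, B ∈ Fam r S ∧ Bdd H B) :
    ∑ B ∈ 𝒟, (ts.map (fun q => 1 / (zeta r S q.2 B q.1 : ℝ))).prod ≤
      2 ^ ts.length * ((H : ℝ) + 2) ^ (ts.length ^ 2) * (𝒟.image (remL r ts)).card := by
  induction ts generalizing 𝒟 with
  | nil =>
    have h1 : 𝒟.image (remL r ([] : List (Finset V × V))) = 𝒟 := by
      have : remL r ([] : List (Finset V × V)) = id := by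
        funext B; rfl
      rw [this, image_id]
    rw [h1]
    simp
  | cons q ts ih =>
    have hq := hts q List.mem_cons_self
    have hts' : ∀ q' ∈ ts, q'.1.card + 1 = r ∧ q'.2 ∈ q'.1 := fun q' hq' => hts q' (List.mem_cons_of_mem _ hq')
    have hH2 : (1 : ℝ) ≤ (H : ℝ) + 2 := by
      have : (0 : ℝ) ≤ H := by positivity
      linarith
    have hz0 : ∀ (B : Finset (Finset V)) (q' : Finset V × V), (0 : ℝ) ≤ 1 / (zeta r S q'.2 B q'.1 : ℝ) :=
      fun B q' => by positivity
    set w : Finset (Finset V) → ℝ := fun R => (ts.map (fun q' => 1 / (zeta r S q'.2 R q'.1 : ℝ))).prod with hw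
    have hcmp : ∀ B ∈ 𝒟, (ts.map (fun q' => 1 / (zeta r S q'.2 B q'.1 : ℝ))).prod ≤
        ((H : ℝ) + 2) ^ ts.length * w (rem r q.2 B q.1) := by
      intro B hB
      refine (prod_le_61 ts _ _ ((H : ℝ) + 2) (by linarith) (fun q' _ => hz0 B q')
        (fun q' _ => hz0 (rem r q.2 B q.1) q') ?_).2.2
      intro q' hq'
      have hBF := (h𝒟 B hB).1
      have k1 := zeta_rem hBF (h𝒟 B hB).2 (hts' q' hq').1 hq.1 (hts' q' hq').2 hq.2
        (fun b hb h1 h2 => hs b (fun e he => (mem_fam.1 hBF).2 e he b hb) q' (List.mem_cons_of_mem _ hq')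
          q List.mem_cons_self h1 h2)
      have k2 := one_le_zeta hBF (hts' q' hq').1 (hts' q' hq').2
      have k3 := one_le_zeta (rem_mem hBF q.2 q.1) (hts' q' hq').1 (hts' q' hq').2
      have k1' : (zeta r S q'.2 (rem r q.2 B q.1) q'.1 : ℝ) ≤ ((H : ℝ) + 2) * zeta r S q'.2 B q'.1 := by
        exact_mod_cast k1
      have k2' : (0 : ℝ) < zeta r S q'.2 B q'.1 := by exact_mod_cast k2
      have k3' : (0 : ℝ) < zeta r S q'.2 (rem r q.2 B q.1) q'.1 := by exact_mod_cast k3
      rw [mul_one_div, div_le_div_iff₀ k2' k3', one_mul]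
      exact k1'
    have hone := rem_sum_one (S := S) hq.1 hq.2 𝒟 (fun B hB => (h𝒟 B hB).1) w (fun R => by
      simp only [hw]
      exact (prod_le_61 ts _ (fun q' => 1 / (zeta r S q'.2 R q'.1 : ℝ)) 1 zero_le_one (fun q' _ => hz0 R q')
        (fun q' _ => hz0 R q') (fun q' _ => by rw [one_mul])).1)
    have hih := ih hts' (fun b hb q1 hq1 q2 hq2 => hs b hb q1 (List.mem_cons_of_mem _ hq1) q2
      (List.mem_cons_of_mem _ hq2)) (𝒟.image (fun B => rem r q.2 B q.1)) (by
        intro R hR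
        obtain ⟨B, hB, rfl⟩ := mem_image.1 hR
        exact ⟨rem_mem (h𝒟 B hB).1 _ _, rem_bdd (h𝒟 B hB).2 _ _⟩)
    have himg : (𝒟.image (fun B => rem r q.2 B q.1)).image (remL r ts) = 𝒟.image (remL r (q :: ts)) := by
      rw [image_image]
      rfl
    rw [himg] at hih
    have hlen : (q :: ts).length = ts.length + 1 := rfl
    calc ∑ B ∈ 𝒟, ((q :: ts).map (fun q' => 1 / (zeta r S q'.2 B q'.1 : ℝ))).prod
        ≤ ∑ B ∈ 𝒟, ((H : ℝ) + 2) ^ ts.length * ((1 / (zeta r S q.2 B q.1 : ℝ)) * w (rem r q.2 B q.1)) := by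
          refine Finset.sum_le_sum fun B hB => ?_
          rw [List.map_cons, List.prod_cons]
          calc 1 / (zeta r S q.2 B q.1 : ℝ) * (ts.map (fun q' => 1 / (zeta r S q'.2 B q'.1 : ℝ))).prod
              ≤ 1 / (zeta r S q.2 B q.1 : ℝ) * (((H : ℝ) + 2) ^ ts.length * w (rem r q.2 B q.1)) :=
                mul_le_mul_of_nonneg_left (hcmp B hB) (hz0 B q)
            _ = _ := by ring
      _ = ((H : ℝ) + 2) ^ ts.length * ∑ B ∈ 𝒟, ((1 / (zeta r S q.2 B q.1 : ℝ)) * w (rem r q.2 B q.1)) := by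
          rw [Finset.mul_sum]
      _ ≤ ((H : ℝ) + 2) ^ ts.length * (2 * ∑ R ∈ 𝒟.image (fun B => rem r q.2 B q.1), w R) :=
          mul_le_mul_of_nonneg_left hone (by positivity)
      _ ≤ ((H : ℝ) + 2) ^ ts.length * (2 * (2 ^ ts.length * ((H : ℝ) + 2) ^ (ts.length ^ 2) *
            (𝒟.image (remL r (q :: ts))).card)) :=
          mul_le_mul_of_nonneg_left (mul_le_mul_of_nonneg_left hih (by norm_num)) (by positivity)
      _ = 2 ^ (ts.length + 1) * ((H : ℝ) + 2) ^ (ts.length + ts.length ^ 2) *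
            (𝒟.image (remL r (q :: ts))).card := by rw [pow_add ((H : ℝ) + 2)]; ring
      _ ≤ 2 ^ (q :: ts).length * ((H : ℝ) + 2) ^ ((q :: ts).length ^ 2) *
            (𝒟.image (remL r (q :: ts))).card := by
          rw [hlen]
          refine mul_le_mul_of_nonneg_right ?_ (by positivity)
          refine mul_le_mul_of_nonneg_left ?_ (by positivity)
          exact pow_le_pow_right₀ hH2 (by nlinarith)

end Pool.Agent.Helper41.R7
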