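/-
MP_e8bc6f_co, project R7, block R7-CLOSE2 (closing moves at an avoided (r-2)-set).
-/
import Pool.Agent.Helper41.R7.REM
import Pool.Agent.Helper41.R7.CLOSE1

set_option autoImplicit false

namespace Pool.Agent.Helper41.R7

open Finset

variable {V : Type*} [Fintype V] [DecidableEq V]

/-- the list of the sets which are uncovered -/
private noncomputable def tsL50 (s : Finset V) (a c : V) (P : Finset (Finset V)) :
    List (Finset V × V) :=
  (P ×ˢ s).toList.map fun q => (s.erase q.2 ∪ q.1, if q.2 = a then c else a)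

private theorem mem_tsL50 {s : Finset V} {a c : V} {P : Finset (Finset V)} {q : Finset V × V} :
    q ∈ tsL50 s a c P ↔ ∃ p ∈ P, ∃ x ∈ s, q = (s.erase x ∪ p, if x = a then c else a) := by
  unfold tsL50
  rw [List.mem_map]
  constructor
  · rintro ⟨y, hy, rfl⟩
    rw [Finset.mem_toList, Finset.mem_product] at hy
    exact ⟨y.1, hy.1, y.2, hy.2, rfl⟩
  · rintro ⟨p, hp, x, hx, rfl⟩
    exact ⟨(p, x), by rw [Finset.mem_toList, Finset.mem_product]; exact ⟨hp, hx⟩, rfl⟩

private theorem mem_match50 {E : Finset (Finset V)} {K : ℕ} {P : Finset (Finset V)}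
    (hP : P ∈ matchings E K) : P ⊆ E ∧ P.card = K := by
  unfold matchings at hP
  rw [Finset.mem_filter, Finset.mem_powersetCard] at hP
  exact hP.1

private theorem mem_alw50 {S : Finset (Finset V)} {s p : Finset V} (hp : p ∈ alw S s) :
    p.card = 2 ∧ Disjoint p s ∧ ∀ e ∈ S, ¬ e ⊆ s ∪ p := by
  unfold alw at hp
  exact (Finset.mem_filter.1 hp).2

private theorem ts_ok50 {r : ℕ} {S : Finset (Finset V)} {s : Finset V}
    (hs : s.card + 2 = r) {a c : V} (ha : a ∈ s) (hc : c ∈ s) (hac : a ≠ c) {K : ℕ}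
    {P : Finset (Finset V)} (hP : P ∈ matchings (alw S s) K) :
    ∀ q ∈ tsL50 s a c P, q.1.card + 1 = r ∧ q.2 ∈ q.1 := by
  intro q hq
  obtain ⟨p, hp, x, hx, rfl⟩ := mem_tsL50.1 hq
  obtain ⟨h1, h2, -⟩ := mem_alw50 ((mem_match50 hP).1 hp)
  refine ⟨?_, ?_⟩
  · have h3 : Disjoint (s.erase x) p := (h2.mono_right (Finset.erase_subset _ _)).symm
    have h4 : 0 < s.card := Finset.card_pos.2 ⟨x, hx⟩
    simp only
    rw [Finset.card_union_of_disjoint h3, Finset.card_erase_of_mem hx, h1]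
    omega
  · simp only
    apply Finset.mem_union_left
    split_ifs with h
    · rw [h]
      exact Finset.mem_erase.2 ⟨hac.symm, hc⟩
    · exact Finset.mem_erase.2 ⟨fun h' => h h'.symm, ha⟩

private theorem ts_hs50 {S : Finset (Finset V)} {s : Finset V} {a c : V} (ha : a ∈ s)
    (hc : c ∈ s) (hac : a ≠ c) {P : Finset (Finset V)} :
    ∀ b : Finset V, (∀ e ∈ insert s S, ¬ e ⊆ b) → ∀ q ∈ tsL50 s a c P, ∀ q' ∈ tsL50 s a c P,
      q.1 ⊆ b → q'.1 ⊆ b → q'.2 ∈ q.1 := by
  intro b hb q hq q' hq' h1 h2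
  obtain ⟨p, hp, x, hx, rfl⟩ := mem_tsL50.1 hq
  obtain ⟨p', hp', x', hx', rfl⟩ := mem_tsL50.1 hq'
  have hxx : x = x' := by
    by_contra hne
    apply hb s (Finset.mem_insert_self _ _)
    intro y hy
    by_cases hyx : y = x
    · apply h2
      apply Finset.mem_union_left
      rw [hyx]
      exact Finset.mem_erase.2 ⟨hne, hx⟩
    · apply h1
      apply Finset.mem_union_left
      exact Finset.mem_erase.2 ⟨hyx, hy⟩
  subst hxx
  simp only
  apply Finset.mem_union_left
  split_ifs with h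
  · rw [h]
    exact Finset.mem_erase.2 ⟨hac.symm, hc⟩
  · exact Finset.mem_erase.2 ⟨fun h' => h h'.symm, ha⟩

/-- Closing.  For fixed `P` apply `rem_sum` (with `insert s S`) to the list `ts` of all
`(s.erase x ∪ p, if x = a then c else a)`, `x ∈ s`, `p ∈ P` (length `K (r-2) ≤ K r`); the hypothesis
`hs` of `rem_sum` holds since a set `b` which contains `s.erase x ∪ p` and `s.erase x' ∪ p'` and does
not contain `s` has `x = x'`.  The image of `𝒟` under `remL r ts` is mapped injectively into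
`Fam r S` by `R ↦ R ∪ P.image (s ∪ ·)` (`remL_unc`, `add_mem`), and for different `P` the images are
disjoint (`add_inj`), so the sum over `P` of the numbers `(𝒟.image (remL r ts)).card` is at most
`(Fam r S).card`. -/
theorem close_sum {r : ℕ} (hr : 4 ≤ r) {S : Finset (Finset V)} {s : Finset V}
    (hs : s.card + 2 = r) {a c : V} (ha : a ∈ s) (hc : c ∈ s) (hac : a ≠ c) (K H : ℕ)
    (𝒟 : Finset (Finset (Finset V))) (h𝒟 : ∀ B ∈ 𝒟, B ∈ Fam r (insert s S) ∧ Bdd H B) :
    ∑ B ∈ 𝒟, ∑ P ∈ matchings (alw S s) K, ∏ p ∈ P, ∏ x ∈ s,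
      (1 / (zeta r (insert s S) (if x = a then c else a) B (s.erase x ∪ p) : ℝ)) ≤
      (2 * ((H : ℝ) + 2) ^ (K * r)) ^ (K * r) * (Fam r S).card := by
  have hN : ∀ P ∈ matchings (alw S s) K, (tsL50 s a c P).length ≤ K * r := by
    intro P hP
    unfold tsL50
    rw [List.length_map, Finset.length_toList, Finset.card_product, (mem_match50 hP).2]
    exact Nat.mul_le_mul_left _ (by omega)
  have hH1 : (1 : ℝ) ≤ (H : ℝ) + 2 := by
    have : (0 : ℝ) ≤ H := Nat.cast_nonneg H
    linarith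
  have h1 : ∀ P ∈ matchings (alw S s) K, ∑ B ∈ 𝒟, ∏ p ∈ P, ∏ x ∈ s,
      (1 / (zeta r (insert s S) (if x = a then c else a) B (s.erase x ∪ p) : ℝ)) ≤
      (2 * ((H : ℝ) + 2) ^ (K * r)) ^ (K * r) * (𝒟.image (remL r (tsL50 s a c P))).card := by
    intro P hP
    have h2 := rem_sum (r := r) (H := H) (S := insert s S) (tsL50 s a c P)
      (ts_ok50 hs ha hc hac hP) (ts_hs50 ha hc hac) 𝒟 h𝒟
    have h3 : ∀ B : Finset (Finset V), ((tsL50 s a c P).map
        (fun q => 1 / (zeta r (insert s S) q.2 B q.1 : ℝ))).prod = ∏ p ∈ P, ∏ x ∈ s,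
        (1 / (zeta r (insert s S) (if x = a then c else a) B (s.erase x ∪ p) : ℝ)) := by
      intro B
      unfold tsL50
      rw [List.map_map, Finset.prod_map_toList, Finset.prod_product]
      rfl
    simp only [h3] at h2
    refine h2.trans ?_
    refine mul_le_mul_of_nonneg_right ?_ (Nat.cast_nonneg _)
    rw [mul_pow, ← pow_mul]
    have h4 := hN P hP
    apply mul_le_mul (pow_le_pow_right₀ one_le_two h4) _ (by positivity) (by positivity)
    apply pow_le_pow_right₀ hH1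
    rw [pow_two]
    exact Nat.mul_le_mul h4 h4
  rw [Finset.sum_comm]
  refine (Finset.sum_le_sum h1).trans ?_
  rw [← Finset.mul_sum]
  refine mul_le_mul_of_nonneg_left ?_ (by positivity)
  rw [← Nat.cast_sum, ← Finset.card_sigma]
  norm_cast
  refine Finset.card_le_card_of_injOn
    (fun q : (_ : Finset (Finset V)) × Finset (Finset V) => q.2 ∪ q.1.image fun p => s ∪ p) ?_ ?_
  · rintro ⟨P, R⟩ hq
    rw [Finset.mem_coe, Finset.mem_sigma] at hq
    obtain ⟨hP, hR⟩ := hq
    simp only at hP hR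
    obtain ⟨B, hB, rfl⟩ := Finset.mem_image.1 hR
    rw [Finset.mem_coe]
    have hBF := (h𝒟 B hB).1
    apply add_mem hs hP (remL_mem _ hBF)
    intro x hx p hp
    exact remL_unc (tsL50 s a c P) (ts_ok50 hs ha hc hac hP) hBF
      (s.erase x ∪ p, if x = a then c else a) (mem_tsL50.2 ⟨p, hp, x, hx, rfl⟩)
  · rintro ⟨P, R⟩ hq ⟨P', R'⟩ hq' heq
    rw [Finset.mem_coe, Finset.mem_sigma] at hq hq'
    obtain ⟨hP, hR⟩ := hq
    obtain ⟨hP', hR'⟩ := hq'
    simp only at hP hR hP' hR' heq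
    have hR1 : R ∈ Fam r (insert s S) := by
      obtain ⟨B, hB, rfl⟩ := Finset.mem_image.1 hR
      exact remL_mem _ (h𝒟 B hB).1
    have hR1' : R' ∈ Fam r (insert s S) := by
      obtain ⟨B, hB, rfl⟩ := Finset.mem_image.1 hR'
      exact remL_mem _ (h𝒟 B hB).1
    obtain ⟨e1, e2⟩ := add_inj hP hP' hR1 hR1' heq
    rw [e1, e2]

end Pool.Agent.Helper41.R7
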