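/-
MP_e8bc6f_co, project R7, block R7-ENC1 (greedy generating sets).
-/
import Pool.Agent.Helper41.R7.Defs

set_option autoImplicit false

namespace Pool.Agent.Helper41.R7

open Finset

variable {V : Type*} [Fintype V] [LinearOrder V]

/-- A set no element of which is in the closure of the larger ones is independent. -/
private lemma indep_of_lt67 {M : Matroid V} (hE : M.E = Set.univ) (Z : Finset V) :
    (∀ v ∈ Z, v ∉ M.closure ((Z.filter fun w => v < w : Finset V) : Set V)) →
      M.Indep (Z : Set V) := by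
  induction Z using Finset.induction_on_min with
  | empty =>
    intro _
    rw [coe_empty]
    exact M.empty_indep
  | insert a s ha ih =>
    intro h
    have hs : M.Indep (s : Set V) := by
      apply ih
      intro v hv
      have h1 := h v (mem_insert_of_mem hv)
      rwa [filter_insert, if_neg (not_lt.2 (ha v hv).le)] at h1
    have has : a ∉ s := fun h1 => lt_irrefl _ (ha a h1)
    have h1 := h a (mem_insert_self a s)
    rw [filter_insert, if_neg (lt_irrefl _), filter_true_of_mem fun w hw => ha w hw] at h1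
    rw [coe_insert]
    exact (hs.notMem_closure_iff_of_notMem (by rwa [mem_coe]) (by rw [hE]; trivial)).1 h1

private lemma mem_clK67 {M : Matroid V} {k : ℕ} {X : Finset V} {v : V} :
    v ∈ clK M k X ↔ ∀ Y : Finset V, ClosedK M k Y → X ⊆ Y → v ∈ Y := by
  classical
  unfold clK
  rw [mem_filter]
  exact ⟨fun h => h.2, fun h => ⟨mem_univ _, h⟩⟩

/-- The closure of a small subset of `X` is in `clK X`. -/
private lemma closure_sub_clK67 {M : Matroid V} {k : ℕ} {I X : Finset V} (hI : I ⊆ X)
    (hc : I.card ≤ k) {v : V} (hv : v ∈ M.closure (I : Set V)) : v ∈ clK M k X := by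
  rw [mem_clK67]
  intro Y hY hXY
  exact mem_coe.1 (hY I (hI.trans hXY) hc hv)

private lemma greedy_sub67 (M : Matroid V) (k : ℕ) (F : Finset V) : greedy M k F ⊆ F :=
  filter_subset _ _

theorem closedK_clK (M : Matroid V) (k : ℕ) (X : Finset V) : ClosedK M k (clK M k X) := by
  intro X' hX' hc v hv
  rw [mem_coe, mem_clK67]
  intro Y hY hXY
  have h1 : X' ⊆ Y := fun w hw => (mem_clK67.1 (hX' hw)) Y hY hXY
  exact mem_coe.1 (hY X' h1 hc hv)

theorem subset_clK (M : Matroid V) (k : ℕ) (X : Finset V) : X ⊆ clK M k X := by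
  intro v hv
  rw [mem_clK67]
  exact fun Y _ hXY => hXY hv

theorem clK_min {M : Matroid V} {k : ℕ} {X Y : Finset V} (h : X ⊆ Y) (hY : ClosedK M k Y) :
    clK M k X ⊆ Y := by
  intro v hv
  exact mem_clK67.1 hv Y hY h

theorem closedK_flat {M : Matroid V} (k : ℕ) {F : Finset V}
    (hF : M.closure (F : Set V) = (F : Set V)) : ClosedK M k F := by
  intro X hX _
  rw [← hF]
  exact M.closure_subset_closure (coe_subset.2 hX)

/-- A flat is generated by its greedy set: `⊆` by `clK_min`, `⊇`: by induction on `v ∈ F` (largest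
first) `v ∈ clK (greedy F)`: if `v` is not in the greedy set then `v ∈ clK {w ∈ F | v < w}`. -/
theorem clK_greedy {M : Matroid V} (k : ℕ) {F : Finset V}
    (hF : M.closure (F : Set V) = (F : Set V)) : clK M k (greedy M k F) = F := by
  apply Subset.antisymm
  · exact clK_min (greedy_sub67 M k F) (closedK_flat k hF)
  · intro v
    induction v using WellFoundedGT.induction with
    | ind v ih =>
      intro hv
      by_cases h1 : v ∈ clK M k (F.filter fun w => v < w)
      · refine clK_min ?_ (closedK_clK M k _) h1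
        intro w hw
        rw [mem_filter] at hw
        exact ih w hw.2 hw.1
      · exact subset_clK M k _ (mem_filter.2 ⟨hv, h1⟩)

/-- Small subsets of a greedy set are independent: otherwise let `C ⊆ Z` be a circuit, `v` its
smallest element; `C.erase v` has at most `k` elements and `v ∈ closure (C.erase v)`, so
`v ∈ clK M k {w ∈ F | v < w}`. -/
theorem greedy_indep {M : Matroid V} (hE : M.E = Set.univ) {k : ℕ} {F Z : Finset V}
    (hZ : Z ⊆ greedy M k F) (hc : Z.card ≤ k + 1) : M.Indep (Z : Set V) := by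
  refine indep_of_lt67 hE Z fun v hv h1 => ?_
  have h2 := hZ hv
  unfold greedy at h2
  rw [mem_filter] at h2
  apply h2.2
  refine closure_sub_clK67 (I := Z.filter fun w => v < w) ?_ ?_ h1
  · exact filter_subset_filter _ (hZ.trans (greedy_sub67 M k F))
  · have h3 : (Z.filter fun w => v < w) ⊆ Z.erase v := by
      intro w hw
      rw [mem_filter] at hw
      exact mem_erase.2 ⟨hw.2.ne', hw.1⟩
    have h4 := card_le_card h3
    rw [card_erase_of_mem hv] at h4
    omega

/-- Small subsets of the greedy set of a flat are top: if `v ∈ Z` is in the closure of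
`X = {w ∈ closure Z | v < w} ⊆ F` let `I ⊆ X` be a basis of `X`; `|I| ≤ |Z| ≤ k` and
`v ∈ closure I`, so `v ∈ clK M k {w ∈ F | v < w}`. -/
theorem greedy_top {M : Matroid V} (hE : M.E = Set.univ) {k : ℕ} {F Z : Finset V}
    (hF : M.closure (F : Set V) = (F : Set V)) (hZ : Z ⊆ greedy M k F) (hc : Z.card ≤ k) :
    IsTop M Z := by
  have hind : M.Indep (Z : Set V) := greedy_indep hE hZ (by omega)
  refine ⟨hind, fun v hv h1 => ?_⟩
  have hZF : Z ⊆ F := hZ.trans (greedy_sub67 M k F)
  have hcF : M.closure (Z : Set V) ⊆ (F : Set V) := by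
    rw [← hF]
    exact M.closure_subset_closure (coe_subset.2 hZF)
  obtain ⟨I, hI⟩ := M.exists_isBasis {w | w ∈ M.closure (Z : Set V) ∧ v < w}
    (by rw [hE]; exact Set.subset_univ _)
  obtain ⟨J, hJ⟩ : ∃ J : Finset V, (J : Set V) = I :=
    ⟨(Set.toFinite I).toFinset, (Set.toFinite I).coe_toFinset⟩
  have hJI := hI
  rw [← hJ] at hJI
  have hcard : J.card ≤ Z.card := by
    have h2 : (J : Set V) ⊆ M.closure (Z : Set V) := fun w hw => (hJI.subset hw).1
    have h3 := hJI.indep.encard_le_eRk_of_subset h2
    rw [Matroid.eRk_closure_eq, hind.eRk_eq_encard, Set.encard_coe_eq_coe_finsetCard,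
      Set.encard_coe_eq_coe_finsetCard] at h3
    exact_mod_cast h3
  have h2 := hZ hv
  unfold greedy at h2
  rw [mem_filter] at h2
  apply h2.2
  refine closure_sub_clK67 (I := J) ?_ (hcard.trans hc) ?_
  · intro w hw
    have h3 := hJI.subset (mem_coe.2 hw)
    exact mem_filter.2 ⟨mem_coe.1 (hcF h3.1), h3.2⟩
  · rw [hJI.closure_eq_closure]
    exact h1

/-- Subsets of top sets are top. -/
theorem top_mono {M : Matroid V} {A B : Finset V} (h : A ⊆ B) (hB : IsTop M B) : IsTop M A := by
  refine ⟨hB.1.subset (coe_subset.2 h), fun v hv h1 => ?_⟩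
  apply hB.2 v (h hv)
  refine M.closure_subset_closure ?_ h1
  rintro w ⟨hw1, hw2⟩
  exact ⟨M.closure_subset_closure (coe_subset.2 h) hw1, hw2⟩

/-- A flat has only one top basis. -/
theorem top_uniq {M : Matroid V} (hE : M.E = Set.univ) {A B : Finset V} (hA : IsTop M A)
    (hB : IsTop M B) (h : M.closure (A : Set V) = M.closure (B : Set V)) : A = B := by
  classical
  -- the canonical basis
  have key : ∀ {A : Finset V}, IsTop M A → ∀ v, v ∈ A ↔ v ∈ M.closure (A : Set V) ∧
      v ∉ M.closure {w | w ∈ M.closure (A : Set V) ∧ v < w} := by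
    intro A hA
    obtain ⟨G, hG⟩ : ∃ G : Finset V, G = univ.filter fun v => v ∈ M.closure (A : Set V) ∧
      v ∉ M.closure {w | w ∈ M.closure (A : Set V) ∧ v < w} := ⟨_, rfl⟩
    have hGm : ∀ v, v ∈ G ↔ v ∈ M.closure (A : Set V) ∧
        v ∉ M.closure {w | w ∈ M.closure (A : Set V) ∧ v < w} := by
      intro v
      rw [hG, mem_filter]
      exact ⟨fun h => h.2, fun h => ⟨mem_univ _, h⟩⟩
    have hAG : A ⊆ G := by
      intro v hv
      rw [hGm]
      exact ⟨M.subset_closure _ (by rw [hE]; exact Set.subset_univ _) (mem_coe.2 hv), hA.2 v hv⟩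
    have hGi : M.Indep (G : Set V) := by
      refine indep_of_lt67 hE G fun v hv h1 => ?_
      apply ((hGm v).1 hv).2
      refine M.closure_subset_closure ?_ h1
      intro w hw
      rw [mem_coe, mem_filter] at hw
      exact ⟨((hGm w).1 hw.1).1, hw.2⟩
    have hcard : G.card ≤ A.card := by
      have h2 : (G : Set V) ⊆ M.closure (A : Set V) := fun w hw => ((hGm w).1 (mem_coe.1 hw)).1
      have h3 := hGi.encard_le_eRk_of_subset h2
      rw [Matroid.eRk_closure_eq, hA.1.eRk_eq_encard, Set.encard_coe_eq_coe_finsetCard,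
        Set.encard_coe_eq_coe_finsetCard] at h3
      exact_mod_cast h3
    have hAG' : A = G := eq_of_subset_of_card_le hAG hcard
    intro v
    rw [← hGm, ← hAG']
  ext v
  rw [key hA, key hB, h]

end Pool.Agent.Helper41.R7
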