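/-
MP_e8bc6f_co, project R7, block R7-ENC2 (flats and the family of greedy sets).
-/
import Pool.Agent.Helper41.R7.ENC1
import Pool.Agent.Helper41.R7.BAS

set_option autoImplicit false
set_option linter.unusedSectionVars false

namespace Pool.Agent.Helper41.R7

open Finset

variable {V : Type*} [Fintype V] [LinearOrder V]

/-- Facts on `flats`: a flat of rank `k` is closed; it is the closure of each of its independent
subsets with `k` elements; nested flats of the same rank are equal. -/
theorem flats_closed {M : Matroid V} {k : ℕ} {F : Finset V} (hF : F ∈ flats M k) :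
    M.closure (F : Set V) = (F : Set V) := by
  classical
  unfold flats at hF
  rw [mem_filter] at hF
  obtain ⟨_, I, _, _, h⟩ := hF
  rw [h, Matroid.closure_closure]

theorem flats_span {M : Matroid V} (hE : M.E = Set.univ) {k : ℕ} {F Z : Finset V}
    (hF : F ∈ flats M k) (hZ : Z ⊆ F) (hi : M.Indep (Z : Set V)) (hc : Z.card = k) :
    M.closure (Z : Set V) = (F : Set V) := by
  classical
  have hcl := flats_closed hF
  unfold flats at hF
  rw [mem_filter] at hF
  obtain ⟨_, I, hI, hIi, h⟩ := hF
  have hb : M.IsBasis (I : Set V) (F : Set V) := by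
    rw [h]
    exact hIi.isBasis_closure
  have hFE : (F : Set V) ⊆ M.E := by
    rw [hE]
    exact Set.subset_univ _
  obtain ⟨J, hJ, hZJ⟩ := hi.subset_isBasis_of_subset (show (Z : Set V) ⊆ (F : Set V) from by
    exact_mod_cast hZ) hFE
  have h1 : J.encard = (I : Set V).encard := hJ.encard_eq_encard hb
  have h2 : (Z : Set V) = J := by
    refine (Set.toFinite (Z : Set V)).eq_of_subset_of_encard_le hZJ ?_
    rw [h1, Set.encard_coe_eq_coe_finsetCard, Set.encard_coe_eq_coe_finsetCard, hI, hc]
  rw [h2, hJ.closure_eq_closure, hcl]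

theorem flats_eq {M : Matroid V} (hE : M.E = Set.univ) {k : ℕ} {F F' : Finset V}
    (hF : F ∈ flats M k) (hF' : F' ∈ flats M k) (h : F ⊆ F') : F = F' := by
  classical
  have h' := h
  clear h
  unfold flats at hF
  rw [mem_filter] at hF
  obtain ⟨_, I, hI, hIi, h⟩ := hF
  have hIF : (I : Set V) ⊆ (F : Set V) := by
    rw [h]
    exact M.subset_closure _ (by rw [hE]; exact Set.subset_univ _)
  have hIF' : I ⊆ F' := by
    have : I ⊆ F := by exact_mod_cast hIF
    exact this.trans h'
  have h2 := flats_span hE hF' hIF' hIi hI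
  rw [← h] at h2
  exact_mod_cast h2

/-- The greedy sets of the hyperplanes with at least `r` points form a packing which avoids all
`(r-2)`-sets that are not top: an `(r-2)`-subset of a greedy set is top (`greedy_top`), and if two
greedy sets share `r - 1` points, these are independent (`greedy_indep`) and span both flats. -/
theorem gfam_mem {r i : ℕ} (hi : i + 2 = r) {M : Matroid V} (hE : M.E = Set.univ) :
    gfam M i ∈ Fam r (ntop M i) := by
  classical
  rw [mem_fam]
  refine ⟨⟨?_, ?_⟩, ?_⟩
  · intro b hb
    unfold gfam at hb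
    rw [mem_filter] at hb
    omega
  · intro b hb c hc hbc
    unfold gfam at hb hc
    rw [mem_filter, mem_image] at hb hc
    obtain ⟨⟨F, hF, rfl⟩, _⟩ := hb
    obtain ⟨⟨F', hF', rfl⟩, _⟩ := hc
    by_contra hcon
    have h1 : i + 1 ≤ (greedy M i F ∩ greedy M i F').card := by omega
    obtain ⟨Z, hZ, hZc⟩ := exists_subset_card_eq h1
    have hZ1 : Z ⊆ greedy M i F := hZ.trans inter_subset_left
    have hZ2 : Z ⊆ greedy M i F' := hZ.trans inter_subset_right
    have hi1 : M.Indep (Z : Set V) := greedy_indep hE hZ1 (by omega)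
    have e1 := flats_span hE hF (hZ1.trans (filter_subset _ _)) hi1 hZc
    have e2 := flats_span hE hF' (hZ2.trans (filter_subset _ _)) hi1 hZc
    apply hbc
    have : F = F' := by
      rw [e1] at e2
      exact_mod_cast e2
    rw [this]
  · intro e he b hb heb
    unfold gfam at hb
    rw [mem_filter, mem_image] at hb
    obtain ⟨⟨F, hF, rfl⟩, _⟩ := hb
    unfold ntop at he
    rw [mem_filter] at he
    exact he.2.2 (greedy_top hE (flats_closed hF) heb (by omega))

/-- `gfam M i` consists of sets whose `(i+1)`-subsets are independent, and different members span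
different flats (used for the cost). -/
theorem gfam_spec {M : Matroid V} (hE : M.E = Set.univ) {i : ℕ} {G : Finset V}
    (hG : G ∈ gfam M i) : ∃ F ∈ flats M (i + 1), greedy M i F = G ∧ i + 2 ≤ G.card ∧ G ⊆ F ∧
      ∀ Z ⊆ G, Z.card = i + 1 → M.Indep (Z : Set V) ∧ M.closure (Z : Set V) = (F : Set V) := by
  classical
  unfold gfam at hG
  rw [mem_filter, mem_image] at hG
  obtain ⟨⟨F, hF, rfl⟩, h⟩ := hG
  have hs : greedy M i F ⊆ F := filter_subset _ _
  refine ⟨F, hF, rfl, h, hs, ?_⟩
  intro Z hZ hc
  have hi1 : M.Indep (Z : Set V) := greedy_indep hE hZ (by omega)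
  exact ⟨hi1, flats_span hE hF (hZ.trans hs) hi1 hc⟩

end Pool.Agent.Helper41.R7
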