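/-
MP_e8bc6f_co, project R7, block R7-ENC3 (one step of the decoding).
-/
import Pool.Agent.Helper41.R7.ENC2

set_option autoImplicit false

namespace Pool.Agent.Helper41.R7

open Finset

variable {V : Type*} [Fintype V] [LinearOrder V]

namespace Enc3

omit [Fintype V] [LinearOrder V] in
theorem closure_sub {M M' : Matroid V} (hE : M.E = Set.univ) (hE' : M'.E = Set.univ) {k : ℕ}
    (h : ∀ X : Finset V, X.card ≤ k + 1 → (M.Indep (X : Set V) ↔ M'.Indep (X : Set V)))
    (X : Finset V) (hX : X.card ≤ k) : M.closure (X : Set V) ⊆ M'.closure (X : Set V) := by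
  classical
  obtain ⟨I, hI⟩ := M.exists_isBasis (X : Set V) (by rw [hE]; exact Set.subset_univ _)
  have hsub : ∀ J : Set V, J ⊆ (X : Set V) → ∃ J' : Finset V, (J' : Set V) = J ∧ J' ⊆ X := by
    intro J hJ
    refine ⟨X.filter (fun v => v ∈ J), ?_, Finset.filter_subset _ _⟩
    ext v
    simp only [Finset.coe_filter, Set.mem_ofPred_eq]
    exact ⟨fun h1 => h1.2, fun h1 => ⟨hJ h1, h1⟩⟩
  obtain ⟨I', rfl, hI'X⟩ := hsub I hI.subset
  have hI'c : I'.card ≤ k := (Finset.card_le_card hI'X).trans hX
  have hI'M : M'.Indep (I' : Set V) := (h I' (by omega)).1 hI.indep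
  have hB : M'.IsBasis (I' : Set V) (X : Set V) := by
    rw [Matroid.isBasis_iff (by rw [hE']; exact Set.subset_univ _)]
    refine ⟨hI'M, hI.subset, fun J hJ hIJ hJX => ?_⟩
    obtain ⟨J', rfl, hJ'X⟩ := hsub J hJX
    have hJ'c : J'.card ≤ k := (Finset.card_le_card hJ'X).trans hX
    exact hI.eq_of_subset_indep ((h J' (by omega)).2 hJ) hIJ hJX
  rw [← hI.closure_eq_closure, ← hB.closure_eq_closure]
  intro v hv
  rw [hI.indep.mem_closure_iff'] at hv
  rw [hI'M.mem_closure_iff']
  refine ⟨by rw [hE']; exact Set.mem_univ _, fun h1 => hv.2 ?_⟩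
  rw [← Finset.coe_insert] at h1 ⊢
  exact (h _ ((Finset.card_insert_le _ _).trans (by omega))).2 h1

omit [Fintype V] [LinearOrder V] in
theorem closure_congr {M M' : Matroid V} (hE : M.E = Set.univ) (hE' : M'.E = Set.univ) {k : ℕ}
    (h : ∀ X : Finset V, X.card ≤ k + 1 → (M.Indep (X : Set V) ↔ M'.Indep (X : Set V)))
    (X : Finset V) (hX : X.card ≤ k) : M.closure (X : Set V) = M'.closure (X : Set V) :=
  Set.Subset.antisymm (closure_sub hE hE' h X hX)
    (closure_sub hE' hE (fun Y hY => (h Y hY).symm) X hX)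

theorem clK_congr {M M' : Matroid V} (hE : M.E = Set.univ) (hE' : M'.E = Set.univ) {k : ℕ}
    (h : ∀ X : Finset V, X.card ≤ k + 1 → (M.Indep (X : Set V) ↔ M'.Indep (X : Set V)))
    (F : Finset V) : clK M k F = clK M' k F := by
  classical
  have h1 : ∀ Y, ClosedK M k Y ↔ ClosedK M' k Y := by
    intro Y
    constructor
    · intro h2 X hXY hX
      rw [← closure_congr hE hE' h X hX]
      exact h2 X hXY hX
    · intro h2 X hXY hX
      rw [closure_congr hE hE' h X hX]
      exact h2 X hXY hX
  unfold clK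
  ext v
  simp only [Finset.mem_filter, h1]

theorem mem_flats {M : Matroid V} {k : ℕ} {F : Finset V} : F ∈ flats M k ↔
    ∃ I : Finset V, I.card = k ∧ M.Indep (I : Set V) ∧ (F : Set V) = M.closure (I : Set V) := by
  classical
  unfold flats
  rw [Finset.mem_filter]
  exact ⟨fun h => h.2, fun h => ⟨Finset.mem_univ _, h⟩⟩

omit [Fintype V] [LinearOrder V] in
theorem card_eq {M : Matroid V} {I J : Finset V} (hI : M.Indep (I : Set V))
    (hJ : M.Indep (J : Set V)) (h : M.closure (I : Set V) = M.closure (J : Set V)) :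
    I.card = J.card := by
  have h1 : M.eRk (I : Set V) = M.eRk (J : Set V) := by
    rw [← M.eRk_closure_eq (I : Set V), h, M.eRk_closure_eq]
  rw [hI.eRk_eq_encard, hJ.eRk_eq_encard, Set.encard_coe_eq_coe_finsetCard,
    Set.encard_coe_eq_coe_finsetCard] at h1
  exact_mod_cast h1

/-- The closure, as a finset, of an independent set. -/
theorem exists_flat {M : Matroid V} {k : ℕ} {I : Finset V} (hc : I.card = k)
    (hI : M.Indep (I : Set V)) : ∃ F ∈ flats M k, (F : Set V) = M.closure (I : Set V) := by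
  classical
  refine ⟨univ.filter (fun v => v ∈ M.closure (I : Set V)), ?_, ?_⟩
  · rw [mem_flats]
    refine ⟨I, hc, hI, ?_⟩
    ext v
    simp
  · ext v
    simp

/-- `clK` of a set is contained in its closure. -/
theorem clK_sub {M : Matroid V} (hE : M.E = Set.univ) (k : ℕ) {G F : Finset V}
    (hF : (F : Set V) = M.closure (G : Set V)) : clK M k G ⊆ F := by
  have h1 : M.closure (F : Set V) = (F : Set V) := by
    rw [hF, M.closure_closure]
  refine clK_min ?_ (closedK_flat k h1)
  rw [← Finset.coe_subset, hF]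
  exact M.subset_closure _ (by rw [hE]; exact Set.subset_univ _)

/-- The greedy set of a flat, if it is small, is a basis. -/
theorem small {M : Matroid V} (hE : M.E = Set.univ) {i : ℕ} {F : Finset V}
    (hF : F ∈ flats M (i + 1)) (hs : (greedy M i F).card ≤ i + 1) :
    M.Indep (greedy M i F : Set V) ∧ (greedy M i F).card = i + 1 ∧
      (F : Set V) = M.closure (greedy M i F : Set V) := by
  classical
  have hcl := flats_closed hF
  have hi := greedy_indep hE (k := i) (F := F) (Finset.Subset.refl (greedy M i F)) hs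
  obtain ⟨F', _, hF'⟩ := exists_flat rfl hi
  have h1 : F ⊆ F' := by
    rw [← clK_greedy i hcl]
    exact clK_sub hE i hF'
  have h2 : (F : Set V) = M.closure (greedy M i F : Set V) := by
    apply Set.Subset.antisymm
    · rw [← hF']
      exact_mod_cast h1
    · rw [← hcl]
      refine M.closure_subset_closure ?_
      rw [Finset.coe_subset]
      exact Finset.filter_subset _ _
  obtain ⟨I, hIc, hI, hIF⟩ := mem_flats.1 hF
  refine ⟨hi, ?_, h2⟩
  rw [card_eq hi hI (h2.symm.trans hIF), hIc]

/-- First case: many greedy points. -/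
theorem case1 {M M' : Matroid V} (hE : M.E = Set.univ) (hE' : M'.E = Set.univ) {i : ℕ}
    (h : ∀ X : Finset V, X.card ≤ i + 1 → (M.Indep (X : Set V) ↔ M'.Indep (X : Set V)))
    (hg : gfam M i = gfam M' i) {F : Finset V} (hF : F ∈ flats M (i + 1))
    (hc : i + 2 ≤ (greedy M i F).card) : F ∈ flats M' (i + 1) := by
  have h1 : greedy M i F ∈ gfam M i := by
    unfold gfam
    exact Finset.mem_filter.2 ⟨Finset.mem_image_of_mem _ hF, hc⟩
  rw [hg] at h1
  unfold gfam at h1
  obtain ⟨F', hF', h2⟩ := Finset.mem_image.1 (Finset.mem_filter.1 h1).1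
  have h3 : F = F' := by
    rw [← clK_greedy i (flats_closed hF), ← clK_greedy i (flats_closed hF'), h2,
      clK_congr hE hE' h]
  rw [h3]
  exact hF'

theorem flats_sub {M M' : Matroid V} (hE : M.E = Set.univ) (hE' : M'.E = Set.univ) {i : ℕ}
    (h : ∀ X : Finset V, X.card ≤ i + 1 → (M.Indep (X : Set V) ↔ M'.Indep (X : Set V)))
    (hg : gfam M i = gfam M' i) {F : Finset V} (hF : F ∈ flats M (i + 1)) :
    F ∈ flats M' (i + 1) := by
  have h' : ∀ X : Finset V, X.card ≤ i + 1 → (M'.Indep (X : Set V) ↔ M.Indep (X : Set V)) :=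
    fun X hX => (h X hX).symm
  by_cases hc : i + 2 ≤ (greedy M i F).card
  · exact case1 hE hE' h hg hF hc
  · obtain ⟨hi, hcard, hFc⟩ := small hE hF (by omega)
    have hi' : M'.Indep (greedy M i F : Set V) := (h _ hcard.le).1 hi
    obtain ⟨F', hF'f, hF'⟩ := exists_flat hcard hi'
    have h1 : F ⊆ F' := by
      rw [← clK_greedy i (flats_closed hF), clK_congr hE hE' h]
      exact clK_sub hE' i hF'
    by_cases hc' : i + 2 ≤ (greedy M' i F').card
    · have h2 := case1 hE' hE h' hg.symm hF'f hc'
      rw [flats_eq hE hF h2 h1]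
      exact hF'f
    · obtain ⟨hj, hcard', hF'c⟩ := small hE' hF'f (by omega)
      have hj' : M.Indep (greedy M' i F' : Set V) := (h' _ hcard'.le).1 hj
      obtain ⟨F'', hF''f, hF''⟩ := exists_flat hcard' hj'
      have h2 : F' ⊆ F'' := by
        rw [← clK_greedy i (flats_closed hF'f), clK_congr hE' hE h']
        exact clK_sub hE i hF''
      have h3 := flats_eq hE hF hF''f (h1.trans h2)
      have h4 : F = F' := Finset.Subset.antisymm h1 (by rw [h3]; exact h2)
      rw [h4]
      exact hF'f

theorem step {M M' : Matroid V} (hE : M.E = Set.univ) (hE' : M'.E = Set.univ) {i : ℕ}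
    (h : ∀ X : Finset V, X.card ≤ i + 1 → (M.Indep (X : Set V) ↔ M'.Indep (X : Set V)))
    (hg : gfam M i = gfam M' i) (X : Finset V) (hX : X.card = i + 2)
    (hXi : M.Indep (X : Set V)) : M'.Indep (X : Set V) := by
  classical
  have h' : ∀ X : Finset V, X.card ≤ i + 1 → (M'.Indep (X : Set V) ↔ M.Indep (X : Set V)) :=
    fun X hX => (h X hX).symm
  obtain ⟨x, hx⟩ : X.Nonempty := by
    rw [← Finset.card_pos]
    omega
  have hZc : (X.erase x).card = i + 1 := by
    rw [Finset.card_erase_of_mem hx]
    omega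
  have hZ : M.Indep (X.erase x : Set V) := by
    refine hXi.subset ?_
    rw [Finset.coe_subset]
    exact Finset.erase_subset _ _
  have hZ' : M'.Indep (X.erase x : Set V) := (h _ hZc.le).1 hZ
  have hins : (X : Set V) = insert x (X.erase x : Set V) := by
    rw [← Finset.coe_insert, Finset.insert_erase hx]
  by_contra hn
  obtain ⟨F', hF'f, hF'⟩ := exists_flat hZc hZ'
  have hxF : x ∈ F' := by
    rw [← Finset.mem_coe, hF', hZ'.mem_closure_iff']
    refine ⟨by rw [hE']; exact Set.mem_univ _, fun h1 => ?_⟩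
    rw [← hins] at h1
    exact absurd h1 hn
  have hZF : X.erase x ⊆ F' := by
    rw [← Finset.coe_subset, hF']
    exact M'.subset_closure _ (by rw [hE']; exact Set.subset_univ _)
  have hFM := flats_sub hE' hE h' hg.symm hF'f
  have h2 := flats_span hE hFM hZF hZ hZc
  have h3 : x ∈ M.closure (X.erase x : Set V) := by
    rw [h2]
    exact hxF
  rw [hZ.mem_closure_iff', ← hins] at h3
  have h4 := h3.2 hXi
  rw [Finset.mem_coe] at h4
  exact Finset.notMem_erase x X h4

end Enc3

/-- If the independent sets with at most `k + 1` elements agree then so do `closure` of sets with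
at most `k` elements, `clK · k` and `greedy · k`. -/
theorem greedy_congr {M M' : Matroid V} (hE : M.E = Set.univ) (hE' : M'.E = Set.univ) {k : ℕ}
    (h : ∀ X : Finset V, X.card ≤ k + 1 → (M.Indep (X : Set V) ↔ M'.Indep (X : Set V)))
    (F : Finset V) :
    clK M k F = clK M' k F ∧ greedy M k F = greedy M' k F := by
  refine ⟨Enc3.clK_congr hE hE' h F, ?_⟩
  unfold greedy
  simp only [Enc3.clK_congr hE hE' h]

/-- One step.  First `flats M (i+1) ⊆ flats M' (i+1)` (and conversely by symmetry).  Let
`F ∈ flats M (i+1)`, `G = greedy M i F`.  If `i + 2 ≤ |G|` then `G ∈ gfam M' i`, `G = greedy M' i F'`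
and `F = clK G = F'` (`clK_greedy`, `greedy_congr`).  Otherwise `|G| = i + 1` (`G` spans `F`, as
`F = clK G ⊆ closure G`, and `G` is independent by `greedy_indep`).  Let `F'` be the closure of `G` in
`M'`, `F' ∈ flats M' (i+1)`, `F = clK G ⊆ F'`.  If `i + 2 ≤ |greedy M' i F'|` then
`F' ∈ flats M (i+1)` by the first case, and `F = F'` (`flats_eq`).  Otherwise
`Y = greedy M' i F'` has `i + 1` elements and is independent, `F'' = closure_M Y ∈ flats M (i+1)`
contains `F' = clK Y ⊇ F`, so `F = F'' = F'`.

Now let `X` have `i + 2` elements.  If no `(i+1)`-subset of `X` is independent (in `M`, equivalently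
in `M'`), `X` is dependent in both.  Otherwise `X` is dependent iff it is contained in a flat of rank
`i + 1`. -/
theorem det_step {M M' : Matroid V} (hE : M.E = Set.univ) (hE' : M'.E = Set.univ) {i : ℕ}
    (h : ∀ X : Finset V, X.card ≤ i + 1 → (M.Indep (X : Set V) ↔ M'.Indep (X : Set V)))
    (hg : gfam M i = gfam M' i) :
    ∀ X : Finset V, X.card ≤ i + 2 → (M.Indep (X : Set V) ↔ M'.Indep (X : Set V)) := by
  intro X hX
  by_cases h1 : X.card ≤ i + 1
  · exact h X h1
  · have h2 : X.card = i + 2 := by omega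
    exact ⟨Enc3.step hE hE' h hg X h2,
      Enc3.step hE' hE (fun Y hY => (h Y hY).symm) hg.symm X h2⟩

end Pool.Agent.Helper41.R7
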