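/-
MP_e8bc6f_co, project R7, block R7-ENC4 (the encoding is injective).
-/
import Pool.Agent.Helper41.R7.ENC3

set_option autoImplicit false

namespace Pool.Agent.Helper41.R7

open Finset

variable {V : Type*} [Fintype V] [LinearOrder V]

private theorem close_le_34 {M M' : Matroid V} (hE : M.E = Set.univ) (hE' : M'.E = Set.univ)
    {k : ℕ} (h : ∀ X : Finset V, X.card ≤ k + 1 → (M.Indep (X : Set V) ↔ M'.Indep (X : Set V)))
    (X : Set V) (hX : ∀ I ⊆ X, M.Indep I → I.ncard ≤ k) : M.closure X ⊆ M'.closure X := by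
  classical
  intro v hv
  obtain ⟨I, hI⟩ := M.exists_isBasis X (by rw [hE]; exact Set.subset_univ _)
  rw [← hI.closure_eq_closure] at hv
  have hc := hX I hI.subset hI.indep
  have hXE : X ⊆ M'.E := by rw [hE']; exact Set.subset_univ _
  by_cases hvI : v ∈ I
  · exact M'.subset_closure X hXE (hI.subset hvI)
  · have h1 := (hI.indep.mem_closure_iff_of_notMem hvI).1 hv
    have hI' : M'.Indep I := by
      have h2 := h I.toFinset (by rw [← Set.ncard_eq_toFinset_card']; omega)
      rw [Set.coe_toFinset] at h2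
      exact h2.1 hI.indep
    have h3 : ¬ M'.Indep (insert v I) := by
      have h2 := h (insert v I : Set V).toFinset (by
        rw [← Set.ncard_eq_toFinset_card']
        have := Set.ncard_insert_le v I
        omega)
      rw [Set.coe_toFinset] at h2
      exact fun h4 => h1.1 (h2.2 h4)
    refine M'.closure_subset_closure hI.subset ?_
    rw [hI'.mem_closure_iff_of_notMem hvI]
    exact ⟨h3, by rw [hE']; exact Set.subset_univ _⟩

private theorem symm34 {M M' : Matroid V} {k : ℕ}
    (h : ∀ X : Finset V, X.card ≤ k → (M.Indep (X : Set V) ↔ M'.Indep (X : Set V))) :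
    ∀ X : Finset V, X.card ≤ k → (M'.Indep (X : Set V) ↔ M.Indep (X : Set V)) :=
  fun X hX => (h X hX).symm

private theorem close_eq_34 {M M' : Matroid V} (hE : M.E = Set.univ) (hE' : M'.E = Set.univ)
    {k : ℕ} (h : ∀ X : Finset V, X.card ≤ k + 1 → (M.Indep (X : Set V) ↔ M'.Indep (X : Set V)))
    (X : Finset V) (hX : X.card ≤ k) : M.closure (X : Set V) = M'.closure (X : Set V) := by
  have key : ∀ I ⊆ (X : Set V), I.ncard ≤ k := by
    intro I hI
    have h1 := Set.ncard_le_ncard hI (Set.toFinite _)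
    rw [Set.ncard_coe_finset] at h1
    omega
  exact Set.Subset.antisymm (close_le_34 hE hE' h _ fun I hI _ => key I hI)
    (close_le_34 hE' hE (symm34 h) _ fun I hI _ => key I hI)

private theorem top34 {M M' : Matroid V} (hE : M.E = Set.univ) (hE' : M'.E = Set.univ)
    {k : ℕ} (h : ∀ X : Finset V, X.card ≤ k + 1 → (M.Indep (X : Set V) ↔ M'.Indep (X : Set V)))
    (A : Finset V) (hA : A.card ≤ k) (ht : IsTop M A) : IsTop M' A := by
  refine ⟨(h A (by omega)).1 ht.1, fun v hv hcl => ht.2 v hv ?_⟩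
  rw [← close_eq_34 hE hE' h A hA] at hcl
  refine close_le_34 hE' hE (symm34 h) _ ?_ hcl
  intro I hI hIi
  have h1 : I ⊆ M'.closure (A : Set V) := by
    intro w hw
    rw [← close_eq_34 hE hE' h A hA]
    exact (hI hw).1
  have h2 := hIi.encard_le_eRk_of_subset h1
  rw [M'.eRk_closure_eq] at h2
  have h3 := h2.trans (M'.eRk_le_encard (A : Set V))
  rw [Set.encard_coe_eq_coe_finsetCard] at h3
  have h4 : (I.ncard : ℕ∞) = I.encard := (Set.toFinite I).cast_ncard_eq
  rw [← h4] at h3
  have h5 : I.ncard ≤ A.card := by exact_mod_cast h3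
  omega

/-- Induction on the size, from `2` (simple matroids) to `r - 1`. -/
theorem det_dat {r : ℕ} (hr : 3 ≤ r) {M M' : Matroid V} (hM : Good r M) (hM' : Good r M')
    (hd : dat r M = dat r M') :
    ∀ X : Finset V, X.card + 1 ≤ r → (M.Indep (X : Set V) ↔ M'.Indep (X : Set V)) := by
  have hgf : ∀ i, 1 ≤ i → i + 3 ≤ r → gfam M i = gfam M' i := by
    intro i hi hir
    have h1 := congrFun hd ⟨i, by omega⟩
    unfold dat at h1
    rwa [if_pos ⟨hi, hir⟩, if_pos ⟨hi, hir⟩] at h1
  have key : ∀ j, 2 ≤ j → j + 1 ≤ r →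
      ∀ X : Finset V, X.card ≤ j → (M.Indep (X : Set V) ↔ M'.Indep (X : Set V)) := by
    intro j hj
    induction j, hj using Nat.le_induction with
    | base =>
      intro _ X hX
      have h1 : (X : Set V).ncard ≤ 2 := by
        rw [Set.ncard_coe_finset]
        exact hX
      exact ⟨fun _ => hM'.2.1 _ h1, fun _ => hM.2.1 _ h1⟩
    | succ j hj ih =>
      intro hjr
      obtain ⟨i, rfl⟩ : ∃ i, j = i + 1 := ⟨j - 1, by omega⟩
      exact det_step hM.1 hM'.1 (ih (by omega)) (hgf i (by omega) (by omega))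
  intro X hX
  exact key (r - 1) (by omega) (by omega) X (by omega)

theorem det {r : ℕ} (hr : 3 ≤ r) {M M' : Matroid V} (hM : Good r M) (hM' : Good r M')
    (hd : dat r M = dat r M') (hg : gfam M (r - 2) = gfam M' (r - 2)) : M = M' := by
  classical
  have h1 := det_dat hr hM hM' hd
  obtain ⟨i, rfl⟩ : ∃ i, r = i + 2 := ⟨r - 2, by omega⟩
  have h2 := det_step (i := i) hM.1 hM'.1 (fun X hX => h1 X (by omega)) hg
  have hbig : ∀ N : Matroid V, Good (i + 2) N → ∀ I : Set V, N.Indep I → I.ncard ≤ i + 2 := by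
    intro N hN I hI
    obtain ⟨B, hB, hIB⟩ := hI.exists_isBase_superset
    rw [← hN.2.2 B hB]
    exact Set.ncard_le_ncard hIB (Set.toFinite _)
  refine Matroid.ext_indep (by rw [hM.1, hM'.1]) fun I _ => ?_
  by_cases hc : I.ncard ≤ i + 2
  · have h3 := h2 I.toFinset (by rw [← Set.ncard_eq_toFinset_card']; exact hc)
    rwa [Set.coe_toFinset] at h3
  · exact ⟨fun h => absurd (hbig M hM I h) hc, fun h => absurd (hbig M' hM' I h) hc⟩

/-- The `(r-2)`-sets which are not top depend only on `dat r M`: for `|A| = r - 2`,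
`v ∈ closure {w ∈ closure A | v < w}` iff `v ∈ closure I` for some `I ⊆ closure A` with at most
`r - 2` elements, all larger than `v`. -/
theorem ntop_congr {r : ℕ} (hr : 3 ≤ r) {M M' : Matroid V} (hM : Good r M) (hM' : Good r M')
    (hd : dat r M = dat r M') : ntop M (r - 2) = ntop M' (r - 2) := by
  classical
  have h1 := det_dat hr hM hM' hd
  have h2 : ∀ X : Finset V, X.card ≤ (r - 2) + 1 → (M.Indep (X : Set V) ↔ M'.Indep (X : Set V)) :=
    fun X hX => h1 X (by omega)
  ext A
  unfold ntop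
  rw [mem_filter, mem_filter]
  refine and_congr_right fun _ => and_congr_right fun hA => not_congr ?_
  exact ⟨fun h => top34 hM.1 hM'.1 h2 A (by omega) h,
    fun h => top34 hM'.1 hM.1 (symm34 h2) A (by omega) h⟩

end Pool.Agent.Helper41.R7
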