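/-
MP_e8bc6f_co, project R7, block R7-ENC5 (the cost of the encoding).
-/
import Pool.Agent.Helper41.R7.ENC2

set_option autoImplicit false

namespace Pool.Agent.Helper41.R7

open Finset

variable {V : Type*} [Fintype V] [LinearOrder V]

open Classical in
/-- The `(i+1)`-subsets of `G` which are not top. -/
private noncomputable def ntG (M : Matroid V) (i : ℕ) (G : Finset V) : Finset (Finset V) :=
  (G.powersetCard (i + 1)).filter (fun Z => ¬ IsTop M Z)

private lemma le_choose_of {g j : ℕ} (h : j + 2 ≤ g) : g ≤ g.choose (j + 1) := by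
  induction g with
  | zero => omega
  | succ g ih =>
    rcases Nat.lt_or_ge g (j + 2) with h1 | h1
    · have hg : g = j + 1 := by omega
      subst hg
      rw [Nat.choose_succ_self_right]
    · have := ih h1
      rw [Nat.choose_succ_succ' g j]
      have hp : 0 < g.choose j := Nat.choose_pos (by omega)
      omega

private lemma card_le_ntG {M : Matroid V} (hE : M.E = Set.univ) {i : ℕ} {G : Finset V}
    (hG : G ∈ gfam M i) : G.card ≤ 2 * (ntG M i G).card := by
  classical
  obtain ⟨F, _, _, hc, _, hZ⟩ := gfam_spec hE hG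
  have h1 : (G.powersetCard (i + 1)).card ≤ (ntG M i G).card + 1 := by
    have hsplit := Finset.card_filter_add_card_filter_not (s := G.powersetCard (i + 1))
      (fun Z => ¬ IsTop M Z)
    have hone : ((G.powersetCard (i + 1)).filter (fun Z => ¬ ¬ IsTop M Z)).card ≤ 1 := by
      rw [Finset.card_le_one]
      intro A hA B hB
      rw [Finset.mem_filter, Finset.mem_powersetCard] at hA hB
      refine top_uniq hE (not_not.1 hA.2) (not_not.1 hB.2) ?_
      rw [(hZ A hA.1.1 hA.1.2).2, (hZ B hB.1.1 hB.1.2).2]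
    have hdef : (ntG M i G).card =
      ((G.powersetCard (i + 1)).filter (fun Z => ¬ IsTop M Z)).card := rfl
    omega
  rw [Finset.card_powersetCard] at h1
  have h2 := le_choose_of hc
  omega

/-- Each `G ∈ gfam M i` has `C(|G|, i+1) ≥ |G|` subsets with `i + 1` elements, which span the same
flat, so all but at most one of them are not top (`top_uniq`), and `|G| - 1 ≥ |G| / 2`.  Different
`G` give different sets (`gfam_spec`: the span determines `G`). -/
theorem sum_gfam_le {M : Matroid V} (hE : M.E = Set.univ) (i : ℕ) :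
    ∑ G ∈ gfam M i, G.card ≤ 2 * (ntop M (i + 1)).card := by
  classical
  have hdisj : ∀ G ∈ gfam M i, ∀ G' ∈ gfam M i, G ≠ G' → Disjoint (ntG M i G) (ntG M i G') := by
    intro G hG G' hG' hne
    rw [Finset.disjoint_left]
    intro Z hZ hZ'
    unfold ntG at hZ hZ'
    rw [Finset.mem_filter, Finset.mem_powersetCard] at hZ hZ'
    obtain ⟨F, _, hF, _, _, hsp⟩ := gfam_spec hE hG
    obtain ⟨F', _, hF', _, _, hsp'⟩ := gfam_spec hE hG'
    have h1 := (hsp Z hZ.1.1 hZ.1.2).2
    have h2 := (hsp' Z hZ'.1.1 hZ'.1.2).2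
    have h3 : F = F' := by
      apply Finset.coe_injective
      rw [← h1, ← h2]
    exact hne (by rw [← hF, ← hF', h3])
  calc ∑ G ∈ gfam M i, G.card ≤ ∑ G ∈ gfam M i, 2 * (ntG M i G).card :=
        Finset.sum_le_sum fun G hG => card_le_ntG hE hG
    _ = 2 * ((gfam M i).biUnion (ntG M i)).card := by
        rw [← Finset.mul_sum, Finset.card_biUnion hdisj]
    _ ≤ 2 * (ntop M (i + 1)).card := by
        refine Nat.mul_le_mul_left _ (Finset.card_le_card fun Z hZ => ?_)
        obtain ⟨G, _, hZG⟩ := Finset.mem_biUnion.1 hZ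
        unfold ntG at hZG
        rw [Finset.mem_filter, Finset.mem_powersetCard] at hZG
        unfold ntop
        exact Finset.mem_filter.2 ⟨Finset.mem_univ _, hZG.1.2, hZG.2⟩

/-- Supersets of sets which are not top are not top (`top_mono`); each `k`-set has a superset with
`l` elements, and each `l`-set has at most `2^l` subsets. -/
theorem ntop_le {M : Matroid V} {k l : ℕ} (hkl : k ≤ l) (hl : l ≤ Fintype.card V) :
    (ntop M k).card ≤ 2 ^ l * (ntop M l).card := by
  classical
  have hsub : ntop M k ⊆ (ntop M l).biUnion (fun B => B.powerset) := by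
    intro A hA
    unfold ntop at hA
    rw [Finset.mem_filter] at hA
    obtain ⟨B, hAB, hB⟩ := Finset.exists_superset_card_eq (s := A) (n := l)
      (by rw [hA.2.1]; exact hkl) hl
    refine Finset.mem_biUnion.2 ⟨B, ?_, Finset.mem_powerset.2 hAB⟩
    unfold ntop
    exact Finset.mem_filter.2 ⟨Finset.mem_univ _, hB, fun hBt => hA.2.2 (top_mono hAB hBt)⟩
  calc (ntop M k).card ≤ ((ntop M l).biUnion (fun B => B.powerset)).card :=
        Finset.card_le_card hsub
    _ ≤ ∑ B ∈ ntop M l, B.powerset.card := Finset.card_biUnion_le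
    _ = ∑ B ∈ ntop M l, 2 ^ l := by
        refine Finset.sum_congr rfl fun B hB => ?_
        unfold ntop at hB
        rw [Finset.mem_filter] at hB
        rw [Finset.card_powerset, hB.2.1]
    _ = 2 ^ l * (ntop M l).card := by
        rw [Finset.sum_const, smul_eq_mul, mul_comm]

theorem cost_le {r : ℕ} (hr : 4 ≤ r) (hn : r ≤ Fintype.card V) {M : Matroid V}
    (hM : Good r M) : cost (dat r M) ≤ r * 2 ^ (r + 1) * (ntop M (r - 2)).card := by
  have hE := hM.1
  have key : ∀ i : Fin r, ∑ G ∈ dat r M i, G.card ≤ 2 ^ (r + 1) * (ntop M (r - 2)).card := by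
    intro i
    unfold dat
    split_ifs with h
    · have h1 := sum_gfam_le (M := M) hE (i : ℕ)
      have h2 := ntop_le (M := M) (k := (i : ℕ) + 1) (l := r - 2) (by omega) (by omega)
      calc ∑ G ∈ gfam M i, G.card ≤ 2 * (ntop M ((i : ℕ) + 1)).card := h1
        _ ≤ 2 * (2 ^ (r - 2) * (ntop M (r - 2)).card) := Nat.mul_le_mul_left _ h2
        _ = 2 ^ (r - 2 + 1) * (ntop M (r - 2)).card := by rw [pow_succ]; ring
        _ ≤ 2 ^ (r + 1) * (ntop M (r - 2)).card :=
            Nat.mul_le_mul_right _ (Nat.pow_le_pow_right (by norm_num) (by omega))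
    · simp
  unfold cost
  calc ∑ i : Fin r, ∑ G ∈ dat r M i, G.card
      ≤ ∑ _i : Fin r, 2 ^ (r + 1) * (ntop M (r - 2)).card := Finset.sum_le_sum fun i _ => key i
    _ = r * 2 ^ (r + 1) * (ntop M (r - 2)).card := by
        rw [Finset.sum_const, Finset.card_univ, Fintype.card_fin, smul_eq_mul]; ring

end Pool.Agent.Helper41.R7
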