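/-
MP_e8bc6f_co, project R7, block R7-ENC6 (nonpaving matroids have nontrivial data).
-/
import Pool.Agent.Helper41.R7.ENC1

set_option autoImplicit false

namespace Pool.Agent.Helper41.R7

open Finset

variable {V : Type*} [Fintype V] [LinearOrder V]

theorem dat_nonempty {r : ℕ} {M : Matroid V} (i : Fin r) {G : Finset V} (hG : G ∈ dat r M i) :
    G.Nonempty := by
  unfold dat at hG
  split_ifs at hG with h
  · unfold gfam at hG
    rw [Finset.mem_filter] at hG
    rw [← Finset.card_pos]
    have := hG.2
    omega
  · exact absurd hG (Finset.notMem_empty _)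

/-- A nonpaving matroid has nontrivial data: let `j` be the smallest size of a dependent set `X`,
`3 ≤ j ≤ r - 1`, `i = j - 2`.  Then `ClosedK M i Y` for all `Y` (all `(i+1)`-sets are independent, so
the closure of a set with at most `i` elements is the set itself), so `greedy M i F = F` for every
`F`, and the closure of `i + 1` elements of `X` is a flat of rank `i + 1` with at least `i + 2`
elements. -/
theorem dat_ne {r : ℕ} (hr : 3 ≤ r) {M : Matroid V} (hM : Good r M) (hp : ¬ Pav r M) :
    dat r M ≠ fun _ => ∅ := by
  classical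
  obtain ⟨hE, hI2, -⟩ := hM
  unfold Pav at hp
  push Not at hp
  obtain ⟨I₀, hI₀, hdep₀⟩ := hp
  have hex : ∃ j, ∃ X : Finset V, X.card = j ∧ ¬ M.Indep (X : Set V) := by
    refine ⟨_, (Set.toFinite I₀).toFinset, rfl, ?_⟩
    rw [Set.Finite.coe_toFinset]
    exact hdep₀
  obtain ⟨X, hXc, hXd⟩ := Nat.find_spec hex
  have hmin : ∀ Y : Finset V, Y.card < Nat.find hex → M.Indep (Y : Set V) := by
    intro Y hY
    by_contra hcon
    exact Nat.find_min hex hY ⟨Y, rfl, hcon⟩
  have hjr : Nat.find hex + 1 ≤ r := by
    have h1 : Nat.find hex ≤ I₀.ncard := by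
      apply Nat.find_min' hex
      refine ⟨(Set.toFinite I₀).toFinset, (Set.ncard_eq_toFinset_card _ _).symm, ?_⟩
      rw [Set.Finite.coe_toFinset]
      exact hdep₀
    omega
  have hj3 : 3 ≤ Nat.find hex := by
    by_contra hcon
    apply hXd
    apply hI2
    rw [Set.ncard_coe_finset, hXc]
    omega
  obtain ⟨i, hi⟩ : ∃ i, Nat.find hex = i + 2 := ⟨Nat.find hex - 2, by omega⟩
  rw [hi] at hXc hmin hjr hj3
  -- small closures are trivial
  have hclosed : ∀ Y : Finset V, ClosedK M i Y := by
    intro Y Z hZY hZc v hv
    have hZi : M.Indep (Z : Set V) := hmin Z (by omega)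
    rw [hZi.mem_closure_iff] at hv
    rcases hv with hv | hv
    · exfalso
      apply hv.not_indep
      have h1 := hmin (insert v Z) (by
        have := Finset.card_insert_le v Z
        omega)
      rw [Finset.coe_insert] at h1
      exact h1
    · exact hZY hv
  have hclK : ∀ Y : Finset V, clK M i Y = Y := by
    intro Y
    ext v
    unfold clK
    rw [Finset.mem_filter]
    constructor
    · rintro ⟨_, h⟩
      exact h Y (hclosed Y) subset_rfl
    · intro h
      exact ⟨Finset.mem_univ _, fun Z _ hZ => hZ h⟩
  have hgreedy : ∀ F : Finset V, greedy M i F = F := by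
    intro F
    unfold greedy
    rw [Finset.filter_eq_self]
    intro v _
    rw [hclK, Finset.mem_filter, not_and]
    intro _
    exact lt_irrefl v
  -- the flat
  have hXne : X.Nonempty := by
    rw [← Finset.card_pos, hXc]
    omega
  obtain ⟨x, hx⟩ := hXne
  have hIc : (X.erase x).card = i + 1 := by
    rw [Finset.card_erase_of_mem hx, hXc]
    rfl
  have hIi : M.Indep ((X.erase x : Finset V) : Set V) := hmin _ (by omega)
  set F : Finset V := (Set.toFinite (M.closure ((X.erase x : Finset V) : Set V))).toFinset with hF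
  have hFc : (F : Set V) = M.closure ((X.erase x : Finset V) : Set V) := by
    rw [hF, Set.Finite.coe_toFinset]
  have hXF : X ⊆ F := by
    intro y hy
    have h1 : y ∈ M.closure ((X.erase x : Finset V) : Set V) := by
      rw [hIi.mem_closure_iff]
      by_cases hyx : y = x
      · left
        rw [← Finset.coe_insert, hyx, Finset.insert_erase hx]
        rw [Matroid.dep_iff]
        exact ⟨hXd, by rw [hE]; exact Set.subset_univ _⟩
      · right
        exact Finset.mem_coe.mpr (Finset.mem_erase.mpr ⟨hyx, hy⟩)
    rw [← hFc] at h1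
    exact h1
  have hFflat : F ∈ flats M (i + 1) := by
    unfold flats
    rw [Finset.mem_filter]
    exact ⟨Finset.mem_univ _, X.erase x, hIc, hIi, hFc⟩
  have hFg : F ∈ gfam M i := by
    unfold gfam
    rw [Finset.mem_filter, Finset.mem_image]
    refine ⟨⟨F, hFflat, hgreedy F⟩, ?_⟩
    rw [← hXc]
    exact Finset.card_le_card hXF
  intro hdat
  have h1 := congrFun hdat ⟨i, by omega⟩
  unfold dat at h1
  simp only at h1
  rw [if_pos (by omega)] at h1
  rw [h1] at hFg
  exact absurd hFg (Finset.notMem_empty _)

end Pool.Agent.Helper41.R7
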