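/-
MP_e8bc6f_co, project R7, block R7-EXT (a subfamily with bounded degrees).
-/
import Pool.Agent.Helper41.R7.Defs

set_option autoImplicit false

namespace Pool.Agent.Helper41.R7

open Finset

/-- A maximal subfamily with bounded degrees.  Let `Δ = n / 1000 ≥ 1` (so `Δ ≥ n / 2000`), `S0 ⊆ S`
maximal with `dg S0 D ≤ Δ` for all `(r-3)`-sets `D`.  Each `e ∈ S \ S0` contains a saturated `D`
(`dg S0 D = Δ`).  As `∑_D dg S0 D = (r-2) |S0|` (each `e` has `r - 2` subsets `D`), there are at most
`(r-2) |S0| / Δ` saturated `D`, each in at most `n` sets `e` with `r - 2` elements.  So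
`|S| ≤ |S0| + n (r-2) |S0| / Δ ≤ (1 + 2000 (r-2)) |S0|`. -/
theorem extract {V : Type*} [Fintype V] [DecidableEq V] {r : ℕ} (hr : 4 ≤ r)
    (hn : 1000 ≤ Fintype.card V) (S : Finset (Finset V)) (hS : ∀ e ∈ S, e.card + 2 = r) :
    ∃ S0 ⊆ S, (∀ D : Finset V, D.card + 3 = r → 1000 * dg S0 D ≤ Fintype.card V) ∧
      S.card ≤ 2000 * r * S0.card := by
  classical
  set n := Fintype.card V with hnd
  let P : Finset (Finset V) → Prop := fun T => ∀ D : Finset V, D.card + 3 = r → 1000 * dg T D ≤ n
  obtain ⟨S0, hS0, hmax⟩ := Finset.exists_max_image (S.powerset.filter P) (fun T => T.card)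
    ⟨∅, by
      rw [Finset.mem_filter]
      refine ⟨Finset.empty_mem_powerset S, fun D _ => ?_⟩
      simp [dg]⟩
  rw [Finset.mem_filter, Finset.mem_powerset] at hS0
  obtain ⟨hsub, hP⟩ := hS0
  refine ⟨S0, hsub, hP, ?_⟩
  set Δ := n / 1000 with hΔ
  have hΔ1 : 1 ≤ Δ := by omega
  have hnΔ : n ≤ 2000 * Δ := by omega
  let Sat : Finset (Finset V) := univ.filter (fun D => D.card + 3 = r ∧ dg S0 D = Δ)
  have hdgle : ∀ D : Finset V, D.card + 3 = r → dg S0 D ≤ Δ := by
    intro D hD
    have := hP D hD
    omega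
  -- every other set contains a saturated one
  have hsat : ∀ e ∈ S \ S0, ∃ D ∈ Sat, D ⊆ e := by
    intro e he
    rw [Finset.mem_sdiff] at he
    have h1 : ¬ P (insert e S0) := by
      intro hPi
      have h2 := hmax (insert e S0) (by
        rw [Finset.mem_filter, Finset.mem_powerset]
        exact ⟨Finset.insert_subset he.1 hsub, hPi⟩)
      rw [Finset.card_insert_of_notMem he.2] at h2
      omega
    have h2 : ∃ D : Finset V, D.card + 3 = r ∧ n < 1000 * dg (insert e S0) D := by
      by_contra hcon
      push Not at hcon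
      exact h1 hcon
    obtain ⟨D, hD, hlt⟩ := h2
    have h3 := hdgle D hD
    by_cases hDe : D ⊆ e
    · refine ⟨D, ?_, hDe⟩
      rw [Finset.mem_filter]
      refine ⟨Finset.mem_univ _, hD, ?_⟩
      have h4 : dg (insert e S0) D ≤ dg S0 D + 1 := by
        unfold dg
        rw [Finset.filter_insert, if_pos hDe]
        exact Finset.card_insert_le _ _
      omega
    · exfalso
      have h4 : dg (insert e S0) D = dg S0 D := by
        unfold dg
        rw [Finset.filter_insert, if_neg hDe]
      omega
  -- the number of sets above `D`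
  have hup : ∀ D ∈ Sat, ((S \ S0).filter (fun e => D ⊆ e)).card ≤ n := by
    intro D hD
    rw [Finset.mem_filter] at hD
    have h1 : (S \ S0).filter (fun e => D ⊆ e) ⊆ univ.image (fun v => insert v D) := by
      intro e he
      rw [Finset.mem_filter, Finset.mem_sdiff] at he
      have h2 := hS e he.1.1
      have h3 : (e \ D).card = 1 := by
        rw [Finset.card_sdiff_of_subset he.2]
        omega
      obtain ⟨v, hv⟩ := Finset.card_eq_one.mp h3
      rw [Finset.mem_image]
      refine ⟨v, Finset.mem_univ _, ?_⟩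
      rw [← Finset.sdiff_union_of_subset he.2, hv]
      rfl
    exact (Finset.card_le_card h1).trans (Finset.card_image_le.trans (le_of_eq Finset.card_univ))
  have hrest : (S \ S0).card ≤ Sat.card * n := by
    have h1 : S \ S0 ⊆ Sat.biUnion (fun D => (S \ S0).filter (fun e => D ⊆ e)) := by
      intro e he
      obtain ⟨D, hD, hDe⟩ := hsat e he
      rw [Finset.mem_biUnion]
      exact ⟨D, hD, Finset.mem_filter.mpr ⟨he, hDe⟩⟩
    exact (Finset.card_le_card h1).trans (Finset.card_biUnion_le_card_mul _ _ _ hup)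
  -- double counting
  have hcount : Sat.card * Δ ≤ (r - 2) * S0.card := by
    have h1 : Sat.card * Δ = ∑ D ∈ Sat, dg S0 D := by
      rw [Finset.sum_congr rfl (fun D hD => (Finset.mem_filter.mp hD).2.2), Finset.sum_const,
        smul_eq_mul]
    have h2 : ∑ D ∈ Sat, dg S0 D = ∑ e ∈ S0, (Sat.filter (fun D => D ⊆ e)).card := by
      unfold dg
      simp only [Finset.card_filter]
      rw [Finset.sum_comm]
    have h3 : ∀ e ∈ S0, (Sat.filter (fun D => D ⊆ e)).card ≤ r - 2 := by
      intro e he
      have h4 := hS e (hsub he)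
      have h5 : Sat.filter (fun D => D ⊆ e) ⊆ e.powersetCard (r - 3) := by
        intro D hD
        rw [Finset.mem_filter, Finset.mem_filter] at hD
        rw [Finset.mem_powersetCard]
        exact ⟨hD.2, by have := hD.1.2.1; omega⟩
      refine (Finset.card_le_card h5).trans ?_
      rw [Finset.card_powersetCard]
      have h6 : e.card = (r - 3) + 1 := by omega
      rw [h6, Nat.choose_succ_self_right]
      omega
    rw [h1, h2]
    refine (Finset.sum_le_card_nsmul _ _ _ h3).trans (le_of_eq ?_)
    rw [smul_eq_mul, mul_comm]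
  have h1 : (S \ S0).card * Δ ≤ (2000 * (r - 2) * S0.card) * Δ := by
    calc (S \ S0).card * Δ ≤ (Sat.card * n) * Δ := Nat.mul_le_mul_right _ hrest
      _ = (Sat.card * Δ) * n := by ring
      _ ≤ ((r - 2) * S0.card) * n := Nat.mul_le_mul_right _ hcount
      _ ≤ ((r - 2) * S0.card) * (2000 * Δ) := Nat.mul_le_mul_left _ hnΔ
      _ = (2000 * (r - 2) * S0.card) * Δ := by ring
  have h2 : (S \ S0).card ≤ 2000 * (r - 2) * S0.card := Nat.le_of_mul_le_mul_right h1 hΔ1
  have h3 : S.card = (S \ S0).card + S0.card := by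
    rw [Finset.card_sdiff_of_subset hsub]
    have := Finset.card_le_card hsub
    omega
  rw [h3]
  calc (S \ S0).card + S0.card ≤ 2000 * (r - 2) * S0.card + 1 * S0.card := by omega
    _ = (2000 * (r - 2) + 1) * S0.card := by ring
    _ ≤ 2000 * r * S0.card := Nat.mul_le_mul_right _ (by omega)

end Pool.Agent.Helper41.R7
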