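/-
MP_e8bc6f_co, project R7, block R7-FIX (matroids with a nontrivial automorphism).
-/
import Pool.Agent.Helper41.R7.Defs
import Pool.Agent.Helper2.R4.PAV

set_option autoImplicit false
set_option linter.unusedSectionVars false

namespace Pool.Agent.Helper41.R7

open Finset

open Helper2.R4 (finite_matroid)

variable {V : Type*} [Fintype V] [DecidableEq V]

open Classical in
/-- A fixed representative of a set. -/
private noncomputable def rep (S : Set V) : Option V := if h : S.Nonempty then some h.some else none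

private theorem rep_ne_none {S : Set V} : rep S ≠ none ↔ S.Nonempty := by
  unfold rep
  by_cases h : S.Nonempty
  · simp [h]
  · simp [h]

private theorem rep_inter {S T : Set V} (hS : S.Nonempty) (hT : T.Nonempty) (h : rep S = rep T) :
    ∃ w, w ∈ S ∧ w ∈ T := by
  unfold rep at h
  rw [dif_pos hS, dif_pos hT] at h
  have h1 : hS.some = hT.some := Option.some_injective _ h
  exact ⟨hS.some, hS.some_mem, by rw [h1]; exact hT.some_mem⟩

/-- The set attached to `u`. -/
private def cls1 (M : Matroid V) (X : Set V) (u : V) : Set V :=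
  M.closure (insert u X) \ M.closure X

private theorem cls_nonempty {M : Matroid V} (hE : M.E = Set.univ) {X : Set V} {u : V} :
    (cls1 M X u).Nonempty ↔ u ∉ M.closure X := by
  constructor
  · rintro ⟨w, hw⟩ hu
    unfold cls1 at hw
    rw [Matroid.closure_insert_eq_of_mem_closure hu] at hw
    exact hw.2 hw.1
  · intro hu
    refine ⟨u, M.mem_closure_of_mem (Set.mem_insert _ _) (by rw [hE]; exact Set.subset_univ _), hu⟩

private theorem indep4 {M : Matroid V} (hE : M.E = Set.univ) {X : Set V} (hX : M.Indep X) {u v : V}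
    (hu : u ∉ X) (hv : v ∉ X) (huv : u ≠ v) :
    M.Indep (insert v (insert u X)) ↔
      rep (cls1 M X u) ≠ none ∧ rep (cls1 M X v) ≠ none ∧
        rep (cls1 M X u) ≠ rep (cls1 M X v) := by
  have hXE : X ⊆ M.E := by rw [hE]; exact Set.subset_univ _
  have hv' : v ∉ insert u X := by
    rw [Set.mem_insert_iff, not_or]; exact ⟨huv.symm, hv⟩
  constructor
  · intro h
    have h1 : M.Indep (insert u X) := h.subset (Set.subset_insert _ _)
    have h2 : v ∉ M.closure (insert u X) := by
      rw [h1.insert_indep_iff_of_notMem hv'] at h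
      exact h.2
    have h3 : v ∉ M.closure X := fun h4 =>
      h2 (M.closure_subset_closure (Set.subset_insert _ _) h4)
    have h4 : u ∉ M.closure X := by
      rw [hX.insert_indep_iff_of_notMem hu] at h1
      exact h1.2
    refine ⟨rep_ne_none.2 ((cls_nonempty hE).2 h4), rep_ne_none.2 ((cls_nonempty hE).2 h3), ?_⟩
    intro h5
    obtain ⟨w, hw1, hw2⟩ := rep_inter ((cls_nonempty hE).2 h4) ((cls_nonempty hE).2 h3) h5
    have e1 := Matroid.closure_insert_congr hw1
    have e2 := Matroid.closure_insert_congr hw2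
    apply h2
    rw [← e1, e2]
    exact M.mem_closure_of_mem (Set.mem_insert _ _) (by rw [hE]; exact Set.subset_univ _)
  · rintro ⟨h1, h2, h3⟩
    have h4 : u ∉ M.closure X := (cls_nonempty hE).1 (rep_ne_none.1 h1)
    have h5 : v ∉ M.closure X := (cls_nonempty hE).1 (rep_ne_none.1 h2)
    have h6 : M.Indep (insert u X) := by
      rw [hX.insert_indep_iff_of_notMem hu, hE]
      exact ⟨Set.mem_univ _, h4⟩
    rw [h6.insert_indep_iff_of_notMem hv', hE]
    refine ⟨Set.mem_univ _, fun h7 => h3 ?_⟩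
    have h8 := Matroid.closure_insert_congr (M := M) (e := v) (f := u) (X := X) ⟨h7, h5⟩
    unfold cls1
    rw [h8]

open Classical in
/-- The data attached to the pair `x, y`. -/
private noncomputable def fdat (M : Matroid V) (x y : V) (J : Finset V) (u : V) : Option V :=
  if M.Indep ((J : Set V) ∪ {x, y}) then rep (cls1 M ((J : Set V) ∪ {x, y}) u) else none

/-- An `r`-set containing `x` and `y`. -/
private theorem det_xy {r : ℕ} (hr : 4 ≤ r) {M₁ M₂ : Matroid V} (h₁ : Good r M₁) (h₂ : Good r M₂)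
    {x y : V} (hxy : x ≠ y)
    (hf : ∀ J : Finset V, J.card = r - 4 → ∀ u, fdat M₁ x y J u = fdat M₂ x y J u) {I : Set V}
    (hI : I.ncard = r) (hx : x ∈ I) (hy : y ∈ I) (hi : M₁.Indep I) : M₂.Indep I := by
  have hsub : ({x, y} : Set V) ⊆ I := by
    rintro z (rfl | rfl)
    · exact hx
    · exact hy
  have h3 := Set.ncard_sdiff_add_ncard_of_subset hsub (Set.toFinite _)
  rw [Set.ncard_pair hxy, hI] at h3
  obtain ⟨u, hu, v, hv, huv⟩ := (Set.one_lt_ncard (Set.toFinite (I \ {x, y}))).1 (by omega)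
  set J' : Set V := (I \ {x, y}) \ {u, v} with hJ'
  have hsub2 : ({u, v} : Set V) ⊆ I \ {x, y} := by
    rintro z (rfl | rfl)
    · exact hu
    · exact hv
  have h4 := Set.ncard_sdiff_add_ncard_of_subset hsub2 (Set.toFinite _)
  rw [Set.ncard_pair huv] at h4
  have h4' : J'.ncard + 2 = (I \ {x, y}).ncard := h4
  set J : Finset V := (Set.toFinite J').toFinset with hJ
  have hJc : (J : Set V) = J' := by rw [hJ]; simp
  have hJcard : J.card = r - 4 := by
    rw [← Set.ncard_coe_finset, hJc]
    omega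
  set X : Set V := (J : Set V) ∪ {x, y} with hX
  have huX : u ∉ X := by
    rw [hX, hJc]
    rintro (h | h)
    · exact h.2 (by simp)
    · exact hu.2 h
  have hvX : v ∉ X := by
    rw [hX, hJc]
    rintro (h | h)
    · exact h.2 (by simp)
    · exact hv.2 h
  have hIX : I = insert v (insert u X) := by
    ext z
    rw [hX, hJc, hJ']
    simp only [Set.mem_insert_iff, Set.mem_union, Set.mem_sdiff, Set.mem_singleton_iff]
    constructor
    · intro hz
      by_cases h1 : z = v
      · exact Or.inl h1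
      by_cases h2 : z = u
      · exact Or.inr (Or.inl h2)
      by_cases h5 : z = x ∨ z = y
      · exact Or.inr (Or.inr (Or.inr h5))
      · exact Or.inr (Or.inr (Or.inl ⟨⟨hz, h5⟩, fun h => h.elim h2 h1⟩))
    · rintro (rfl | rfl | ⟨⟨h, _⟩, _⟩ | h)
      · exact hv.1
      · exact hu.1
      · exact h
      · exact hsub h
  have hXi : M₁.Indep X := hi.subset (by
    rw [hIX]
    exact (Set.subset_insert _ _).trans (Set.subset_insert _ _))
  have e1 := hf J hJcard u
  have e2 := hf J hJcard v
  unfold fdat at e1 e2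
  rw [if_pos hXi] at e1 e2
  rw [hIX, indep4 h₁.1 hXi huX hvX huv] at hi
  obtain ⟨i1, i2, i3⟩ := hi
  have hXi2 : M₂.Indep X := by
    by_contra hc
    rw [if_neg hc] at e1
    exact i1 e1
  rw [if_pos hXi2] at e1 e2
  rw [hIX, indep4 h₂.1 hXi2 huX hvX huv, ← e1, ← e2]
  exact ⟨i1, i2, i3⟩

private theorem comap_indep' (M : Matroid V) {y : V} {I : Set V} (hy : y ∉ I) :
    M.Indep I ↔ (M.comap (Subtype.val : {v : V // v ≠ y} → V)).Indep (Subtype.val ⁻¹' I) := by
  have e : Subtype.val '' ((Subtype.val : {v : V // v ≠ y} → V) ⁻¹' I) = I := by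
    rw [Set.image_preimage_eq_iff]
    intro z hz
    refine ⟨⟨z, ?_⟩, rfl⟩
    rintro rfl
    exact hy hz
  rw [Matroid.comap_indep_iff, e]
  exact ⟨fun h => ⟨h, Subtype.val_injective.injOn⟩, fun h => h.1⟩

private theorem good_comap {r : ℕ} {M : Matroid V} (hM : Good r M) {y : V} {B₀ : Set V}
    (hB₀ : M.IsBase B₀) (hy : y ∉ B₀) :
    Good r (M.comap (Subtype.val : {v : V // v ≠ y} → V)) := by
  refine ⟨?_, ?_, ?_⟩
  · rw [Matroid.comap_ground_eq, hM.1, Set.preimage_univ]
  · intro I hI
    rw [Matroid.comap_indep_iff]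
    refine ⟨hM.2.1 _ ?_, Subtype.val_injective.injOn⟩
    rw [Set.ncard_image_of_injective _ Subtype.val_injective]
    exact hI
  · intro B hB
    rw [Matroid.comap_isBase_iff, hM.1, Set.preimage_univ, Set.image_univ] at hB
    have h1 : B₀ ⊆ Set.range (Subtype.val : {v : V // v ≠ y} → V) := by
      intro z hz
      refine ⟨⟨z, ?_⟩, rfl⟩
      rintro rfl
      exact hy hz
    have h2 := hB₀.isBase_of_isBasis_superset h1 hB.1
    have h3 := hM.2.2 _ h2
    rwa [Set.ncard_image_of_injective _ Subtype.val_injective] at h3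

/-- Two matroids of rank `r` with the same independent `r`-sets are equal. -/
private theorem ext_card {r : ℕ} {M₁ M₂ : Matroid V} (h₁ : Good r M₁) (h₂ : Good r M₂)
    (h12 : ∀ I : Set V, I.ncard = r → M₁.Indep I → M₂.Indep I)
    (h21 : ∀ I : Set V, I.ncard = r → M₂.Indep I → M₁.Indep I) : M₁ = M₂ := by
  refine Matroid.ext_indep (by rw [h₁.1, h₂.1]) fun I _ => ⟨fun hI => ?_, fun hI => ?_⟩
  · obtain ⟨B, hB, hIB⟩ := hI.exists_isBase_superset
    exact (h12 B (h₁.2.2 B hB) hB.indep).subset hIB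
  · obtain ⟨B, hB, hIB⟩ := hI.exists_isBase_superset
    exact (h21 B (h₂.2.2 B hB) hB.indep).subset hIB

/-- Matroids invariant under `σ ≠ 1` (see Pool.Agent.Helper2.R4.FIX for `r = 4`).

Let `y = σ x ≠ x`.  For a set `J` with `r - 4` elements let `X = J ∪ {x, y}`, and let
`f (J, u) = none` if `u ∈ closure X` or `X` is dependent, otherwise `some` of a fixed representative
of `closure (insert u X) \ closure X`.  An `r`-set `I` which contains `x` and `y` is
`X ∪ {u, v}` with `|J| = r - 4` (choose `u ≠ v` in `I \ {x, y}`), and it is independent iff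
`X` is independent, `f (J, u) ≠ none`, `f (J, v) ≠ none` and `f (J, u) ≠ f (J, v)` (`indep4` in
Pool.Agent.Helper2.R4.FIX, for an independent set `X`).  There are at most `n^(r-3)` pairs `(J, u)`,
so at most `(n+1)^(n^(r-3))` functions `f`.  If all bases contain `y` then all bases contain
`x = σ⁻¹ y`, and `M` is determined by `f` (a matroid of rank `r` is determined by its bases).
Otherwise the restriction `M' = M.comap Subtype.val` to `{v // v ≠ y}` is `Good r`, and `M` is
determined by `M'` and `f`: `r`-sets without `y` are decided by `M'`, `r`-sets with `x` and `y` by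
`f`, and if `y ∈ I`, `x ∉ I` then `σ⁻¹ I` contains `x` and is of one of the two former kinds. -/
theorem card_fix_le {r : ℕ} (hr : 4 ≤ r) (σ : Equiv.Perm V) (hσ : σ ≠ 1) :
    ∃ y : V, {M : Matroid V | Good r M ∧ ∀ I : Set V, M.Indep I ↔ M.Indep (σ '' I)}.ncard ≤
      (Fintype.card V + 1) ^ (Fintype.card V ^ (r - 3)) *
        (1 + {M : Matroid {v : V // v ≠ y} | Good r M}.ncard) := by
  classical
  obtain ⟨x, hx⟩ : ∃ x, σ x ≠ x := by
    by_contra hc
    push Not at hc
    exact hσ (Equiv.ext hc)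
  set y := σ x with hy
  have hxy : x ≠ y := hx.symm
  have : Finite (Matroid V) := finite_matroid
  have : Finite (Matroid {v : V // v ≠ y}) := finite_matroid
  refine ⟨y, ?_⟩
  set T1 : Set (Matroid V) := {M | (Good r M ∧ ∀ I : Set V, M.Indep I ↔ M.Indep (σ '' I)) ∧
    ∀ B, M.IsBase B → y ∈ B} with hT1
  set T2 : Set (Matroid V) := {M | (Good r M ∧ ∀ I : Set V, M.Indep I ↔ M.Indep (σ '' I)) ∧
    ∃ B, M.IsBase B ∧ y ∉ B} with hT2
  have hsub : {M : Matroid V | Good r M ∧ ∀ I : Set V, M.Indep I ↔ M.Indep (σ '' I)} ⊆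
      T1 ∪ T2 := by
    intro M hM
    by_cases h : ∀ B, M.IsBase B → y ∈ B
    · exact Or.inl ⟨hM, h⟩
    · push Not at h
      exact Or.inr ⟨hM, h⟩
  -- the index type of the data
  let ι := {J : Finset V // J.card = r - 4} × V
  let F : Matroid V → ι → Option V := fun M q => fdat M x y q.1.1 q.2
  have hF : ∀ M₁ M₂ : Matroid V, F M₁ = F M₂ →
      ∀ J : Finset V, J.card = r - 4 → ∀ u, fdat M₁ x y J u = fdat M₂ x y J u := by
    intro M₁ M₂ h J hJ u
    exact congrFun h (⟨J, hJ⟩, u)
  have hcardF : (Set.univ : Set (ι → Option V)).ncard ≤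
      (Fintype.card V + 1) ^ (Fintype.card V ^ (r - 3)) := by
    rw [Set.ncard_univ, Nat.card_eq_fintype_card, Fintype.card_fun, Fintype.card_option]
    refine Nat.pow_le_pow_right (by omega) ?_
    rw [Fintype.card_prod, Fintype.card_finset_len]
    obtain ⟨k, hk⟩ : ∃ k, r = k + 4 := ⟨r - 4, by omega⟩
    have e1 : r - 4 = k := by omega
    have e2 : r - 3 = k + 1 := by omega
    rw [e1, e2, pow_succ]
    exact Nat.mul_le_mul_right _ (Nat.choose_le_pow _ _)
  have h1 : T1.ncard ≤ (Set.univ : Set (ι → Option V)).ncard := by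
    refine Set.ncard_le_ncard_of_injOn F (fun _ _ => Set.mem_univ _) ?_ (Set.toFinite _)
    have key : ∀ M₁ M₂ : Matroid V, M₁ ∈ T1 → M₂ ∈ T1 → F M₁ = F M₂ →
        ∀ I : Set V, I.ncard = r → M₁.Indep I → M₂.Indep I := by
      rintro M₁ M₂ ⟨⟨hM, hinv⟩, hcol⟩ ⟨⟨hM', _⟩, _⟩ h I hI hi
      obtain ⟨B, hB, hIB⟩ := hi.exists_isBase_superset
      have hIeq : I = B := Set.eq_of_subset_of_ncard_le hIB
        (by rw [hI, hM.2.2 B hB]) (Set.toFinite _)
      have hyI : y ∈ I := by rw [hIeq]; exact hcol B hB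
      have hxI : x ∈ I := by
        have h2 : M₁.Indep (σ '' B) := (hinv B).1 hB.indep
        obtain ⟨B', hB', hBB'⟩ := h2.exists_isBase_superset
        have h3 : (σ '' B).ncard = r := by
          rw [Set.ncard_image_of_injective _ σ.injective]
          exact hM.2.2 B hB
        have h4 : σ '' B = B' := Set.eq_of_subset_of_ncard_le hBB'
          (by rw [h3, hM.2.2 B' hB']) (Set.toFinite _)
        have h5 := hcol B' hB'
        rw [← h4] at h5
        obtain ⟨z, hz, hzy⟩ := h5
        have : z = x := σ.injective hzy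
        rw [hIeq]
        rwa [this] at hz
      exact det_xy hr hM hM' hxy (hF _ _ h) hI hxI hyI hi
    intro M₁ hM₁ M₂ hM₂ h
    exact ext_card hM₁.1.1 hM₂.1.1 (key M₁ M₂ hM₁ hM₂ h) (key M₂ M₁ hM₂ hM₁ h.symm)
  have h2 : T2.ncard ≤ {M : Matroid {v : V // v ≠ y} | Good r M}.ncard *
      (Set.univ : Set (ι → Option V)).ncard := by
    rw [← Set.ncard_prod]
    refine Set.ncard_le_ncard_of_injOn
      (fun M => (M.comap (Subtype.val : {v : V // v ≠ y} → V), F M)) ?_ ?_ (Set.toFinite _)
    · rintro M ⟨⟨hM, _⟩, B, hB, hyB⟩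
      exact ⟨good_comap hM hB hyB, Set.mem_univ _⟩
    · have key : ∀ M₁ M₂ : Matroid V, M₁ ∈ T2 → M₂ ∈ T2 →
          M₁.comap (Subtype.val : {v : V // v ≠ y} → V) =
            M₂.comap (Subtype.val : {v : V // v ≠ y} → V) → F M₁ = F M₂ →
          ∀ I : Set V, I.ncard = r → M₁.Indep I → M₂.Indep I := by
        rintro M₁ M₂ ⟨⟨h₁, i₁⟩, -⟩ ⟨⟨h₂, i₂⟩, -⟩ e1 e2
        have ka : ∀ I : Set V, y ∉ I → M₁.Indep I → M₂.Indep I := by
          intro I hI hi
          rw [comap_indep' M₁ hI, e1] at hi
          rw [comap_indep' M₂ hI]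
          exact hi
        have kb : ∀ I : Set V, I.ncard = r → x ∈ I → M₁.Indep I → M₂.Indep I := by
          intro I hIr hI hi
          by_cases hyI : y ∈ I
          · exact det_xy hr h₁ h₂ hxy (hF _ _ e2) hIr hI hyI hi
          · exact ka I hyI hi
        intro I hIr hi
        by_cases hyI : y ∈ I
        · have e3 : σ '' (σ ⁻¹' I) = I := Set.image_preimage_eq _ σ.surjective
          have hx' : x ∈ σ ⁻¹' I := hyI
          have hcard : (σ ⁻¹' I).ncard = r := by
            rw [← hIr]
            nth_rewrite 2 [← e3]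
            rw [Set.ncard_image_of_injective _ σ.injective]
          rw [← e3, ← i₁] at hi
          rw [← e3, ← i₂]
          exact kb _ hcard hx' hi
        · exact ka I hyI hi
      intro M₁ hM₁ M₂ hM₂ heq
      have e1 := congrArg Prod.fst heq
      have e2 := congrArg Prod.snd heq
      exact ext_card hM₁.1.1 hM₂.1.1 (key M₁ M₂ hM₁ hM₂ e1 e2)
        (key M₂ M₁ hM₂ hM₁ e1.symm e2.symm)
  calc _ ≤ (T1 ∪ T2).ncard := Set.ncard_le_ncard hsub (Set.toFinite _)
    _ ≤ T1.ncard + T2.ncard := Set.ncard_union_le _ _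
    _ ≤ (Set.univ : Set (ι → Option V)).ncard + {M : Matroid {v : V // v ≠ y} | Good r M}.ncard *
      (Set.univ : Set (ι → Option V)).ncard := add_le_add h1 h2
    _ = (Set.univ : Set (ι → Option V)).ncard *
        (1 + {M : Matroid {v : V // v ≠ y} | Good r M}.ncard) := by ring
    _ ≤ _ := Nat.mul_le_mul_right _ hcardF

end Pool.Agent.Helper41.R7
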