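/-
MP_e8bc6f_co, project R7, block R7-ITER (packings avoiding many sets are rare).
-/
import Pool.Agent.Helper41.R7.EXT
import Pool.Agent.Helper41.R7.BAS

set_option autoImplicit false

namespace Pool.Agent.Helper41.R7

open Finset

theorem iter_gain {r : ℕ} (hG : GainProp r) (C : ℕ) : ∃ n0 : ℕ, ∀ (V : Type)
    [Fintype V] [DecidableEq V], n0 ≤ Fintype.card V →
    ∀ S : Finset (Finset V), (∀ e ∈ S, e.card + 2 = r) →
      (∀ D : Finset V, D.card + 3 = r → 1000 * dg S D ≤ Fintype.card V) →
      (Fam r S).card * Fintype.card V ^ (C * S.card) ≤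
        (Fam r (∅ : Finset (Finset V))).card := by
  obtain ⟨n0, h0⟩ := hG C
  refine ⟨n0, ?_⟩
  intro V _ _ hn S
  induction S using Finset.induction_on with
  | empty => intro _ _; simp
  | @insert e S he ih =>
    intro hS hdeg
    have hS' : ∀ f ∈ S, f.card + 2 = r := fun f hf => hS f (mem_insert_of_mem hf)
    have hdeg' : ∀ D : Finset V, D.card + 3 = r → 1000 * dg S D ≤ Fintype.card V := by
      intro D hD
      have h1 : dg S D ≤ dg (insert e S) D :=
        card_le_card (filter_subset_filter _ (subset_insert e S))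
      exact (Nat.mul_le_mul_left _ h1).trans (hdeg D hD)
    have hg := h0 V hn S hS' hdeg' e (hS e (mem_insert_self e S)) he
    have hi := ih hS' hdeg'
    rw [card_insert_of_notMem he, Nat.mul_add, Nat.mul_one, pow_add]
    calc (Fam r (insert e S)).card * (Fintype.card V ^ (C * S.card) * Fintype.card V ^ C)
        = ((Fam r (insert e S)).card * Fintype.card V ^ C) * Fintype.card V ^ (C * S.card) := by
          ring
      _ ≤ (Fam r S).card * Fintype.card V ^ (C * S.card) := Nat.mul_le_mul_right _ hg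
      _ ≤ _ := hi

/-- Iteration of the gain property (induction on `S`: a subset of `S` has smaller degrees), then
`extract`: with `C' = 2000 r C`, `n^(C' |S0|) ≥ n^(C |S|)` and `Fam r S ⊆ Fam r S0`. -/
theorem fam_small {r : ℕ} (hr : 4 ≤ r) (hG : GainProp r) (C : ℕ) : ∃ n0 : ℕ, ∀ (V : Type)
    [Fintype V] [DecidableEq V], n0 ≤ Fintype.card V →
    ∀ S : Finset (Finset V), (∀ e ∈ S, e.card + 2 = r) →
      (Fam r S).card * Fintype.card V ^ (C * S.card) ≤
        (Fam r (∅ : Finset (Finset V))).card := by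
  obtain ⟨n0, h0⟩ := iter_gain hG (2000 * r * C)
  refine ⟨max n0 1000, ?_⟩
  intro V _ _ hn S hS
  have hn0 : n0 ≤ Fintype.card V := (le_max_left _ _).trans hn
  have hn1 : 1000 ≤ Fintype.card V := (le_max_right _ _).trans hn
  obtain ⟨S0, hS0, hdeg, hcard⟩ := extract hr hn1 S hS
  have h1 := h0 V hn0 S0 (fun e he => hS e (hS0 he)) hdeg
  refine le_trans (Nat.mul_le_mul (card_le_card (fam_anti hS0)) ?_) h1
  refine Nat.pow_le_pow_right (by omega) ?_
  calc C * S.card ≤ C * (2000 * r * S0.card) := Nat.mul_le_mul_left _ hcard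
    _ = 2000 * r * C * S0.card := by ring

end Pool.Agent.Helper41.R7
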