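/-
MP_e8bc6f_co, project R7, block R7-SUMD (generating function of the data).
-/
import Pool.Agent.Helper41.R7.Defs

set_option autoImplicit false

namespace Pool.Agent.Helper41.R7

open Finset

open Classical in
/-- `∑_D z^(cost D) = ∏_i ∑_L ∏_{G ∈ L} z^|G| = (∏_{G ≠ ∅} (1 + z^|G|))^r ≤
exp (r ((1+z)^n - 1)) ≤ exp (2 r n z)`, and the trivial `D` contributes `1`; `exp s - 1 ≤ 2 s` for
`s ≤ 1` (see `sum_prod_le` in Pool.Agent.Helper2.R4.SUM). -/
theorem sum_cost_le {V : Type*} [Fintype V] [LinearOrder V] (r : ℕ) (z : ℝ) (hz : 0 ≤ z)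
    (hz1 : 2 * r * Fintype.card V * z ≤ 1) :
    ∑ D ∈ (univ : Finset (Fin r → Finset (Finset V))).filter
      (fun D => (∀ i, ∀ G ∈ D i, G.Nonempty) ∧ D ≠ fun _ => ∅), z ^ cost D ≤
        4 * r * Fintype.card V * z := by
  set n : ℝ := (Fintype.card V : ℝ) with hn
  have hn0 : 0 ≤ n := by positivity
  have hnz : 0 ≤ n * z := mul_nonneg hn0 hz
  rcases Nat.eq_zero_or_pos r with hr | hr
  · subst hr
    rw [Finset.sum_eq_zero]
    · simp
    · intro D hD
      rw [Finset.mem_filter] at hD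
      exact absurd (funext fun i => i.elim0) hD.2.2
  have hr1 : (1 : ℝ) ≤ r := by exact_mod_cast hr
  have hnz1 : n * z ≤ 1 := by nlinarith
  set X : Finset (Finset V) := univ.erase ∅ with hX
  have hterm : ∀ l : Finset V, 0 ≤ z ^ l.card := fun l => pow_nonneg hz _
  set P : Finset (Fin r → Finset (Finset V)) := Fintype.piFinset (fun _ => X.powerset) with hP
  have hcost : ∀ D : Fin r → Finset (Finset V), z ^ cost D = ∏ i, ∏ G ∈ D i, z ^ G.card := by
    intro D
    rw [cost, ← Finset.prod_pow_eq_pow_sum]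
    exact Finset.prod_congr rfl fun i _ => (Finset.prod_pow_eq_pow_sum (D i) _ z).symm
  have hmem0 : (fun _ => ∅) ∈ P := by
    rw [hP, Fintype.mem_piFinset]
    exact fun _ => Finset.empty_mem_powerset _
  have h1 : ∑ D ∈ (univ : Finset (Fin r → Finset (Finset V))).filter
      (fun D => (∀ i, ∀ G ∈ D i, G.Nonempty) ∧ D ≠ fun _ => ∅), z ^ cost D
      ≤ ∑ D ∈ P.erase (fun _ => ∅), z ^ cost D := by
    refine Finset.sum_le_sum_of_subset_of_nonneg ?_ (fun D _ _ => pow_nonneg hz _)
    intro D hD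
    rw [Finset.mem_filter] at hD
    rw [Finset.mem_erase, hP, Fintype.mem_piFinset]
    refine ⟨hD.2.2, fun i => ?_⟩
    rw [Finset.mem_powerset]
    intro G hG
    rw [hX, Finset.mem_erase]
    exact ⟨(hD.2.1 i G hG).ne_empty, Finset.mem_univ _⟩
  have h2 : ∑ D ∈ P.erase (fun _ => ∅), z ^ cost D = ∑ D ∈ P, z ^ cost D - 1 := by
    rw [← Finset.add_sum_erase P _ hmem0]
    simp [cost]
  have h3 : ∑ D ∈ P, z ^ cost D = (∏ l ∈ X, (1 + z ^ l.card)) ^ r := by
    rw [Finset.sum_congr rfl (fun D _ => hcost D), hP,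
      ← Finset.prod_univ_sum (fun _ : Fin r => X.powerset) (fun _ L => ∏ G ∈ L, z ^ G.card),
      Finset.prod_const, Finset.card_univ, Fintype.card_fin, Finset.prod_one_add]
  have h4 : ∏ l ∈ X, (1 + z ^ l.card) ≤ Real.exp (∑ l ∈ X, z ^ l.card) := by
    rw [Real.exp_sum]
    refine Finset.prod_le_prod (fun l _ => ?_) (fun l _ => ?_)
    · have := hterm l
      linarith
    · have := Real.add_one_le_exp (z ^ l.card)
      linarith
  have h5 : ∑ l ∈ X, z ^ l.card = (1 + z) ^ (Fintype.card V) - 1 := by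
    have h6 : ∑ l : Finset V, z ^ l.card = (1 + z) ^ (Fintype.card V) := by
      have := Fintype.sum_pow_mul_eq_add_pow V z (1 : ℝ)
      simp only [one_pow, mul_one] at this
      rw [this, add_comm]
    have h8 := Finset.add_sum_erase (univ : Finset (Finset V)) (fun l => z ^ l.card)
      (Finset.mem_univ ∅)
    simp only [Finset.card_empty, pow_zero] at h8
    rw [hX]
    linarith
  have h9 : (1 + z) ^ (Fintype.card V) ≤ Real.exp (n * z) := by
    have h10 : (1 + z) ^ (Fintype.card V) ≤ (Real.exp z) ^ (Fintype.card V) := by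
      refine pow_le_pow_left₀ (by linarith) ?_ _
      have := Real.add_one_le_exp z
      linarith
    rw [← Real.exp_nat_mul] at h10
    exact h10
  have h11 : Real.exp (n * z) - 1 ≤ 2 * (n * z) := by
    have := Real.abs_exp_sub_one_le (x := n * z) (by rw [abs_of_nonneg hnz]; linarith)
    rw [abs_of_nonneg hnz] at this
    exact (le_abs_self _).trans this
  have h12 : ∏ l ∈ X, (1 + z ^ l.card) ≤ Real.exp (2 * (n * z)) :=
    h4.trans (Real.exp_le_exp.2 (by linarith))
  have h13 : (∏ l ∈ X, (1 + z ^ l.card)) ^ r ≤ Real.exp (2 * r * n * z) := by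
    have h14 : (∏ l ∈ X, (1 + z ^ l.card)) ^ r ≤ (Real.exp (2 * (n * z))) ^ r := by
      refine pow_le_pow_left₀ (Finset.prod_nonneg fun l _ => ?_) h12 _
      have := hterm l
      linarith
    rw [← Real.exp_nat_mul] at h14
    have h15 : (r : ℝ) * (2 * (n * z)) = 2 * r * n * z := by ring
    rw [h15] at h14
    exact h14
  have hrnz : 0 ≤ 2 * r * n * z := by positivity
  have h16 : Real.exp (2 * r * n * z) - 1 ≤ 2 * (2 * r * n * z) := by
    have := Real.abs_exp_sub_one_le (x := 2 * r * n * z) (by rw [abs_of_nonneg hrnz]; exact hz1)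
    rw [abs_of_nonneg hrnz] at this
    exact (le_abs_self _).trans this
  calc _ ≤ _ := h1
    _ = _ := h2
    _ ≤ Real.exp (2 * r * n * z) - 1 := by rw [h3]; linarith
    _ ≤ _ := h16
    _ = _ := by ring

end Pool.Agent.Helper41.R7
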