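/-
MP_e8bc6f_co, project R7, block R7-LAB1 (labelled count).
-/
import Pool.Agent.Helper41.R7.ENC4
import Pool.Agent.Helper41.R7.ENC5
import Pool.Agent.Helper41.R7.ENC6
import Pool.Agent.Helper41.R7.SUMD
import Pool.Agent.Helper41.R7.ITER
import Pool.Agent.Helper2.R4.PAV

set_option autoImplicit false

namespace Pool.Agent.Helper41.R7

open Finset

/-- Matroids with nontrivial data.  Let `𝓜` be the set of the `M` with `Good r M` and
`dat r M ≠ ∅`.  For `D` in the image of `dat r` let `M_D` be one of them; `M ↦ gfam M (r-2)` is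
injective on the `M ∈ 𝓜` with `dat r M = D` (`det`) and has values in `Fam r (ntop M_D (r-2))`
(`gfam_mem`, `ntop_congr`).  So
`|𝓜| ≤ ∑_D |Fam r (ntop M_D (r-2))| ≤ ∑_D n^(-C' |ntop M_D|) |Fam r ∅|` (`fam_small`), and with
`C' = (C + 2) r 2^(r+1)` this is at most `∑_D z^(cost D) |Fam r ∅|`, `z = n^(-(C+2))` (`cost_le`), at
most `4 r n z |Fam r ∅| ≤ n^(-C) |Fam r ∅|` for `n ≥ 4 r` (`sum_cost_le`, `dat_nonempty`). -/
theorem card_dat_le {r : ℕ} (hr : 4 ≤ r) (hG : GainProp r) (C : ℕ) : ∃ n0 : ℕ, ∀ (V : Type)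
    [Fintype V] [LinearOrder V], n0 ≤ Fintype.card V →
    {M : Matroid V | Good r M ∧ dat r M ≠ fun _ => ∅}.ncard * Fintype.card V ^ C ≤
      (Fam r (∅ : Finset (Finset V))).card := by
  classical
  obtain ⟨n1, hn1⟩ := fam_small hr hG ((C + 2) * (r * 2 ^ (r + 1)))
  refine ⟨max n1 (4 * r), ?_⟩
  intro V _ _ hn
  have hnn1 : n1 ≤ Fintype.card V := (le_max_left _ _).trans hn
  have hn4 : 4 * r ≤ Fintype.card V := (le_max_right _ _).trans hn
  set n := Fintype.card V with hndef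
  have hn0 : 0 < n := by omega
  have hnR : (0 : ℝ) < n := by exact_mod_cast hn0
  have hn1R : (1 : ℝ) ≤ n := by exact_mod_cast hn0
  have hfin : Finite (Matroid V) := Pool.Agent.Helper2.R4.finite_matroid
  set 𝓜 : Set (Matroid V) := {M : Matroid V | Good r M ∧ dat r M ≠ fun _ => ∅} with hM
  -- the data
  set 𝓓 : Finset (Fin r → Finset (Finset V)) :=
    univ.filter (fun D => ∃ M : Matroid V, Good r M ∧ dat r M = D ∧ D ≠ fun _ => ∅) with h𝓓
  have hN : ∀ D : Fin r → Finset (Finset V), ∃ S : Finset (Finset V), (∀ e ∈ S, e.card + 2 = r) ∧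
      (D ∈ 𝓓 → cost D ≤ r * 2 ^ (r + 1) * S.card ∧
        ∀ M : Matroid V, Good r M → dat r M = D → gfam M (r - 2) ∈ Fam r S) := by
    intro D
    by_cases hD : D ∈ 𝓓
    · obtain ⟨M0, hM0, hD0, _⟩ := (mem_filter.mp hD).2
      refine ⟨ntop M0 (r - 2), ?_, fun _ => ⟨?_, ?_⟩⟩
      · intro e he
        unfold ntop at he
        rw [mem_filter] at he
        have := he.2.1
        omega
      · rw [← hD0]
        exact cost_le hr (by omega) hM0
      · intro M hM hMD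
        have h1 := gfam_mem (r := r) (i := r - 2) (by omega) (M := M) hM.1
        rwa [ntop_congr (by omega) hM hM0 (hMD.trans hD0.symm)] at h1
    · exact ⟨∅, by simp, fun h => absurd h hD⟩
  choose S hS1 hS2 using hN
  -- counting
  have hcount : 𝓜.ncard ≤ ∑ D ∈ 𝓓, (Fam r (S D)).card := by
    let Φ : Matroid V → (Σ _ : (Fin r → Finset (Finset V)), Finset (Finset V)) :=
      fun M => ⟨dat r M, gfam M (r - 2)⟩
    have hinj : Set.InjOn Φ 𝓜 := by
      intro M hM M' hM' h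
      have h1 : dat r M = dat r M' := congrArg Sigma.fst h
      have h2 : gfam M (r - 2) = gfam M' (r - 2) := by
        have := (Sigma.mk.inj_iff.mp h).2
        exact eq_of_heq this
      exact det (by omega) hM.1 hM'.1 h1 h2
    have himg : Φ '' 𝓜 ⊆ ((𝓓.sigma fun D => Fam r (S D) : Finset _) : Set _) := by
      rintro _ ⟨M, hM, rfl⟩
      have hD : dat r M ∈ 𝓓 := mem_filter.mpr ⟨mem_univ _, M, hM.1, rfl, hM.2⟩
      rw [mem_coe, mem_sigma]
      exact ⟨hD, (hS2 _ hD).2 M hM.1 rfl⟩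
    calc 𝓜.ncard = (Φ '' 𝓜).ncard := hinj.ncard_image.symm
      _ ≤ ((𝓓.sigma fun D => Fam r (S D) : Finset _) : Set _).ncard := Set.ncard_le_ncard himg (Finset.finite_toSet _)
      _ = ∑ D ∈ 𝓓, (Fam r (S D)).card := by rw [Set.ncard_coe_finset, card_sigma]
  set F0 : ℝ := ((Fam r (∅ : Finset (Finset V))).card : ℝ) with hF0
  have hF00 : 0 ≤ F0 := Nat.cast_nonneg _
  set z : ℝ := ((n : ℝ) ^ (C + 2))⁻¹ with hz
  have hz0 : 0 < z := by positivity
  have hterm : ∀ D ∈ 𝓓, ((Fam r (S D)).card : ℝ) ≤ z ^ cost D * F0 := by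
    intro D hD
    have h1 := hn1 V hnn1 (S D) (hS1 D)
    have h2 : ((Fam r (S D)).card : ℝ) * (n : ℝ) ^ ((C + 2) * (r * 2 ^ (r + 1)) * (S D).card) ≤ F0 := by
      rw [hF0]
      exact_mod_cast h1
    have h3 : (C + 2) * cost D ≤ (C + 2) * (r * 2 ^ (r + 1)) * (S D).card := by
      have := Nat.mul_le_mul_left (C + 2) (hS2 D hD).1
      rw [mul_assoc]
      exact this
    have h4 : (n : ℝ) ^ ((C + 2) * cost D) ≤ (n : ℝ) ^ ((C + 2) * (r * 2 ^ (r + 1)) * (S D).card) :=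
      pow_le_pow_right₀ hn1R h3
    have h5 : ((Fam r (S D)).card : ℝ) * (n : ℝ) ^ ((C + 2) * cost D) ≤ F0 :=
      (mul_le_mul_of_nonneg_left h4 (Nat.cast_nonneg _)).trans h2
    have h6 : z ^ cost D = ((n : ℝ) ^ ((C + 2) * cost D))⁻¹ := by
      rw [hz, inv_pow, ← pow_mul]
    rw [h6, mul_comm, ← div_eq_mul_inv, le_div_iff₀ (by positivity)]
    exact h5
  have hzn : (n : ℝ) * z ≤ ((n : ℝ) ^ (C + 1))⁻¹ := by
    rw [hz]
    have : (n : ℝ) ^ (C + 2) = n * (n : ℝ) ^ (C + 1) := by ring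
    rw [this, mul_inv, ← mul_assoc, mul_inv_cancel₀ hnR.ne', one_mul]
  have h4r : (4 * r : ℝ) ≤ n := by exact_mod_cast hn4
  have hr0 : (0 : ℝ) ≤ r := Nat.cast_nonneg _
  have hz1 : 4 * r * (n : ℝ) * z ≤ ((n : ℝ) ^ C)⁻¹ := by
    have h1 : ((n : ℝ) ^ (C + 1))⁻¹ = (n : ℝ)⁻¹ * ((n : ℝ) ^ C)⁻¹ := by
      rw [pow_succ, mul_inv, mul_comm]
    calc 4 * r * (n : ℝ) * z = 4 * r * (n * z) := by ring
      _ ≤ 4 * r * ((n : ℝ) ^ (C + 1))⁻¹ := mul_le_mul_of_nonneg_left hzn (by positivity)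
      _ = (4 * r * (n : ℝ)⁻¹) * ((n : ℝ) ^ C)⁻¹ := by rw [h1]; ring
      _ ≤ 1 * ((n : ℝ) ^ C)⁻¹ := by
          refine mul_le_mul_of_nonneg_right ?_ (by positivity)
          rw [← div_eq_mul_inv, div_le_one hnR]
          exact h4r
      _ = _ := one_mul _
  have hnC : ((n : ℝ) ^ C)⁻¹ ≤ 1 := inv_le_one_of_one_le₀ (one_le_pow₀ hn1R)
  have hz2 : 2 * r * (n : ℝ) * z ≤ 1 := by
    have : 0 ≤ r * (n : ℝ) * z := by positivity
    linarith
  have hsum := sum_cost_le (V := V) r z hz0.le hz2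
  have hsub : 𝓓 ⊆ (univ : Finset (Fin r → Finset (Finset V))).filter
      (fun D => (∀ i, ∀ G ∈ D i, G.Nonempty) ∧ D ≠ fun _ => ∅) := by
    intro D hD
    obtain ⟨M0, hM0, hD0, hDne⟩ := (mem_filter.mp hD).2
    refine mem_filter.mpr ⟨mem_univ _, ?_, hDne⟩
    intro i G hGi
    rw [← hD0] at hGi
    exact dat_nonempty i hGi
  have hfinal : (𝓜.ncard : ℝ) ≤ ((n : ℝ) ^ C)⁻¹ * F0 := by
    calc (𝓜.ncard : ℝ) ≤ ∑ D ∈ 𝓓, ((Fam r (S D)).card : ℝ) := by exact_mod_cast hcount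
      _ ≤ ∑ D ∈ 𝓓, z ^ cost D * F0 := Finset.sum_le_sum hterm
      _ = (∑ D ∈ 𝓓, z ^ cost D) * F0 := by rw [Finset.sum_mul]
      _ ≤ (4 * r * (n : ℝ) * z) * F0 := by
          refine mul_le_mul_of_nonneg_right ?_ hF00
          refine (Finset.sum_le_sum_of_subset_of_nonneg hsub fun D _ _ => pow_nonneg hz0.le _).trans ?_
          convert hsum using 2
      _ ≤ _ := mul_le_mul_of_nonneg_right hz1 hF00
  have hnCpos : (0 : ℝ) < (n : ℝ) ^ C := by positivity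
  have hres : (𝓜.ncard : ℝ) * (n : ℝ) ^ C ≤ F0 := by
    calc (𝓜.ncard : ℝ) * (n : ℝ) ^ C ≤ (((n : ℝ) ^ C)⁻¹ * F0) * (n : ℝ) ^ C :=
          mul_le_mul_of_nonneg_right hfinal hnCpos.le
      _ = F0 := by field_simp
  rw [hF0] at hres
  exact_mod_cast hres

end Pool.Agent.Helper41.R7
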