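/-
MP_e8bc6f_co, project R7, block R7-LAB2 (labelled count, conclusions).
-/
import Pool.Agent.Helper41.R7.LAB1

set_option autoImplicit false

namespace Pool.Agent.Helper41.R7

open Finset

theorem card_nonpav_le {r : ℕ} (hr : 4 ≤ r) (hG : GainProp r) (C : ℕ) : ∃ n0 : ℕ,
    ∀ (V : Type) [Fintype V] [LinearOrder V], n0 ≤ Fintype.card V →
    {M : Matroid V | Good r M ∧ ¬ Pav r M}.ncard * Fintype.card V ^ C ≤
      (Fam r (∅ : Finset (Finset V))).card := by
  obtain ⟨n0, h0⟩ := card_dat_le hr hG C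
  refine ⟨n0, fun V _ _ hn => le_trans (Nat.mul_le_mul_right _ ?_) (h0 V hn)⟩
  have : Finite (Matroid V) := Helper2.R4.finite_matroid
  refine Set.ncard_le_ncard ?_ (Set.toFinite _)
  rintro M ⟨h1, h2⟩
  exact ⟨h1, dat_ne (by omega) h1 h2⟩

/-- All simple matroids of rank `r`: those with trivial data are mapped injectively into
`Fam r ∅` by `gfam · (r-2)` (`det`, `gfam_mem`, `fam_anti`). -/
theorem card_good_le {r : ℕ} (hr : 4 ≤ r) (hG : GainProp r) : ∃ n0 : ℕ,
    ∀ (V : Type) [Fintype V] [LinearOrder V], n0 ≤ Fintype.card V →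
    {M : Matroid V | Good r M}.ncard ≤ 2 * (Fam r (∅ : Finset (Finset V))).card := by
  obtain ⟨n0, h0⟩ := card_dat_le hr hG 0
  refine ⟨n0, fun V _ _ hn => ?_⟩
  have hfin : Finite (Matroid V) := Helper2.R4.finite_matroid
  have h1 := h0 V hn
  rw [pow_zero, mul_one] at h1
  have h2 : {M : Matroid V | Good r M ∧ dat r M = fun _ => ∅}.ncard ≤
      (Fam r (∅ : Finset (Finset V))).card := by
    rw [← Set.ncard_coe_finset]
    refine Set.ncard_le_ncard_of_injOn (fun M => gfam M (r - 2)) ?_ ?_ (Set.toFinite _)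
    · rintro M ⟨hM, -⟩
      exact mem_coe.2 (fam_anti (empty_subset _) (gfam_mem (by omega) hM.1))
    · rintro M ⟨hM, hd⟩ M' ⟨hM', hd'⟩ h
      exact det (by omega) hM hM' (hd.trans hd'.symm) h
  have h3 : {M : Matroid V | Good r M} ⊆ {M : Matroid V | Good r M ∧ dat r M ≠ fun _ => ∅} ∪
      {M : Matroid V | Good r M ∧ dat r M = fun _ => ∅} := by
    intro M hM
    by_cases h : dat r M = fun _ => ∅
    · exact Or.inr ⟨hM, h⟩
    · exact Or.inl ⟨hM, h⟩
  have h4 := (Set.ncard_le_ncard h3 (Set.toFinite _)).trans (Set.ncard_union_le _ _)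
  omega

end Pool.Agent.Helper41.R7
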