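/-
MP_e8bc6f_co, project R7, block R7-PAV1 (from packings to paving matroids).
-/
import Pool.Agent.Helper41.R7.BAS
import Pool.Agent.Helper2.R4.PAV

set_option autoImplicit false

namespace Pool.Agent.Helper41.R7

open Finset

variable {V : Type*} [Fintype V] [DecidableEq V]

/-- A packing without the block `univ` defines a paving matroid of rank `r`: the independent sets
are those with less than `r` elements and those with `r` elements which lie in no block (see
Pool.Agent.Helper2.R4.PAV for `r = 4`).  Augmentation: for `|I| = r - 1 < |J| = r`, if no block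
contains `I` any `x ∈ J \ I` works, and if `I ⊆ b` (`b` is unique) some `x ∈ J \ b`. -/
theorem exists_mat {r : ℕ} (hr : 3 ≤ r) (B : Finset (Finset V))
    (hB : B ∈ Fam r (∅ : Finset (Finset V))) (hu : univ ∉ B) (hV : r ≤ Fintype.card V) :
    ∃ M : Matroid V, Good r M ∧ Pav r M ∧
      ∀ I : Finset V, I.card = r → (M.Indep (I : Set V) ↔ ∀ b ∈ B, ¬ I ⊆ b) := by
  classical
  have hP := (mem_fam.1 hB).1
  -- a set with `r - 1` elements and a point outside every block through it
  have key : ∀ (I : Set V) (x : V), I.ncard + 1 = r → x ∉ I →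
      (∀ b ∈ B, I ⊆ (b : Set V) → x ∉ b) →
      (insert x I : Set V).ncard = r ∧ ∀ b ∈ B, ¬ (insert x I : Set V) ⊆ (b : Set V) := by
    intro I x hI hx h
    refine ⟨?_, fun b hb hs => ?_⟩
    · rw [Set.ncard_insert_of_notMem hx (Set.toFinite _), hI]
    · exact h b hb ((Set.subset_insert x I).trans hs) (hs (Set.mem_insert x I))
  have huniq : ∀ (I : Set V), I.ncard + 1 = r → ∀ b ∈ B, ∀ c ∈ B, I ⊆ (b : Set V) →
      I ⊆ (c : Set V) → b = c := by
    intro I hI b hb c hc h1 h2
    have h3 : I.toFinset.card + 1 = r := by rw [← Set.ncard_eq_toFinset_card', hI]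
    exact pack_uniq hP hb hc (t := I.toFinset) (by omega)
      (fun v hv => h1 (Set.mem_toFinset.1 hv)) (fun v hv => h2 (Set.mem_toFinset.1 hv))
  have hne : ∀ I : Set V, I.ncard + 1 ≤ r → I ≠ Set.univ := by
    intro I hI h2
    rw [h2, Set.ncard_univ, Nat.card_eq_fintype_card] at hI
    omega
  have hext : ∀ I : Set V, I.ncard + 1 = r →
      ∃ x, x ∉ I ∧ ∀ b ∈ B, I ⊆ (b : Set V) → x ∉ b := by
    intro I hI
    by_cases h : ∃ b ∈ B, I ⊆ (b : Set V)
    · obtain ⟨b, hb, hIb⟩ := h
      have hbu : b ≠ univ := fun h => hu (h ▸ hb)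
      obtain ⟨x, hx⟩ : ∃ x, x ∉ b := by
        by_contra hc
        push Not at hc
        exact hbu (eq_univ_iff_forall.2 hc)
      refine ⟨x, fun hxI => hx (hIb hxI), fun c hc hIc => ?_⟩
      rw [huniq I hI c hc b hb hIc hIb]
      exact hx
    · push Not at h
      obtain ⟨x, hx⟩ := (Set.ne_univ_iff_exists_notMem I).1 (hne I hI.le)
      exact ⟨x, hx, fun b hb hIb => (h b hb hIb).elim⟩
  let Ind : Set V → Prop := fun I =>
    I.ncard + 1 ≤ r ∨ (I.ncard = r ∧ ∀ b ∈ B, ¬ I ⊆ (b : Set V))
  have haug : ∀ ⦃I J : Set V⦄, Ind I → Ind J → I.ncard < J.ncard →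
      ∃ e ∈ J, e ∉ I ∧ Ind (insert e I) := by
    intro I J hI hJ hlt
    have hJ4 : J.ncard ≤ r := by rcases hJ with h | h <;> omega
    by_cases h2 : I.ncard + 2 ≤ r
    · obtain ⟨e, heJ, heI⟩ := Set.exists_mem_notMem_of_ncard_lt_ncard hlt
      refine ⟨e, heJ, heI, Or.inl ?_⟩
      have := Set.ncard_insert_le e I
      omega
    · have hI3 : I.ncard + 1 = r := by omega
      have hJ' : J.ncard = r ∧ ∀ b ∈ B, ¬ J ⊆ (b : Set V) := by
        rcases hJ with h | h
        · omega
        · exact h
      by_cases h : ∃ b ∈ B, I ⊆ (b : Set V)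
      · obtain ⟨b, hb, hIb⟩ := h
        obtain ⟨e, heJ, heb⟩ := Set.not_subset.1 (hJ'.2 b hb)
        have heI : e ∉ I := fun h => heb (hIb h)
        refine ⟨e, heJ, heI, Or.inr (key I e hI3 heI fun c hc hIc => ?_)⟩
        rw [huniq I hI3 c hc b hb hIc hIb]
        exact heb
      · push Not at h
        obtain ⟨e, heJ, heI⟩ := Set.exists_mem_notMem_of_ncard_lt_ncard hlt
        exact ⟨e, heJ, heI, Or.inr (key I e hI3 heI fun b hb hIb => (h b hb hIb).elim)⟩
  let M : IndepMatroid V := IndepMatroid.ofFinite (E := Set.univ) (Set.toFinite _) Ind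
    (Or.inl (by rw [Set.ncard_empty]; omega))
    (by
      intro I J hJ hIJ
      have hle := Set.ncard_le_ncard hIJ (Set.toFinite _)
      rcases hJ with h | h
      · exact Or.inl (by omega)
      · rcases Nat.lt_or_ge I.ncard r with h4 | h4
        · exact Or.inl (by omega)
        · have : I = J := Set.eq_of_subset_of_ncard_le hIJ (by omega) (Set.toFinite _)
          exact Or.inr (this ▸ h))
    haug
    (fun I _ => Set.subset_univ I)
  have hind : ∀ I : Set V, M.matroid.Indep I ↔ Ind I := fun I => Iff.rfl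
  refine ⟨M.matroid, ⟨rfl, fun I hI => ?_, fun J hJ => ?_⟩, fun I hI => ?_, fun I hI => ?_⟩
  · rw [hind]
    exact Or.inl (by omega)
  · have h1 : Ind J := (hind J).1 hJ.indep
    by_contra h4
    have hJ3 : J.ncard + 1 ≤ r := by
      rcases h1 with h | h
      · exact h
      · exact (h4 h.1).elim
    have h5 : ∃ x, x ∉ J ∧ Ind (insert x J) := by
      by_cases h3 : J.ncard + 1 = r
      · obtain ⟨x, hx, h⟩ := hext J h3
        exact ⟨x, hx, Or.inr (key J x h3 hx h)⟩
      · obtain ⟨x, hx⟩ := (Set.ne_univ_iff_exists_notMem J).1 (hne J hJ3)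
        refine ⟨x, hx, Or.inl ?_⟩
        have := Set.ncard_insert_le x J
        omega
    obtain ⟨x, hx, hi⟩ := h5
    have h6 := hJ.eq_of_subset_indep ((hind _).2 hi) (Set.subset_insert x J)
    exact hx (h6 ▸ Set.mem_insert x J)
  · rw [hind]
    exact Or.inl hI
  · rw [hind]
    have h1 : (I : Set V).ncard = r := by rw [Set.ncard_coe_finset, hI]
    constructor
    · rintro (h | h)
      · omega
      · intro b hb hs
        exact h.2 b hb (by exact_mod_cast hs)
    · intro h
      exact Or.inr ⟨h1, fun b hb hs => h b hb (by exact_mod_cast hs)⟩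

end Pool.Agent.Helper41.R7
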