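/-
MP_e8bc6f_co, project R7, block R7-PAV2 (number of paving matroids).
-/
import Pool.Agent.Helper41.R7.PAV1

set_option autoImplicit false

namespace Pool.Agent.Helper41.R7

open Finset

variable {V : Type*} [Fintype V] [DecidableEq V]

private theorem h27_mem_fam {r : ℕ} {B : Finset (Finset V)} :
    B ∈ Fam r (∅ : Finset (Finset V)) ↔ IsPack r B := by
  classical
  unfold Fam Avoids
  simp

private theorem h27_eq {r : ℕ} {B : Finset (Finset V)} (hB : IsPack r B) {b c t : Finset V}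
    (hb : b ∈ B) (hc : c ∈ B) (ht : r ≤ t.card + 1) (htb : t ⊆ b) (htc : t ⊆ c) : b = c := by
  by_contra hne
  have h1 := hB.2 b hb c hc hne
  have h2 := card_le_card (subset_inter htb htc)
  omega

private theorem h27_det_sub {r : ℕ} (hr : 3 ≤ r) {B B' : Finset (Finset V)} (hB : IsPack r B)
    (hB' : IsPack r B')
    (h : ∀ I : Finset V, I.card = r → ((∀ b ∈ B, ¬ I ⊆ b) ↔ ∀ b ∈ B', ¬ I ⊆ b))
    {b : Finset V} (hb : b ∈ B) : ∃ c ∈ B', b ⊆ c := by
  have h4 := hB.1 b hb
  obtain ⟨t, htb, ht⟩ := exists_subset_card_eq (show r - 1 ≤ b.card by omega)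
  have hx : ∀ x ∈ b, x ∉ t → ∃ c ∈ B', insert x t ⊆ c := by
    intro x hxb hxt
    by_contra hc
    push Not at hc
    have h5 := (h (insert x t) (by rw [card_insert_of_notMem hxt, ht]; omega)).2 hc
    exact h5 b hb (insert_subset hxb htb)
  obtain ⟨x, hxb, hxt⟩ := exists_mem_notMem_of_card_lt_card (show t.card < b.card by omega)
  obtain ⟨c, hc, hxc⟩ := hx x hxb hxt
  refine ⟨c, hc, fun y hy => ?_⟩
  by_cases hyt : y ∈ t
  · exact hxc (mem_insert_of_mem hyt)
  · obtain ⟨d, hd, hyd⟩ := hx y hy hyt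
    have : c = d := h27_eq hB' hc hd (t := t) (by omega)
      ((subset_insert x t).trans hxc) ((subset_insert y t).trans hyd)
    rw [this]
    exact hyd (mem_insert_self y t)

private theorem h27_det {r : ℕ} (hr : 3 ≤ r) {B B' : Finset (Finset V)} (hB : IsPack r B)
    (hB' : IsPack r B')
    (h : ∀ I : Finset V, I.card = r → ((∀ b ∈ B, ¬ I ⊆ b) ↔ ∀ b ∈ B', ¬ I ⊆ b)) : B ⊆ B' := by
  intro b hb
  obtain ⟨c, hc, hbc⟩ := h27_det_sub hr hB hB' h hb
  obtain ⟨d, hd, hcd⟩ := h27_det_sub hr hB' hB (fun I hI => (h I hI).symm) hc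
  have h4 := hB.1 b hb
  have h1 : b = d := h27_eq hB hb hd (t := b) (by omega) (Subset.refl b) (hbc.trans hcd)
  have h2 : b = c := Subset.antisymm hbc (h1 ▸ hcd)
  rw [h2]
  exact hc

/-- A packing is determined by the `r`-sets contained in blocks. -/
theorem fam_det {r : ℕ} (hr : 3 ≤ r) {B B' : Finset (Finset V)}
    (hB : B ∈ Fam r (∅ : Finset (Finset V))) (hB' : B' ∈ Fam r (∅ : Finset (Finset V)))
    (h : ∀ I : Finset V, I.card = r → ((∀ b ∈ B, ¬ I ⊆ b) ↔ ∀ b ∈ B', ¬ I ⊆ b)) : B = B' :=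
  Subset.antisymm (h27_det hr (h27_mem_fam.1 hB) (h27_mem_fam.1 hB') h)
    (h27_det hr (h27_mem_fam.1 hB') (h27_mem_fam.1 hB) fun I hI => (h I hI).symm)

/-- Number of paving matroids of rank `r` (`{univ}` is the only packing with the block `univ`). -/
theorem card_fam_le {r : ℕ} (hr : 3 ≤ r) (hV : r ≤ Fintype.card V) :
    (Fam r (∅ : Finset (Finset V))).card ≤ {M : Matroid V | Good r M ∧ Pav r M}.ncard + 1 := by
  classical
  have : Finite (Matroid V) := Pool.Agent.Helper2.R4.finite_matroid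
  have h1 : (Fam r (∅ : Finset (Finset V))).filter (fun B => univ ∈ B) ⊆ {{univ}} := by
    intro B hB
    obtain ⟨hB1, hB2⟩ := mem_filter.1 hB
    have hP := h27_mem_fam.1 hB1
    rw [mem_singleton]
    apply eq_singleton_iff_unique_mem.2 ⟨hB2, fun b hb => ?_⟩
    have h4 := hP.1 b hb
    exact h27_eq hP hb hB2 (t := b) (by omega) (Subset.refl b) (subset_univ b)
  have h2 : ((Fam r (∅ : Finset (Finset V))).filter (fun B => univ ∈ B)).card ≤ 1 :=
    (card_le_card h1).trans (by simp)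
  have h3 : ((Fam r (∅ : Finset (Finset V))).filter (fun B => ¬ univ ∈ B)).card ≤
      {M : Matroid V | Good r M ∧ Pav r M}.ncard := by
    have hex : ∀ B : Finset (Finset V), B ∈ (Fam r (∅ : Finset (Finset V))).filter
        (fun B => ¬ univ ∈ B) → ∃ M : Matroid V, Good r M ∧ Pav r M ∧
        ∀ I : Finset V, I.card = r → (M.Indep (I : Set V) ↔ ∀ b ∈ B, ¬ I ⊆ b) := by
      intro B hB
      obtain ⟨hB1, hB2⟩ := mem_filter.1 hB
      exact exists_mat hr B hB1 hB2 hV
    have : Nonempty (Matroid V) := ⟨Matroid.emptyOn V⟩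
    choose! f hf using hex
    rw [← Set.ncard_coe_finset]
    refine Set.ncard_le_ncard_of_injOn f (fun B hB => ?_) (fun B hB B' hB' he => ?_)
      (Set.toFinite _)
    · exact ⟨(hf B (mem_coe.1 hB)).1, (hf B (mem_coe.1 hB)).2.1⟩
    · have hB1 := mem_coe.1 hB
      have hB1' := mem_coe.1 hB'
      refine fam_det hr (mem_filter.1 hB1).1 (mem_filter.1 hB1').1 fun I hI => ?_
      rw [← (hf B hB1).2.2 I hI, ← (hf B' hB1').2.2 I hI, he]
  have h4 := card_filter_add_card_filter_not (s := Fam r (∅ : Finset (Finset V)))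
    (fun B => univ ∈ B)
  omega

/-- There are at least two packings (`∅` and `{univ}`). -/
theorem two_le_card_fam {r : ℕ} (hr : 3 ≤ r) (hV : r ≤ Fintype.card V) :
    2 ≤ (Fam r (∅ : Finset (Finset V))).card := by
  classical
  have h1 : ({∅, {univ}} : Finset (Finset (Finset V))) ⊆ Fam r (∅ : Finset (Finset V)) := by
    intro B hB
    rw [h27_mem_fam]
    rcases mem_insert.1 hB with rfl | hB
    · exact ⟨by simp, by simp⟩
    · rw [mem_singleton.1 hB]
      refine ⟨fun b hb => ?_, fun b hb c hc hne => ?_⟩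
      · rw [mem_singleton.1 hb, card_univ]
        exact hV
      · rw [mem_singleton.1 hb, mem_singleton.1 hc] at hne
        exact (hne rfl).elim
  calc 2 = ({∅, {univ}} : Finset (Finset (Finset V))).card := by
        rw [card_pair]
        exact (singleton_ne_empty _).symm
    _ ≤ _ := card_le_card h1

end Pool.Agent.Helper41.R7
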