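/-
MP_e8bc6f_co, project R7, block R7-STAR (packings on one point less).
-/
import Pool.Agent.Helper41.R7.ITER

set_option autoImplicit false

namespace Pool.Agent.Helper41.R7

open Finset

/-- Packings on `V` minus a point `y`: they are packings on `V` avoiding all `(r-2)`-sets which
contain `y` (map the blocks by the inclusion; see `fam_star` in Pool.Agent.Helper2.R4.ITER).  There
are `C(n-1, r-3)` of these sets, at least `n^(r-3) / r^r` for large `n`; use `fam_small` with
`C r^r`. -/
theorem fam_star {r : ℕ} (hr : 4 ≤ r) (hG : GainProp r) (C : ℕ) : ∃ n0 : ℕ, ∀ (V : Type)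
    [Fintype V] [DecidableEq V], n0 ≤ Fintype.card V → ∀ y : V,
      (Fam r (∅ : Finset (Finset {v : V // v ≠ y}))).card *
        Fintype.card V ^ (C * Fintype.card V ^ (r - 3)) ≤
          (Fam r (∅ : Finset (Finset V))).card := by
  classical
  obtain ⟨k, hk⟩ : ∃ k, r = k + 3 := ⟨r - 3, by omega⟩
  obtain ⟨n0, h⟩ := fam_small hr hG (C * (2 ^ k * k.factorial))
  refine ⟨max n0 (2 * r), fun V _ _ hn y => ?_⟩
  have hn1 : n0 ≤ Fintype.card V := (le_max_left _ _).trans hn
  have hn2 : 2 * r ≤ Fintype.card V := (le_max_right _ _).trans hn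
  set S : Finset (Finset V) := (powersetCard k ((univ : Finset V).erase y)).image (insert y) with hS
  have hmem : ∀ t ∈ powersetCard k ((univ : Finset V).erase y), y ∉ t ∧ t.card = k := by
    intro t ht
    rw [mem_powersetCard] at ht
    exact ⟨fun hy => (mem_erase.1 (ht.1 hy)).1 rfl, ht.2⟩
  have hinj : Set.InjOn (insert y : Finset V → Finset V) (powersetCard k ((univ : Finset V).erase y)) := by
    intro t ht u hu htu
    have h1 := (hmem t ht).1
    have h2 := (hmem u hu).1
    have h3 : (insert y t).erase y = (insert y u).erase y := congrArg (fun x => Finset.erase x y) htu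
    rwa [erase_insert h1, erase_insert h2] at h3
  have hSc : S.card = (Fintype.card V - 1).choose k := by
    rw [hS, card_image_of_injOn hinj, card_powersetCard, card_erase_of_mem (mem_univ y), card_univ]
  have hS2 : ∀ e ∈ S, e.card + 2 = r := by
    intro e he
    rw [hS, mem_image] at he
    obtain ⟨t, ht, rfl⟩ := he
    obtain ⟨h1, h2⟩ := hmem t ht
    rw [card_insert_of_notMem h1, h2, hk]
  have hmain := h V hn1 S hS2
  have hpow : Fintype.card V ^ k ≤ 2 ^ k * k.factorial * S.card := by
    rw [hSc]
    have h1 := Nat.pow_sub_le_descFactorial (Fintype.card V - 1) k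
    have h2 : Fintype.card V - 1 + 1 - k = Fintype.card V - k := by omega
    rw [h2, Nat.descFactorial_eq_factorial_mul_choose] at h1
    calc Fintype.card V ^ k ≤ (2 * (Fintype.card V - k)) ^ k := Nat.pow_le_pow_left (by omega) k
      _ = 2 ^ k * (Fintype.card V - k) ^ k := mul_pow _ _ _
      _ ≤ 2 ^ k * (k.factorial * (Fintype.card V - 1).choose k) := Nat.mul_le_mul_left _ h1
      _ = _ := by ring
  have hexp : Fintype.card V ^ (C * Fintype.card V ^ (r - 3)) ≤
      Fintype.card V ^ (C * (2 ^ k * k.factorial) * S.card) := by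
    apply Nat.pow_le_pow_right (by omega)
    have e : r - 3 = k := by omega
    rw [e, mul_assoc]
    exact Nat.mul_le_mul_left _ hpow
  refine le_trans (Nat.mul_le_mul ?_ hexp) hmain
  let g : Finset {v : V // v ≠ y} → Finset V := fun b => b.map (Function.Embedding.subtype _)
  have hg : Function.Injective g := map_injective _
  refine card_le_card_of_injOn (fun B => B.image g) ?_ ?_
  · intro B hB
    simp only [Fam, coe_filter, mem_univ, true_and, Set.mem_ofPred_eq] at hB ⊢
    obtain ⟨⟨hB1, hB2⟩, -⟩ := hB
    refine ⟨⟨?_, ?_⟩, ?_⟩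
    · intro b hb
      obtain ⟨b', hb', rfl⟩ := mem_image.mp hb
      simpa [g] using hB1 b' hb'
    · intro b hb c hc hbc
      obtain ⟨b', hb', rfl⟩ := mem_image.mp hb
      obtain ⟨c', hc', rfl⟩ := mem_image.mp hc
      have hne : b' ≠ c' := fun h => hbc (by rw [h])
      have := hB2 b' hb' c' hc' hne
      simp only [g]
      rw [← map_inter, card_map]
      exact this
    · intro e he b hb heb
      obtain ⟨b', hb', rfl⟩ := mem_image.mp hb
      rw [hS, mem_image] at he
      obtain ⟨x, hx, rfl⟩ := he
      have hy : y ∈ g b' := heb (mem_insert_self y x)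
      simp only [g, mem_map, Function.Embedding.coe_subtype] at hy
      obtain ⟨v, -, hv⟩ := hy
      exact v.2 hv
  · intro B _ C _ hBC
    exact image_injective hg hBC

end Pool.Agent.Helper41.R7
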