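/-
MP_e8bc6f_co, project R7, block R7-FIN1 (automorphisms).
-/
import Pool.Agent.Helper41.R7.LAB2
import Pool.Agent.Helper41.R7.STAR
import Pool.Agent.Helper41.R7.PAV2
import Pool.Agent.Helper41.R7.FIX
import Pool.Agent.Helper2.R4.UNL

set_option autoImplicit false

namespace Pool.Agent.Helper41.R7

open Finset

open Helper2.R4 (nc cls ncard_le_nc nc_mul_le finite_matroid)

/-- The property to be nonpaving simple of rank `r` is invariant under isomorphism. -/
theorem nonpav_iso {n r : ℕ} {M N : Matroid (Fin n)} (hN : N ∈ cls M)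
    (hM : Good r M ∧ ¬ Pav r M) : Good r N ∧ ¬ Pav r N := by
  obtain ⟨hE, σ, hσ⟩ := hN
  obtain ⟨⟨hME, hM2, hM4⟩, hnp⟩ := hM
  have hσ' : ∀ I : Set (Fin n), N.Indep I ↔ M.Indep (σ.symm '' I) := by
    intro I
    rw [hσ]
    simp [Set.image_image]
  have hcardS : ∀ I : Set (Fin n), (σ.symm '' I).ncard = I.ncard := fun I =>
    Set.ncard_image_of_injective I σ.symm.injective
  refine ⟨⟨hE, ?_, ?_⟩, ?_⟩
  · intro I hI
    rw [hσ']
    exact hM2 _ (by rw [hcardS]; exact hI)
  · intro B hB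
    rw [Matroid.isBase_iff_maximal_indep] at hB
    have : M.IsBase (σ.symm '' B) := by
      rw [Matroid.isBase_iff_maximal_indep]
      refine ⟨(hσ' B).1 hB.1, fun J hJ hBJ => ?_⟩
      have h1 : N.Indep (σ '' J) := (hσ J).1 hJ
      have h2 : B ⊆ σ '' J := by
        intro b hb
        refine ⟨σ.symm b, hBJ ⟨b, hb, rfl⟩, by simp⟩
      have h3 := hB.2 h1 h2
      intro j hj
      exact ⟨σ j, h3 ⟨j, hj, rfl⟩, by simp⟩
    rw [← hcardS]
    exact hM4 _ this
  · intro hP
    apply hnp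
    intro I hI
    rw [hσ]
    exact hP _ (by rw [Set.ncard_image_of_injective I σ.injective]; exact hI)

/-- Number of simple matroids of rank `r` on `Fin n` with a given nontrivial automorphism:
`card_fix_le`, `card_good_le` for `{v // v ≠ y}` (which has `n - 1` elements; beware of the different
`DecidableEq` instances, use `Subsingleton.elim`) and `fam_star` with `C + 3`. -/
theorem card_aut_le {r : ℕ} (hr : 4 ≤ r) (hG : GainProp r) (C : ℕ) : ∃ n0 : ℕ, ∀ n ≥ n0,
    ∀ σ : Equiv.Perm (Fin n), σ ≠ 1 →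
    {M : Matroid (Fin n) | Good r M ∧ ∀ I : Set (Fin n), M.Indep I ↔ M.Indep (σ '' I)}.ncard *
      n ^ (C * n ^ (r - 3)) ≤ (Fam r (∅ : Finset (Finset (Fin n)))).card := by
  obtain ⟨n1, h1⟩ := card_good_le hr hG
  obtain ⟨n2, h2⟩ := fam_star hr hG (C + 3)
  refine ⟨n1 + n2 + r + 4, fun n hn σ hσ => ?_⟩
  obtain ⟨y, hy⟩ := card_fix_le hr σ hσ
  have hcard : Fintype.card (Fin n) = n := Fintype.card_fin n
  have hcard' : Fintype.card {v : Fin n // v ≠ y} = n - 1 := by
    rw [Fintype.card_subtype_compl, Fintype.card_fin, Fintype.card_subtype_eq]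
  have k1 := h1 {v : Fin n // v ≠ y} (by rw [hcard']; omega)
  have k2 := h2 (Fin n) (by rw [hcard]; omega) y
  have k3 := two_le_card_fam (V := {v : Fin n // v ≠ y}) (r := r) (by omega)
    (by rw [hcard']; omega)
  have hi : ∀ (i j : DecidableEq {v : Fin n // v ≠ y}),
      (@Fam {v : Fin n // v ≠ y} _ i r ∅).card = (@Fam {v : Fin n // v ≠ y} _ j r ∅).card := by
    intro i j
    rw [Subsingleton.elim i j]
  have k1' : {M : Matroid {v : Fin n // v ≠ y} | Good r M}.ncard ≤
      2 * (Fam r (∅ : Finset (Finset {v : Fin n // v ≠ y}))).card :=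
    k1.trans (le_of_eq (congrArg (2 * ·) (hi _ _)))
  rw [hcard] at k2 hy
  set G : ℕ := {M : Matroid {v : Fin n // v ≠ y} | Good r M}.ncard with hGd
  set Fy : ℕ := (Fam r (∅ : Finset (Finset {v : Fin n // v ≠ y}))).card with hFy
  set F : ℕ := (Fam r (∅ : Finset (Finset (Fin n)))).card with hF
  set N : ℕ := n ^ (r - 3) with hN
  have hn0 : 0 < n := by omega
  have hN1 : 1 ≤ N := Nat.one_le_pow _ _ hn0
  have e1 : (n + 1) ^ N ≤ n ^ (2 * N) := by
    rw [pow_mul]
    apply Nat.pow_le_pow_left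
    nlinarith
  have e2 : 3 ≤ n ^ N := by
    calc 3 ≤ n := by omega
      _ = n ^ 1 := (pow_one n).symm
      _ ≤ n ^ N := Nat.pow_le_pow_right hn0 hN1
  have e3 : 1 + G ≤ 3 * Fy := by omega
  calc _ ≤ ((n + 1) ^ N * (1 + G)) * n ^ (C * N) := Nat.mul_le_mul_right _ hy
    _ ≤ (n ^ (2 * N) * (n ^ N * Fy)) * n ^ (C * N) := by
        apply Nat.mul_le_mul_right
        apply Nat.mul_le_mul e1
        exact e3.trans (Nat.mul_le_mul_right _ e2)
    _ = Fy * n ^ ((C + 3) * N) := by
        have : (C + 3) * N = 2 * N + N + C * N := by ring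
        rw [this, pow_add, pow_add]
        ring
    _ ≤ F := k2

end Pool.Agent.Helper41.R7
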