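/-
MP_e8bc6f_co, project R7, block R7-FIN2 (final estimates).
-/
import Pool.Agent.Helper41.R7.FIN1

set_option autoImplicit false

namespace Pool.Agent.Helper41.R7

open Finset

open Helper2.R4 (nc cls ncard_le_nc nc_mul_le finite_matroid)

/-- Union bound over the automorphisms. -/
private theorem aut_union (n r a F : ℕ)
    (h : ∀ σ : Equiv.Perm (Fin n), σ ≠ 1 →
      {M : Matroid (Fin n) | Good r M ∧ ∀ I : Set (Fin n), M.Indep I ↔ M.Indep (σ '' I)}.ncard * a
        ≤ F) :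
    {M : Matroid (Fin n) | (Good r M ∧ ¬ Pav r M) ∧ ∃ σ : Equiv.Perm (Fin n), σ ≠ 1 ∧
        ∀ I : Set (Fin n), M.Indep I ↔ M.Indep (σ '' I)}.ncard * a ≤ n.factorial * F := by
  have hfin : Finite (Matroid (Fin n)) := finite_matroid
  set s : Equiv.Perm (Fin n) → Set (Matroid (Fin n)) := fun σ =>
    {M : Matroid (Fin n) | σ ≠ 1 ∧ Good r M ∧
      ∀ I : Set (Fin n), M.Indep I ↔ M.Indep (σ '' I)} with hs
  have hsub : {M : Matroid (Fin n) | (Good r M ∧ ¬ Pav r M) ∧ ∃ σ : Equiv.Perm (Fin n), σ ≠ 1 ∧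
      ∀ I : Set (Fin n), M.Indep I ↔ M.Indep (σ '' I)} ⊆ ⋃ σ, s σ := by
    rintro M ⟨hM, σ, hσ, hI⟩
    exact Set.mem_iUnion.2 ⟨σ, hσ, hM.1, hI⟩
  have h7 := (Set.ncard_le_ncard hsub (Set.toFinite _)).trans (Set.ncard_iUnion_le_of_fintype s)
  have h8 : ∀ σ : Equiv.Perm (Fin n), (s σ).ncard * a ≤ F := by
    intro σ
    by_cases hσ : σ = 1
    · have : s σ = ∅ := by
        ext M; simp [hs, hσ]
      rw [this, Set.ncard_empty, Nat.zero_mul]
      exact Nat.zero_le _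
    · have h9 : s σ = {M : Matroid (Fin n) | Good r M ∧
          ∀ I : Set (Fin n), M.Indep I ↔ M.Indep (σ '' I)} := by
        ext M; simp [hs, hσ]
      rw [h9]
      exact h σ hσ
  calc _ ≤ (∑ σ, (s σ).ncard) * a := Nat.mul_le_mul_right _ h7
    _ = ∑ σ, (s σ).ncard * a := by rw [Finset.sum_mul]
    _ ≤ ∑ _σ : Equiv.Perm (Fin n), F := Finset.sum_le_sum (fun σ _ => h8 σ)
    _ = _ := by
        rw [Finset.sum_const, Finset.card_univ, Fintype.card_perm, Fintype.card_fin, smul_eq_mul]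

/-- Unlabelled theorem.  Let `F = |Fam r ∅|`, `p` the number of paving, `q` of nonpaving simple
matroids of rank `r` on `Fin n`, `A` the number of the latter with a nontrivial automorphism.
`F ≤ p + 1 ≤ 2 p` (`card_fam_le`, `two_le_card_fam`), `q n^(C+1) ≤ F` (`card_nonpav_le`),
`A ≤ n! · max_σ ... ≤ n! n^(-C' n^(r-3)) F ≤ n! n^(-C' n) F` (union over `σ`, `card_aut_le`,
`C' = C + 3`).  `nc_mul_le`: `n! nc(nonpaving) ≤ q + n! A`, and `p ≤ n! nc(paving)`
(`ncard_le_nc`).  As `n! ≤ n^n`, `q + n! A ≤ n^(-C) p` for large `n`. -/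
theorem unlabelled {r : ℕ} (hr : 4 ≤ r) (hG : GainProp r) (C : ℕ) : ∃ n0 : ℕ, ∀ n ≥ n0,
    nc n (fun M => Good r M ∧ ¬ Pav r M) * n ^ C ≤ nc n (fun M => Good r M ∧ Pav r M) := by
  obtain ⟨n1, h1⟩ := card_nonpav_le hr hG (C + 1)
  obtain ⟨n2, h2⟩ := card_aut_le hr hG (C + 3)
  refine ⟨n1 + n2 + r + 4, fun n hn => ?_⟩
  have hcard : Fintype.card (Fin n) = n := Fintype.card_fin n
  have k1 := h1 (Fin n) (by rw [hcard]; omega)
  rw [hcard] at k1
  have kF := card_fam_le (V := Fin n) (r := r) (by omega) (by rw [hcard]; omega)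
  have kF2 := two_le_card_fam (V := Fin n) (r := r) (by omega) (by rw [hcard]; omega)
  have kA := aut_union n r _ _ (h2 n (by omega))
  have hmul := nc_mul_le n (fun M => Good r M ∧ ¬ Pav r M) (fun M hM => hM.1.1)
    (fun M N hM hN => nonpav_iso hN hM)
  have hle := ncard_le_nc n (fun M => Good r M ∧ Pav r M) (fun M hM => hM.1.1)
  have hi : ∀ (i j : DecidableEq (Fin n)),
      (@Fam (Fin n) _ i r ∅).card = (@Fam (Fin n) _ j r ∅).card := by
    intro i j
    rw [Subsingleton.elim i j]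
  have k1' : {M : Matroid (Fin n) | Good r M ∧ ¬ Pav r M}.ncard * n ^ (C + 1) ≤
      (Fam r (∅ : Finset (Finset (Fin n)))).card := by
    exact k1.trans (le_of_eq (hi _ _))
  set q : ℕ := {M : Matroid (Fin n) | Good r M ∧ ¬ Pav r M}.ncard with hq
  set p : ℕ := {M : Matroid (Fin n) | Good r M ∧ Pav r M}.ncard with hp
  set F : ℕ := (Fam r (∅ : Finset (Finset (Fin n)))).card with hFdef
  set A : ℕ := {M : Matroid (Fin n) | (Good r M ∧ ¬ Pav r M) ∧ ∃ σ : Equiv.Perm (Fin n), σ ≠ 1 ∧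
        ∀ I : Set (Fin n), M.Indep I ↔ M.Indep (σ '' I)}.ncard with hA
  have hn0 : 0 < n := by omega
  -- exponents
  have e1 : (C + 3) * n ≤ (C + 3) * n ^ (r - 3) := by
    apply Nat.mul_le_mul_left
    calc n = n ^ 1 := (pow_one n).symm
      _ ≤ n ^ (r - 3) := Nat.pow_le_pow_right hn0 (by omega)
  have e2 : (C + 1) + 2 * n ≤ (C + 3) * n := by
    have : (C + 3) * n = (C + 1) * n + 2 * n := by ring
    rw [this]
    have : C + 1 ≤ (C + 1) * n := Nat.le_mul_of_pos_right _ hn0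
    omega
  have e3 : n ^ (C + 1) * n ^ (2 * n) ≤ n ^ ((C + 3) * n ^ (r - 3)) := by
    rw [← pow_add]
    exact Nat.pow_le_pow_right hn0 (e2.trans e1)
  have hfac : n.factorial ≤ n ^ n := Nat.factorial_le_pow n
  have hkey : n.factorial * A * n ^ (C + 1) ≤ F := by
    have h3 : (n.factorial * A * n ^ (C + 1)) * n ^ (2 * n) ≤ F * n ^ (2 * n) := by
      calc (n.factorial * A * n ^ (C + 1)) * n ^ (2 * n)
          = n.factorial * (A * (n ^ (C + 1) * n ^ (2 * n))) := by ring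
        _ ≤ n.factorial * (A * n ^ ((C + 3) * n ^ (r - 3))) :=
            Nat.mul_le_mul_left _ (Nat.mul_le_mul_left _ e3)
        _ ≤ n.factorial * (n.factorial * F) := Nat.mul_le_mul_left _ kA
        _ ≤ n ^ n * (n ^ n * F) := Nat.mul_le_mul hfac (Nat.mul_le_mul_right _ hfac)
        _ = F * n ^ (2 * n) := by rw [two_mul, pow_add]; ring
    exact Nat.le_of_mul_le_mul_right h3 (Nat.pow_pos hn0)
  have hF2p : F ≤ 2 * p := by omega
  have h4 : 4 * ((q + n.factorial * A) * n ^ C) ≤ 4 * p := by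
    calc 4 * ((q + n.factorial * A) * n ^ C) ≤ n * ((q + n.factorial * A) * n ^ C) :=
          Nat.mul_le_mul_right _ (by omega)
      _ = q * n ^ (C + 1) + n.factorial * A * n ^ (C + 1) := by ring
      _ ≤ F + F := Nat.add_le_add k1' hkey
      _ ≤ 4 * p := by omega
  have h5 : (q + n.factorial * A) * n ^ C ≤ p := Nat.le_of_mul_le_mul_left h4 (by norm_num)
  have h6 : n.factorial * (nc n (fun M => Good r M ∧ ¬ Pav r M) * n ^ C) ≤
      n.factorial * nc n (fun M => Good r M ∧ Pav r M) := by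
    calc n.factorial * (nc n (fun M => Good r M ∧ ¬ Pav r M) * n ^ C)
        = (n.factorial * nc n (fun M => Good r M ∧ ¬ Pav r M)) * n ^ C := by ring
      _ ≤ (q + n.factorial * A) * n ^ C := Nat.mul_le_mul_right _ hmul
      _ ≤ p := h5
      _ ≤ _ := hle
  exact Nat.le_of_mul_le_mul_left h6 n.factorial_pos

end Pool.Agent.Helper41.R7
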