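/-
MP_e8bc6f_co, project R7, block R7-GAIN1 (many good matchings).
-/
import Pool.Agent.Helper41.R7.OPT
import Pool.Agent.Helper41.R7.IND
import Pool.Agent.Helper2.R4.MC

set_option autoImplicit false

namespace Pool.Agent.Helper41.R7

open Finset

/-- At most `n` pairs of `E` contain a given point. -/
private theorem h31_star {V : Type*} [Fintype V] [DecidableEq V] (E : Finset (Finset V))
    (hE : ∀ e ∈ E, e.card = 2) (x : V) :
    (E.filter (fun e => x ∈ e)).card ≤ Fintype.card V := by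
  classical
  have h1 : E.filter (fun e => x ∈ e) ⊆ (univ : Finset V).image (fun y => ({x, y} : Finset V)) := by
    intro e he
    rw [mem_filter] at he
    obtain ⟨u, v, huv, rfl⟩ := Finset.card_eq_two.mp (hE e he.1)
    rw [mem_image]
    have hx := he.2
    rw [mem_insert, mem_singleton] at hx
    rcases hx with rfl | rfl
    · exact ⟨v, mem_univ _, rfl⟩
    · exact ⟨u, mem_univ _, Finset.pair_comm _ _⟩
  calc (E.filter (fun e => x ∈ e)).card
      ≤ ((univ : Finset V).image (fun y => ({x, y} : Finset V))).card := card_le_card h1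
    _ ≤ (univ : Finset V).card := card_image_le
    _ = Fintype.card V := rfl

private theorem h31_meet {V : Type*} [Fintype V] [DecidableEq V] (E : Finset (Finset V))
    (hE : ∀ e ∈ E, e.card = 2) (i : Finset V) (hi : i.card = 2) :
    (E.filter (fun j => ¬ Disjoint i j)).card ≤ 2 * Fintype.card V := by
  classical
  have h1 : E.filter (fun j => ¬ Disjoint i j) ⊆ i.biUnion (fun x => E.filter (fun e => x ∈ e)) := by
    intro e he
    rw [mem_filter, Finset.not_disjoint_iff] at he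
    obtain ⟨he1, x, hx1, hx2⟩ := he
    exact mem_biUnion.2 ⟨x, hx1, mem_filter.2 ⟨he1, hx2⟩⟩
  calc (E.filter (fun j => ¬ Disjoint i j)).card
      ≤ (i.biUnion (fun x => E.filter (fun e => x ∈ e))).card := card_le_card h1
    _ ≤ ∑ x ∈ i, (E.filter (fun e => x ∈ e)).card := card_biUnion_le
    _ ≤ ∑ _x ∈ i, Fintype.card V := sum_le_sum (fun x _ => h31_star E hE x)
    _ = 2 * Fintype.card V := by rw [sum_const, hi, smul_eq_mul]

/-- Deterministic part: if for every `x ∈ s` the sum of the logarithms is at most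
`7/40 n^2 log n`, then many allowed pairs are good, and there are many good `K`-matchings.
`∑_{p allowed} Y p ≤ 5 · 7/40 n^2 log n` where `Y p = ∑_x log zeta_x p ≥ 0` (allowed pairs are
disjoint from `s`, hence from each `s.erase x`), so at most `(7/8) / (31/16) n^2 = 14/31 n^2` pairs have
`Y p > 31/16 log n`, and at least `(19/40 - 14/31) n^2 ≥ n^2 / 50` allowed pairs have
`∏_x 1/zeta_x p ≥ n^(-31/16)`.  A pair meets at most `2 n` pairs, so `indep_sum` (with `f = 1`, or
`card_matchings` of Pool.Agent.Helper2.R4.MC) gives at least `(n^2/50 - 2 K n)^K / K! ≥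
(n^2/100)^K / K!` matchings. -/
theorem many_matchings {V : Type*} [Fintype V] [DecidableEq V] {r : ℕ} (hr : 4 ≤ r)
    (hr7 : r ≤ 7) {S : Finset (Finset V)} {s : Finset V} (hs : s.card + 2 = r)
    (halw : 19 * Fintype.card V ^ 2 ≤ 40 * (alw S s).card) (K : ℕ) (hK : 1 ≤ K)
    (hn : 400 * K ≤ Fintype.card V) {a c : V} (ha : a ∈ s) (hc : c ∈ s) (hac : a ≠ c)
    {B : Finset (Finset V)} (hB : B ∈ Fam r (insert s S))
    (hL : ∀ x ∈ s, ∑ p ∈ (univ \ s.erase x).powersetCard 2,
      Real.log (zeta r (insert s S) (if x = a then c else a) B (s.erase x ∪ p)) ≤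
        (7 / 40 : ℝ) * (Fintype.card V : ℝ) ^ 2 * Real.log (Fintype.card V)) :
    ((Fintype.card V : ℝ) ^ (1 / 16 : ℝ) / 100) ^ K ≤ K.factorial *
      ∑ P ∈ matchings (alw S s) K, ∏ p ∈ P, ∏ x ∈ s,
        (1 / (zeta r (insert s S) (if x = a then c else a) B (s.erase x ∪ p) : ℝ)) := by
  classical
  obtain ⟨z, hz⟩ : ∃ z : V → Finset V → ℕ, ∀ x p, z x p =
      zeta r (insert s S) (if x = a then c else a) B (s.erase x ∪ p) := ⟨_, fun _ _ => rfl⟩
  simp only [← hz] at hL ⊢
  have hKr : (1 : ℝ) ≤ K := by exact_mod_cast hK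
  have hnr : (400 : ℝ) * K ≤ (Fintype.card V : ℝ) := by exact_mod_cast hn
  set n : ℝ := (Fintype.card V : ℝ) with hndef
  have hn400 : (400 : ℝ) ≤ n := by linarith
  have hL0 : 0 < Real.log n := Real.log_pos (by linarith)
  set L := Real.log n with hLdef
  -- allowed pairs
  have hA : ∀ p ∈ alw S s, p.card = 2 ∧ Disjoint p s := by
    intro p hp
    unfold alw at hp
    rw [mem_filter] at hp
    exact ⟨hp.2.1, hp.2.2.1⟩
  have hz1 : ∀ p ∈ alw S s, ∀ x ∈ s, 1 ≤ z x p := by
    intro p hp x hx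
    obtain ⟨hp2, hpd⟩ := hA p hp
    rw [hz]
    refine one_le_zeta hB ?_ ?_
    · rw [card_union_of_disjoint (hpd.symm.mono_left (erase_subset _ _)), card_erase_of_mem hx, hp2]
      omega
    · refine mem_union_left _ ?_
      split_ifs with h
      · exact mem_erase.2 ⟨by rw [h]; exact hac.symm, hc⟩
      · exact mem_erase.2 ⟨fun h1 => h h1.symm, ha⟩
  have hY0 : ∀ x p, 0 ≤ Real.log (z x p : ℝ) := fun x p => Real.log_natCast_nonneg _
  obtain ⟨Y, hY⟩ : ∃ Y : Finset V → ℝ, ∀ p, Y p = ∑ x ∈ s, Real.log (z x p : ℝ) := ⟨_, fun _ => rfl⟩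
  have hYn : ∀ p, 0 ≤ Y p := fun p => by
    rw [hY]
    exact sum_nonneg fun x _ => hY0 x p
  have hYsum : ∑ p ∈ alw S s, Y p ≤ (7 / 8 : ℝ) * n ^ 2 * L := by
    have h1 : ∑ p ∈ alw S s, Y p = ∑ x ∈ s, ∑ p ∈ alw S s, Real.log (z x p : ℝ) := by
      rw [sum_comm]
      exact sum_congr rfl fun p _ => hY p
    rw [h1]
    calc ∑ x ∈ s, ∑ p ∈ alw S s, Real.log (z x p : ℝ)
        ≤ ∑ x ∈ s, ((7 / 40 : ℝ) * n ^ 2 * L) := by
          refine sum_le_sum fun x hx => le_trans ?_ (hL x hx)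
          refine sum_le_sum_of_subset_of_nonneg ?_ fun p _ _ => hY0 x p
          intro p hp
          obtain ⟨hp2, hpd⟩ := hA p hp
          rw [mem_powersetCard]
          refine ⟨?_, hp2⟩
          intro y hy
          rw [mem_sdiff]
          refine ⟨mem_univ _, fun h => ?_⟩
          exact (Finset.disjoint_left.1 hpd hy) (mem_of_mem_erase h)
      _ = (s.card : ℝ) * ((7 / 40 : ℝ) * n ^ 2 * L) := by rw [sum_const, nsmul_eq_mul]
      _ ≤ 5 * ((7 / 40 : ℝ) * n ^ 2 * L) := by
          refine mul_le_mul_of_nonneg_right ?_ (by positivity)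
          have : s.card ≤ 5 := by omega
          exact_mod_cast this
      _ = (7 / 8 : ℝ) * n ^ 2 * L := by ring
  -- good pairs
  set E := (alw S s).filter (fun p => Y p ≤ 31 / 16 * L) with hE
  have hEA : E ⊆ alw S s := filter_subset _ _
  have hE2 : ∀ e ∈ E, e.card = 2 := fun e he => (hA e (hEA he)).1
  have hEcard : n ^ 2 / 50 ≤ (E.card : ℝ) := by
    have h1 : ((alw S s).filter (fun p => ¬ Y p ≤ 31 / 16 * L)).card * (31 / 16 * L) ≤
        (7 / 8 : ℝ) * n ^ 2 * L := by
      refine le_trans ?_ hYsum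
      rw [← nsmul_eq_mul, ← sum_const]
      calc ∑ _p ∈ (alw S s).filter (fun p => ¬ Y p ≤ 31 / 16 * L), (31 / 16 * L)
          ≤ ∑ p ∈ (alw S s).filter (fun p => ¬ Y p ≤ 31 / 16 * L), Y p := by
            refine sum_le_sum fun p hp => ?_
            exact (not_le.1 (mem_filter.1 hp).2).le
        _ ≤ ∑ p ∈ alw S s, Y p :=
            sum_le_sum_of_subset_of_nonneg (filter_subset _ _) fun p _ _ => hYn p
    have h2 : (E.card : ℝ) + ((alw S s).filter (fun p => ¬ Y p ≤ 31 / 16 * L)).card =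
        (alw S s).card := by
      exact_mod_cast card_filter_add_card_filter_not (s := alw S s) (fun p => Y p ≤ 31 / 16 * L)
    have h3 : (19 : ℝ) * n ^ 2 ≤ 40 * ((alw S s).card : ℝ) := by
      rw [hndef]
      exact_mod_cast halw
    set bd : ℝ := (((alw S s).filter (fun p => ¬ Y p ≤ 31 / 16 * L)).card : ℝ)
    have h4 : bd * (31 / 16) ≤ 7 / 8 * n ^ 2 := by
      have : (bd * (31 / 16)) * L ≤ (7 / 8 * n ^ 2) * L := by linarith
      exact le_of_mul_le_mul_right this hL0
    nlinarith [sq_nonneg n]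
  -- the matchings
  have hmat : (n ^ 2 / 100) ^ K ≤ (K.factorial : ℝ) * ((matchings E K).card : ℝ) := by
    have hz2 : ∀ i ∈ E, ∑ j ∈ E.filter (fun j => ¬ Disjoint i j), (fun _ : Finset V => (1 : ℝ)) j ≤
        2 * n := by
      intro i hi
      rw [sum_const, nsmul_eq_mul, mul_one, hndef]
      exact_mod_cast h31_meet E hE2 i (hE2 i hi)
    have hsum1 : ∑ i ∈ E, (fun _ : Finset V => (1 : ℝ)) i = E.card := by simp
    have h1 := indep_sum E (fun i j => ¬ Disjoint i j) (fun i j h h' => h h'.symm)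
      (fun i hi h => by
        rw [disjoint_self_iff_empty] at h
        have := hE2 i hi
        rw [h] at this
        simp at this) (fun _ => (1 : ℝ)) (fun _ _ => zero_le_one) (2 * n)
      (by rw [hndef]; positivity) hz2 K (by
        rw [hsum1]
        nlinarith)
    rw [hsum1] at h1
    have h2 : n ^ 2 / 100 ≤ (E.card : ℝ) - K * (2 * n) := by nlinarith
    refine (pow_le_pow_left₀ (by positivity) h2 K).trans (h1.trans (le_of_eq ?_))
    congr 1
    simp only [prod_const_one, sum_const, nsmul_eq_mul, mul_one]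
    unfold matchings
    rw [Nat.cast_inj]
    congr 1
    ext T
    simp only [mem_filter, not_not]
  -- the weights
  have hw : ∀ p ∈ E, n ^ (-(31 / 16) : ℝ) ≤ ∏ x ∈ s, (1 / (z x p : ℝ)) := by
    intro p hp
    have h1 : ∏ x ∈ s, (1 / (z x p : ℝ)) = Real.exp (-Y p) := by
      rw [hY, ← sum_neg_distrib, Real.exp_sum]
      refine prod_congr rfl fun x hx => ?_
      have h2 : (0 : ℝ) < z x p := by exact_mod_cast hz1 p (hEA hp) x hx
      rw [Real.exp_neg, Real.exp_log h2, one_div]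
    rw [h1, Real.rpow_def_of_pos (by linarith), Real.exp_le_exp]
    have h3 := (mem_filter.1 hp).2
    rw [← hLdef]
    linarith
  have hw0 : ∀ p, (0 : ℝ) ≤ ∏ x ∈ s, (1 / (z x p : ℝ)) := fun p =>
    prod_nonneg fun x _ => by positivity
  have hsub : matchings E K ⊆ matchings (alw S s) K := by
    unfold matchings
    intro P hP
    rw [mem_filter, mem_powersetCard] at hP ⊢
    exact ⟨⟨hP.1.1.trans hEA, hP.1.2⟩, hP.2⟩
  have hsum : ((matchings E K).card : ℝ) * (n ^ (-(31 / 16) : ℝ)) ^ K ≤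
      ∑ P ∈ matchings (alw S s) K, ∏ p ∈ P, ∏ x ∈ s, (1 / (z x p : ℝ)) := by
    calc ((matchings E K).card : ℝ) * (n ^ (-(31 / 16) : ℝ)) ^ K
        = ∑ _P ∈ matchings E K, (n ^ (-(31 / 16) : ℝ)) ^ K := by rw [sum_const, nsmul_eq_mul]
      _ ≤ ∑ P ∈ matchings E K, ∏ p ∈ P, ∏ x ∈ s, (1 / (z x p : ℝ)) := by
          refine sum_le_sum fun P hP => ?_
          unfold matchings at hP
          rw [mem_filter, mem_powersetCard] at hP
          rw [← hP.1.2, ← prod_const]
          exact prod_le_prod (fun p _ => by positivity) fun p hp => hw p (hP.1.1 hp)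
      _ ≤ _ := sum_le_sum_of_subset_of_nonneg hsub fun P _ _ => prod_nonneg fun p _ => hw0 p
  have hfin : (n ^ (1 / 16 : ℝ) / 100) ^ K =
      (n ^ 2 / 100) ^ K * (n ^ (-(31 / 16) : ℝ)) ^ K := by
    rw [← mul_pow]
    congr 1
    have h1 : n ^ (1 / 16 : ℝ) = n ^ 2 * n ^ (-(31 / 16) : ℝ) := by
      rw [← Real.rpow_natCast n 2, ← Real.rpow_add (by linarith)]
      norm_num
    rw [h1]
    ring
  rw [hfin]
  calc (n ^ 2 / 100) ^ K * (n ^ (-(31 / 16) : ℝ)) ^ K
      ≤ ((K.factorial : ℝ) * ((matchings E K).card : ℝ)) * (n ^ (-(31 / 16) : ℝ)) ^ K :=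
        mul_le_mul_of_nonneg_right hmat (by positivity)
    _ = (K.factorial : ℝ) * (((matchings E K).card : ℝ) * (n ^ (-(31 / 16) : ℝ)) ^ K) := by ring
    _ ≤ _ := mul_le_mul_of_nonneg_left hsum (by positivity)

end Pool.Agent.Helper41.R7
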