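/-
MP_e8bc6f_co, project R7, block R7-GAIN2 (the gain property for 4 ≤ r ≤ 7).
-/
import Pool.Agent.Helper41.R7.GAIN1
import Pool.Agent.Helper41.R7.CLOSE2
import Pool.Agent.Helper41.R7.AVG4
import Pool.Agent.Helper41.R7.ALW
import Pool.Agent.Helper41.R7.BIG2

set_option autoImplicit false

namespace Pool.Agent.Helper41.R7

open Finset

private lemma asy24 (A : ℝ) (hA : 0 < A) (k : ℕ) :
    ∃ L0 : ℕ, ∀ L : ℕ, L0 ≤ L → A * ((L : ℝ) + 3) ^ k ≤ 2 ^ L := by
  have h := tendsto_pow_const_div_const_pow_of_one_lt k (r := (2 : ℝ)) (by norm_num)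
  have h1 : ∀ᶠ n : ℕ in Filter.atTop, (n : ℝ) ^ k / 2 ^ n < 1 / (8 * A) :=
    h.eventually_lt_const (by positivity)
  obtain ⟨L0, hL0⟩ := Filter.eventually_atTop.1 h1
  refine ⟨L0, fun L hL => ?_⟩
  have h2 := hL0 (L + 3) (by omega)
  push_cast at h2
  rw [div_lt_iff₀ (by positivity)] at h2
  have h3 : (2 : ℝ) ^ (L + 3) = 8 * 2 ^ L := by ring
  rw [h3] at h2
  have h4 : 1 / (8 * A) * (8 * (2 : ℝ) ^ L) = 2 ^ L / A := by field_simp
  rw [h4, lt_div_iff₀ hA] at h2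
  linarith [mul_comm A (((L : ℝ) + 3) ^ k)]

private lemma asy24b (K r : ℕ) : ∃ n0 : ℕ, ∀ n : ℕ, n0 ≤ n →
    100 ^ K * (K.factorial : ℝ) * (2 * ((hh n : ℝ) + 2) ^ (K * r)) ^ (K * r) ≤ n := by
  obtain ⟨L0, hL0⟩ := asy24 (100 ^ K * (K.factorial : ℝ) * 2 ^ (K * r))
    (by have := Nat.factorial_pos K; positivity) (K * r * (K * r))
  refine ⟨2 ^ L0 + 1, fun n hn => ?_⟩
  have hn0 : n ≠ 0 := Nat.pos_iff_ne_zero.1 (lt_of_lt_of_le (Nat.succ_pos _) hn)
  have hL : L0 ≤ Nat.log 2 n := Nat.le_log_of_pow_le (by norm_num) ((Nat.le_succ _).trans hn)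
  have h1 := hL0 _ hL
  have h2 : ((2 : ℝ)) ^ (Nat.log 2 n) ≤ n := by
    have := Nat.pow_log_le_self 2 hn0
    exact_mod_cast this
  refine le_trans (le_of_eq ?_) (h1.trans h2)
  unfold hh
  push_cast
  rw [mul_pow, ← pow_mul]
  ring


/-- The gain property for `4 ≤ r ≤ 7`.  Let `m = r - 2 ≤ 5`, `K = 16 (C + 3)`, `S' = insert s S`,
`a ≠ c` in `s`, `a_x = if x = a then c else a`.  Split `Fam r S'` into the packings with a block
larger than `hh n` (`big_block` with `C + 1`), for each `x ∈ s` those in `avg_bound` for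
`A = s.erase x`, `a_x` (with `C + 1`), and the rest `𝒟`.  By `many_matchings` and `close_sum`
`|𝒟| (n^(1/16)/100)^K ≤ K! (2 (H + 2)^(K r))^(K r) |Fam r S|`, so `|𝒟| n^(C+2) ≤ |Fam r S|` for
large `n`.  So `|Fam r S'| ≤ 6 n^(-C-1) |Fam r S'| + n^(-C-2) |Fam r S|`, and
`|Fam r S'| n^C ≤ |Fam r S|` follows. -/
theorem gain_prop (r : ℕ) (hr : 4 ≤ r) (hr7 : r ≤ 7) : GainProp r := by
  intro C
  obtain ⟨K, hK⟩ : ∃ K, K = 16 * (C + 3) := ⟨_, rfl⟩
  obtain ⟨n1, h1⟩ := big_block r hr (C + 1)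
  obtain ⟨n2, h2⟩ := avg_bound r hr (C + 1)
  obtain ⟨n3, h3⟩ := asy24b K r
  refine ⟨n1 + n2 + n3 + 400 * K + 1000, ?_⟩
  intro V _ _ hn S hS hdeg s hs hsS
  classical
  obtain ⟨a, ha, c, hc, hac⟩ : ∃ a ∈ s, ∃ c ∈ s, a ≠ c := by
    have : 1 < s.card := by omega
    obtain ⟨a, ha, c, hc, h⟩ := Finset.one_lt_card.1 this
    exact ⟨a, ha, c, hc, h⟩
  have hb : ∃ N : Finset (Finset (Finset V)),
      N.card * Fintype.card V ^ (C + 1) ≤ (Fam r (insert s S)).card ∧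
      ∀ B ∈ Fam r (insert s S), ¬ Bdd (hh (Fintype.card V)) B → B ∈ N :=
    ⟨_, h1 V (by omega) (insert s S), fun B hB h => mem_filter.2 ⟨hB, h⟩⟩
  have ha' : ∀ x ∈ s, ∃ N : Finset (Finset (Finset V)),
      N.card * Fintype.card V ^ (C + 1) ≤ (Fam r (insert s S)).card ∧
      ∀ B ∈ Fam r (insert s S), Bdd (hh (Fintype.card V)) B →
        ¬ (∑ p ∈ (univ \ s.erase x).powersetCard 2,
          Real.log (zeta r (insert s S) (if x = a then c else a) B (s.erase x ∪ p)) ≤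
          (7 / 40 : ℝ) * (Fintype.card V : ℝ) ^ 2 * Real.log (Fintype.card V)) → B ∈ N := by
    intro x hx
    have hmem : (if x = a then c else a) ∈ s.erase x := by
      split_ifs with h
      · exact mem_erase.2 ⟨fun h' => hac (by rw [h', h]), hc⟩
      · exact mem_erase.2 ⟨fun h' => h h'.symm, ha⟩
    refine ⟨_, h2 V (by omega) (insert s S) (s.erase x) (if x = a then c else a) ?_ hmem,
      fun B hB h h' => mem_filter.2 ⟨hB, h, not_le.1 h'⟩⟩
    rw [card_erase_of_mem hx]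
    omega
  obtain ⟨N1, hN1, hN1'⟩ := hb
  choose! Nx hNx hNx' using ha'
  set n := Fintype.card V with hndef
  set 𝒟 : Finset (Finset (Finset V)) := (Fam r (insert s S)).filter (fun B =>
    Bdd (hh n) B ∧ ∀ x ∈ s, ∑ p ∈ (univ \ s.erase x).powersetCard 2,
          Real.log (zeta r (insert s S) (if x = a then c else a) B (s.erase x ∪ p)) ≤
          (7 / 40 : ℝ) * (n : ℝ) ^ 2 * Real.log n) with h𝒟
  have hsub : Fam r (insert s S) ⊆ N1 ∪ (s.biUnion Nx ∪ 𝒟) := by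
    intro B hB
    by_cases hBd : Bdd (hh n) B
    · refine mem_union_right _ ?_
      by_cases hall : ∀ x ∈ s, ∑ p ∈ (univ \ s.erase x).powersetCard 2,
          Real.log (zeta r (insert s S) (if x = a then c else a) B (s.erase x ∪ p)) ≤
          (7 / 40 : ℝ) * (n : ℝ) ^ 2 * Real.log n
      · exact mem_union_right _ (mem_filter.2 ⟨hB, hBd, hall⟩)
      · obtain ⟨x, hx⟩ := not_forall.1 hall
        rw [Classical.not_imp] at hx
        exact mem_union_left _ (mem_biUnion.2 ⟨x, hx.1, hNx' x hx.1 B hB hBd hx.2⟩)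
    · exact mem_union_left _ (hN1' B hB hBd)
  have hcard : (Fam r (insert s S)).card ≤ N1.card + (∑ x ∈ s, (Nx x).card + 𝒟.card) :=
    (card_le_card hsub).trans ((card_union_le _ _).trans (Nat.add_le_add_left
      ((card_union_le _ _).trans (Nat.add_le_add_right card_biUnion_le _)) _))
  -- the packings in `𝒟`
  have hK1 : 1 ≤ K := by omega
  have hD : 𝒟.card * n ^ (C + 2) ≤ (Fam r S).card := by
    have halw := card_alw hr hr7 (by omega) hS hdeg hs hsS
    have hcl := close_sum hr hs ha hc hac K (hh n) (S := S) 𝒟 (fun B hB => by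
      rw [h𝒟, mem_filter] at hB
      exact ⟨hB.1, hB.2.1⟩)
    have hmm : ∀ B ∈ 𝒟, ((n : ℝ) ^ (1 / 16 : ℝ) / 100) ^ K ≤
        K.factorial * ∑ P ∈ matchings (alw S s) K, ∏ p ∈ P, ∏ x ∈ s,
        (1 / (zeta r (insert s S) (if x = a then c else a) B (s.erase x ∪ p) : ℝ)) := by
      intro B hB
      rw [h𝒟, mem_filter] at hB
      exact many_matchings hr hr7 hs halw K hK1 (by omega) ha hc hac hB.1 hB.2.2
    have hsum : (𝒟.card : ℝ) * ((n : ℝ) ^ (1 / 16 : ℝ) / 100) ^ K ≤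
        K.factorial * ((2 * ((hh n : ℝ) + 2) ^ (K * r)) ^
          (K * r) * (Fam r S).card) := by
      calc (𝒟.card : ℝ) * ((n : ℝ) ^ (1 / 16 : ℝ) / 100) ^ K
          = ∑ B ∈ 𝒟, ((n : ℝ) ^ (1 / 16 : ℝ) / 100) ^ K := by
            rw [sum_const, nsmul_eq_mul]
        _ ≤ ∑ B ∈ 𝒟, (K.factorial : ℝ) *
            ∑ P ∈ matchings (alw S s) K, ∏ p ∈ P, ∏ x ∈ s,
            (1 / (zeta r (insert s S) (if x = a then c else a) B (s.erase x ∪ p) : ℝ)) :=
            sum_le_sum hmm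
        _ = (K.factorial : ℝ) * ∑ B ∈ 𝒟,
            ∑ P ∈ matchings (alw S s) K, ∏ p ∈ P, ∏ x ∈ s,
            (1 / (zeta r (insert s S) (if x = a then c else a) B (s.erase x ∪ p) : ℝ)) := by
            rw [mul_sum]
        _ ≤ _ := mul_le_mul_of_nonneg_left hcl (Nat.cast_nonneg _)
    have hpow : ((n : ℝ) ^ (1 / 16 : ℝ) / 100) ^ K =
        (n : ℝ) ^ (C + 3) / 100 ^ K := by
      rw [div_pow]
      congr 1
      rw [hK, ← Real.rpow_natCast, ← Real.rpow_mul (by positivity), ← Real.rpow_natCast]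
      congr 1
      push_cast
      ring
    rw [hpow] at hsum
    have hasy := h3 n (by omega)
    have hnpos : (0 : ℝ) < n := by
      have : 0 < n := by omega
      exact_mod_cast this
    have hF : (0 : ℝ) ≤ ((Fam r S).card : ℝ) := by positivity
    have h5 : (𝒟.card : ℝ) * (n : ℝ) ^ (C + 3) ≤ n * (Fam r S).card := by
      rw [mul_div_assoc', div_le_iff₀ (by positivity)] at hsum
      calc (𝒟.card : ℝ) * (n : ℝ) ^ (C + 3) ≤ _ := hsum
        _ = (100 ^ K * (K.factorial : ℝ) *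
          (2 * ((hh n : ℝ) + 2) ^ (K * r)) ^ (K * r)) *
            (Fam r S).card := by ring
        _ ≤ n * (Fam r S).card := mul_le_mul_of_nonneg_right hasy hF
    have h6 : (𝒟.card : ℝ) * (n : ℝ) ^ (C + 2) ≤ (Fam r S).card := by
      have : (n : ℝ) * ((𝒟.card : ℝ) * (n : ℝ) ^ (C + 2)) ≤ n * (Fam r S).card := by
        calc (n : ℝ) * ((𝒟.card : ℝ) * (n : ℝ) ^ (C + 2))
            = (𝒟.card : ℝ) * (n : ℝ) ^ (C + 3) := by ring
          _ ≤ _ := h5
      exact le_of_mul_le_mul_left this hnpos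
    exact_mod_cast h6
  -- the count
  have hsc : s.card ≤ 5 := by omega
  have hn12 : 12 ≤ n := by omega
  have hpn : 12 ≤ n ^ (C + 1) := by
    calc 12 ≤ n := hn12
      _ = n ^ 1 := (pow_one n).symm
      _ ≤ n ^ (C + 1) := Nat.pow_le_pow_right (by omega) (by omega)
  have hxs : (∑ x ∈ s, (Nx x).card) * n ^ (C + 1) ≤ 5 * (Fam r (insert s S)).card := by
    rw [sum_mul]
    calc ∑ x ∈ s, (Nx x).card * n ^ (C + 1) ≤ ∑ x ∈ s, (Fam r (insert s S)).card :=
          sum_le_sum hNx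
      _ = s.card * (Fam r (insert s S)).card := by rw [sum_const, smul_eq_mul]
      _ ≤ 5 * (Fam r (insert s S)).card := Nat.mul_le_mul_right _ hsc
  set F' := (Fam r (insert s S)).card with hF'
  have hstep : F' * n ^ (C + 1) ≤ 6 * F' + 𝒟.card * n ^ (C + 1) := by
    calc F' * n ^ (C + 1) ≤ (N1.card + (∑ x ∈ s, (Nx x).card + 𝒟.card)) * n ^ (C + 1) :=
          Nat.mul_le_mul_right _ hcard
      _ = N1.card * n ^ (C + 1) + ((∑ x ∈ s, (Nx x).card) * n ^ (C + 1) +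
          𝒟.card * n ^ (C + 1)) := by ring
      _ ≤ F' + (5 * F' + 𝒟.card * n ^ (C + 1)) :=
          Nat.add_le_add hN1 (Nat.add_le_add_right hxs _)
      _ = 6 * F' + 𝒟.card * n ^ (C + 1) := by ring
  have h12 : 12 * F' ≤ F' * n ^ (C + 1) := by
    rw [mul_comm 12 F']
    exact Nat.mul_le_mul_left _ hpn
  have h2D : F' * n ^ (C + 1) ≤ 2 * (𝒟.card * n ^ (C + 1)) := by omega
  have hpos : 0 < n ^ (C + 1) := by omega
  have h2D' : F' ≤ 2 * 𝒟.card := by
    refine le_of_mul_le_mul_right (a := n ^ (C + 1)) ?_ hpos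
    calc F' * n ^ (C + 1) ≤ 2 * (𝒟.card * n ^ (C + 1)) := h2D
      _ = 2 * 𝒟.card * n ^ (C + 1) := by ring
  calc F' * n ^ C ≤ 2 * 𝒟.card * n ^ C := Nat.mul_le_mul_right _ h2D'
    _ = 𝒟.card * (2 * n ^ C) := by ring
    _ ≤ 𝒟.card * (n ^ 2 * n ^ C) := by
        refine Nat.mul_le_mul_left _ (Nat.mul_le_mul_right _ ?_)
        nlinarith [hn12]
    _ = 𝒟.card * n ^ (C + 2) := by ring
    _ ≤ (Fam r S).card := hD

end Pool.Agent.Helper41.R7
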